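import Pool.Agent.Q31.HS.Slice
import Pool.Agent.Y489.PH.Stm2
import Pool.Agent.Y412.PH.BA1
import Pool.Agent.Y419.PH.BAA
import Pool.Agent.Y570.PH.BA2

/-!
# Hilbert-Smith with a pointwise modulus: the Baire argument

(helper31) Adaptation of `Pool.Agent.Y412.PH.t_BA1`.
-/

set_option autoImplicit false

open MeasureTheory Set Metric Filter Topology
open scoped ENNReal NNReal

noncomputable section

namespace Pool.Agent.Q31.HS

open Pool.Agent.Y485.HS Pool.Agent.Y489.PH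

theorem baire {ω : ℝ → ℝ} (hω : ∀ r, 0 ≤ r → 0 ≤ ω r)
    (hωm : ∀ r s, 0 ≤ r → r ≤ s → ω r ≤ ω s) {n : ℕ}
    {H : Type} [Group H] [TopologicalSpace H] [IsTopologicalGroup H] [CompactSpace H] [T2Space H]
    [TotallyDisconnectedSpace H] {T : H → E n → E n} (hT : LocAct n H T)
    (hP : ∀ h, CPW ω (T h)) (hex : ∃ y ∈ ball (0 : E n) 1, ¬ Triv T y) :
    ∃ y ∈ ball (0 : E n) 1, ¬ Triv T y ∧ ∃ (h0 : H) (K : Subgroup H) (ρ : ℝ) (Z : Set (E n)),
      IsOpen (K : Set H) ∧ 0 < ρ ∧ Z.Countable ∧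
      ∀ x ∈ ball y ρ, x ∉ Z → Triv T x ∨ UPW ω (fun k => T (h0 * k)) (K : Set H) x := by
  set Q0 : Set (E n) := {x | x ∈ ball (0 : E n) 1 ∧ ¬ Triv T x} with hQ0
  have hlc : IsLocallyClosed Q0 := by
    have h1 : IsLocallyClosed (ball (0 : E n) 1) := isOpen_ball.isLocallyClosed
    have h2 : IsLocallyClosed {x : E n | ¬ Triv T x} := by
      apply IsClosed.isLocallyClosed
      exact (Pool.Agent.Y412.PH.isOpen_triv T).isClosed_compl
    exact h1.inter h2
  have hl : LocallyCompactSpace Q0 := hlc.locallyCompactSpace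
  obtain ⟨y0, hy0, hy0'⟩ := hex
  have hne : Nonempty Q0 := ⟨⟨y0, hy0, hy0'⟩⟩
  have hsub : ∀ q : Q0, (q : E n) ∈ BB n := by
    intro q
    have := q.2.1
    rw [mem_ball_zero_iff] at this
    rw [mem_BB]
    linarith
  have hB : ∀ q : Q0, ball (q : E n) 1 ⊆ BB n := by
    intro q z hz
    have h1 := q.2.1
    rw [mem_ball_zero_iff] at h1
    rw [mem_ball, dist_eq_norm] at hz
    rw [mem_BB]
    calc ‖z‖ = ‖(q : E n) + (z - q)‖ := by congr 1; abel
      _ ≤ ‖(q : E n)‖ + ‖z - q‖ := norm_add_le _ _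
      _ ≤ 4 := by linarith
  -- the condition in terms of translations
  set A : ℕ → Set (H × Q0) := fun m => {p | ∀ v : E n, ‖v‖ < 1 / ((m : ℝ) + 1) →
    dist (T p.1 ((p.2 : E n) + v)) (T p.1 (p.2 : E n)) ≤ m * ω (m * ‖v‖)} with hA
  have hvB : ∀ (m : ℕ) (q : Q0) (v : E n), ‖v‖ < 1 / ((m : ℝ) + 1) → (q : E n) + v ∈ BB n := by
    intro m q v hv
    apply hB q
    rw [mem_ball, dist_eq_norm, add_sub_cancel_left]
    refine lt_of_lt_of_le hv ?_
    rw [div_le_one (by positivity)]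
    have : (0 : ℝ) ≤ m := Nat.cast_nonneg m
    linarith
  have hAc : ∀ m, IsClosed (A m) := by
    intro m
    have hcT : Continuous (fun p : H × Q0 => T p.1 (p.2 : E n)) := by
      have hc : Continuous (fun p : H × Q0 => (p.1, (p.2 : E n))) := by fun_prop
      exact hT.cont.comp_continuous hc (fun p => ⟨mem_univ _, hsub p.2⟩)
    have hrw : A m = ⋂ v : E n, ⋂ _ : ‖v‖ < 1 / ((m : ℝ) + 1),
        {p : H × Q0 | dist (T p.1 ((p.2 : E n) + v)) (T p.1 (p.2 : E n)) ≤ m * ω (m * ‖v‖)} := by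
      ext p
      simp only [hA, mem_ofPred_eq, mem_iInter]
    rw [hrw]
    refine isClosed_iInter fun v => isClosed_iInter fun hv => ?_
    have h1 : Continuous (fun p : H × Q0 => T p.1 ((p.2 : E n) + v)) := by
      have hc : Continuous (fun p : H × Q0 => (p.1, (p.2 : E n) + v)) := by fun_prop
      exact hT.cont.comp_continuous hc (fun p => ⟨mem_univ _, hvB m p.2 v hv⟩)
    exact isClosed_le (h1.dist hcT) continuous_const
  have hcount : ∀ h : H, {q : Q0 | ∀ m, (h, q) ∉ A m}.Countable := by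
    intro h
    refine ((hP h).preimage (Subtype.val_injective : Function.Injective
      (Subtype.val : Q0 → E n))).mono ?_
    intro q hq
    refine ⟨?_, ?_⟩
    · have := q.2.1
      rw [mem_ball_zero_iff] at this ⊢
      linarith
    · rintro ⟨N, δ, hδ, hN⟩
      obtain ⟨m2, hm2⟩ := exists_nat_one_div_lt hδ
      apply hq (max N m2)
      intro v hv
      have h1 : (1 : ℝ) / (((max N m2 : ℕ) : ℝ) + 1) ≤ 1 / ((m2 : ℝ) + 1) := by
        apply one_div_le_one_div_of_le (by positivity)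
        have : (m2 : ℝ) ≤ ((max N m2 : ℕ) : ℝ) := by exact_mod_cast le_max_right _ _
        linarith
      have hd : dist ((q : E n) + v) (q : E n) = ‖v‖ := by
        rw [dist_eq_norm, add_sub_cancel_left]
      have h4 := hN _ (hvB _ q v hv) (by rw [hd]; linarith)
      rw [hd] at h4
      refine h4.trans ?_
      have h5 : ω ((N : ℝ) * ‖v‖) ≤ ω (((max N m2 : ℕ) : ℝ) * ‖v‖) :=
        hωm _ _ (by positivity) (mul_le_mul_of_nonneg_right
          (by exact_mod_cast le_max_left _ _) (norm_nonneg _))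
      exact mul_le_mul (by exact_mod_cast le_max_left _ _) h5 (hω _ (by positivity))
        (Nat.cast_nonneg _)
  rcases Pool.Agent.Y419.PH.t_BAA H Q0 A hAc hcount with
    ⟨q, hq⟩ | ⟨m, V, W, hV, ⟨h0, hh0⟩, hW, ⟨q, hq⟩, hVW⟩
  · obtain ⟨O, hO, hOq⟩ := isOpen_induced_iff.1 hq
    have hqO : (q : E n) ∈ O ∩ ball (0 : E n) 1 := by
      refine ⟨?_, q.2.1⟩
      have : q ∈ Subtype.val ⁻¹' O := by rw [hOq]; exact mem_singleton q
      exact this
    obtain ⟨ρ, hρ, hρs⟩ := Metric.isOpen_iff.1 (hO.inter isOpen_ball) _ hqO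
    refine ⟨q, q.2.1, q.2.2, 1, ⊤, ρ, {(q : E n)}, by simp, hρ, countable_singleton _, ?_⟩
    intro x hx hxq
    refine Or.inl ?_
    by_contra hxt
    have h1 : (⟨x, (hρs hx).2, hxt⟩ : Q0) ∈ Subtype.val ⁻¹' O := (hρs hx).1
    rw [hOq] at h1
    apply hxq
    have h2 := mem_singleton_iff.1 h1
    exact congrArg Subtype.val h2
  · obtain ⟨O, hO, hOq⟩ := isOpen_induced_iff.1 hW
    have hqO : (q : E n) ∈ O ∩ ball (0 : E n) 1 := by
      refine ⟨?_, q.2.1⟩
      have : q ∈ Subtype.val ⁻¹' O := by rw [hOq]; exact hq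
      exact this
    obtain ⟨ρ, hρ, hρs⟩ := Metric.isOpen_iff.1 (hO.inter isOpen_ball) _ hqO
    have hopen : IsOpen ((fun k => h0 * k) ⁻¹' V) := hV.preimage (continuous_const_mul h0)
    obtain ⟨K, hK⟩ := ProfiniteGrp.exist_openNormalSubgroup_sub_open_nhds_of_one hopen
      (by change h0 * 1 ∈ V; rw [mul_one]; exact hh0)
    refine ⟨q, q.2.1, q.2.2, h0, K.toSubgroup, ρ, ∅, K.toOpenSubgroup.isOpen, hρ,
      countable_empty, ?_⟩
    intro x hx _
    by_cases hxt : Triv T x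
    · exact Or.inl hxt
    refine Or.inr ⟨m, 1 / ((m : ℝ) + 1), by positivity, fun k hk z hz hzx => ?_⟩
    have h1 : (⟨x, (hρs hx).2, hxt⟩ : Q0) ∈ W := by
      rw [← hOq]
      exact (hρs hx).1
    have h2 : h0 * k ∈ V := hK hk
    have h3 : (h0 * k, (⟨x, (hρs hx).2, hxt⟩ : Q0)) ∈ A m := hVW ⟨h2, h1⟩
    have h4 := h3 (z - x) (by rwa [← dist_eq_norm])
    rw [← dist_eq_norm] at h4
    have h5 : x + (z - x) = z := by abel
    change dist (T (h0 * k) (x + (z - x))) (T (h0 * k) x) ≤ _ at h4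
    rw [h5] at h4
    exact h4

end Pool.Agent.Q31.HS
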