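import Pool.Agent.Q31.HS.Slice

/-!
# Hilbert-Smith with a pointwise modulus: transfer of an action to a bi-Lipschitz chart

(helper31) Adaptation of `Pool.Agent.Y726.PH.t_TRP` (helper726, helper858).
-/

set_option autoImplicit false

open MeasureTheory Set Metric Filter Topology
open scoped ENNReal NNReal

namespace Pool.Agent.Q31.HS

open Pool.Agent.Y485.HS

/-- the modulus of continuity of the map `f` of a metric space at `x` is `O(ω)` -/
def PWX (ω : ℝ → ℝ) {X : Type} [MetricSpace X] (f : X → X) (x : X) : Prop :=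
  ∃ (N : ℕ) (δ : ℝ), 0 < δ ∧ ∀ y, dist y x < δ → dist (f y) (f x) ≤ N * ω (N * dist y x)

/-- the same at all points of the set `R` except countably many -/
def CX (ω : ℝ → ℝ) {X : Type} [MetricSpace X] (R : Set X) (f : X → X) : Prop :=
  {x : X | x ∈ R ∧ ¬ PWX ω f x}.Countable

theorem trp {ω : ℝ → ℝ} {n : ℕ} (hω : Mod n ω) {X : Type} [MetricSpace X] {H : Type} [Group H]
    [TopologicalSpace H] [MulAction H X] [ContinuousSMul H X] {U : Set X} {ψ : X → E n} {L : ℝ}
    (hψ : BiLip n U ψ L) {R : Set X} (hUR : U ⊆ R) (hBU : closedBall 0 4 ⊆ ψ '' U)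
    (hact : ∀ h : H, ∀ x ∈ U, ψ x ∈ closedBall 0 4 →
      h • x ∈ U ∧ dist (ψ (h • x)) (ψ x) ≤ 1 / 4)
    (hSob : ∀ h : H, CX ω R (fun x : X => h • x)) :
    ∃ T : H → E n → E n, LocAct n H T ∧ (∀ h, CPW ω (T h)) ∧
      ∀ h : H, ∀ x ∈ U, ψ x ∈ closedBall 0 4 → T h (ψ x) = ψ (h • x) := by
  classical
  obtain ⟨hUo, hVo, hbl⟩ := hψ
  -- a nonnegative constant
  obtain ⟨K, hK⟩ : ∃ K : ℝ≥0, K = Real.toNNReal L := ⟨_, rfl⟩
  have hLK : L ≤ (K : ℝ) := by rw [hK]; exact Real.le_coe_toNNReal L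
  have hlip : LipschitzOnWith K ψ U := by
    refine LipschitzOnWith.of_dist_le_mul fun a ha b hb => ?_
    exact ((hbl a ha b hb).1).trans (mul_le_mul_of_nonneg_right hLK dist_nonneg)
  have h0 : (0 : E n) ∈ BB n := by
    unfold BB
    exact mem_closedBall_self (by norm_num)
  obtain ⟨x0, hx0U, hx0⟩ := hBU h0
  have : Nonempty X := ⟨x0⟩
  obtain ⟨θ, hθd⟩ : ∃ θ : E n → X, θ = Function.invFunOn ψ U := ⟨_, rfl⟩
  have hθU : ∀ y ∈ BB n, θ y ∈ U := by
    intro y hy
    obtain ⟨x, hx, hxy⟩ := hBU hy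
    rw [hθd]
    exact Function.invFunOn_mem ⟨x, hx, hxy⟩
  have hψθ : ∀ y ∈ BB n, ψ (θ y) = y := by
    intro y hy
    obtain ⟨x, hx, hxy⟩ := hBU hy
    rw [hθd]
    exact Function.invFunOn_eq ⟨x, hx, hxy⟩
  have hθψ : ∀ x ∈ U, θ (ψ x) = x := by
    intro x hx
    have h1 : θ (ψ x) ∈ U := by
      rw [hθd]; exact Function.invFunOn_mem ⟨x, hx, rfl⟩
    have h2 : ψ (θ (ψ x)) = ψ x := by
      rw [hθd]; exact Function.invFunOn_eq ⟨x, hx, rfl⟩
    have h3 := (hbl _ h1 x hx).2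
    rw [h2, dist_self, mul_zero] at h3
    exact dist_le_zero.1 h3
  have hθlip : LipschitzOnWith K θ (BB n) := by
    refine LipschitzOnWith.of_dist_le_mul fun a ha b hb => ?_
    have h3 := (hbl _ (hθU a ha) _ (hθU b hb)).2
    rw [hψθ a ha, hψθ b hb] at h3
    exact h3.trans (mul_le_mul_of_nonneg_right hLK dist_nonneg)
  have hθc : ContinuousOn θ (BB n) := hθlip.continuousOn
  have hact' : ∀ h : H, ∀ y ∈ BB n, h • θ y ∈ U ∧ dist (ψ (h • θ y)) y ≤ 1 / 4 := by
    intro h y hy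
    have := hact h (θ y) (hθU y hy) (by rw [hψθ y hy]; exact hy)
    rwa [hψθ y hy] at this
  refine ⟨fun h y => ψ (h • θ y), ⟨?_, ?_, ?_, ?_⟩, ?_, ?_⟩
  · -- continuity
    have h1 : ContinuousOn (fun q : H × E n => q.1 • θ q.2) (univ ×ˢ BB n) := by
      refine ContinuousOn.smul continuousOn_fst ?_
      exact hθc.comp continuousOn_snd fun q hq => hq.2
    exact hlip.continuousOn.comp h1 fun q hq => (hact' q.1 q.2 hq.2).1
  · intro x hx
    simp only [one_smul]
    exact hψθ x hx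
  · intro h k x hx hk
    rw [hθψ _ (hact' k x hx).1, mul_smul]
  · intro h x hx
    exact (hact' h x hx).2
  · intro h
    have hsub : ball (0 : E n) 4 ⊆ BB n := ball_subset_closedBall
    have hinj : InjOn θ (BB n) := by
      intro a ha b hb hab
      rw [← hψθ a ha, ← hψθ b hb, hab]
    refine MapsTo.countable_of_injOn (f := θ) (t := {x : X | x ∈ R ∧
      ¬ PWX ω (fun x : X => h • x) x}) ?_
      (hinj.mono fun v hv => hsub hv.1) (hSob h)
    rintro v ⟨hv, hnot⟩
    have hvB : v ∈ BB n := hsub hv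
    refine ⟨hUR (hθU v hvB), ?_⟩
    rintro ⟨N, δ, hδ, hN⟩
    apply hnot
    have hK0 : (0 : ℝ) ≤ K := K.2
    obtain ⟨M, hM⟩ := exists_nat_ge ((K : ℝ) * N + N * K)
    have hM1 : (K : ℝ) * N ≤ M := by
      have : (0 : ℝ) ≤ N * K := by positivity
      linarith
    have hM2 : (N : ℝ) * K ≤ M := by
      have : (0 : ℝ) ≤ K * N := by positivity
      linarith
    refine ⟨M, δ / (K + 1), by positivity, fun z hz hzv => ?_⟩
    have h1 : dist (θ z) (θ v) ≤ K * dist z v := hθlip.dist_le_mul z hz v hvB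
    have h2 : dist (θ z) (θ v) < δ := by
      rw [lt_div_iff₀ (by positivity)] at hzv
      have h3 : (K : ℝ) * dist z v ≤ dist z v * (K + 1) := by
        have := dist_nonneg (x := z) (y := v)
        nlinarith
      linarith
    have h4 := hN (θ z) h2
    have h5 : ω (N * dist (θ z) (θ v)) ≤ ω (M * dist z v) := by
      refine hω.mono _ _ (by positivity) ?_
      calc (N : ℝ) * dist (θ z) (θ v) ≤ N * (K * dist z v) :=
            mul_le_mul_of_nonneg_left h1 (Nat.cast_nonneg N)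
        _ = N * K * dist z v := by ring
        _ ≤ M * dist z v := mul_le_mul_of_nonneg_right hM2 dist_nonneg
    have h6 : dist (ψ (h • θ z)) (ψ (h • θ v)) ≤ K * dist (h • θ z) (h • θ v) :=
      hlip.dist_le_mul _ (hact' h z hz).1 _ (hact' h v hvB).1
    have h7 : 0 ≤ ω (M * dist z v) := hω.nonneg _ (by positivity)
    calc dist (ψ (h • θ z)) (ψ (h • θ v)) ≤ K * dist (h • θ z) (h • θ v) := h6
      _ ≤ K * (N * ω (N * dist (θ z) (θ v))) := mul_le_mul_of_nonneg_left h4 hK0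
      _ ≤ K * (N * ω (M * dist z v)) :=
          mul_le_mul_of_nonneg_left (mul_le_mul_of_nonneg_left h5 (Nat.cast_nonneg N)) hK0
      _ = K * N * ω (M * dist z v) := by ring
      _ ≤ M * ω (M * dist z v) := mul_le_mul_of_nonneg_right hM1 h7
  · intro h x hx _
    simp only
    rw [hθψ x hx]

end Pool.Agent.Q31.HS
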