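import Pool.Agent.Q31.HS.Slice
import Pool.Agent.Y532.SP.LOCS
import Pool.Agent.Y489.SP.Part
import Pool.Agent.Y983.SP.DEGP
import Pool.Agent.Y739.SP.APX
import Pool.Agent.Y236.SP.COMPT
import Pool.Agent.Y147.SP.INT
import Pool.Agent.Y255.SP.HOMT

/-!
# Hilbert-Smith with a pointwise modulus: the local theorem for an invariant map

(helper31) Adaptation of `Pool.Agent.Y532.SP.LOCS` (helper532): instead of an estimate for the
average we assume that a dense set of fibres of an invariant map `G` close to the identity is totally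
separated.
-/

set_option autoImplicit false

open MeasureTheory Set Metric Filter Topology
open scoped ENNReal NNReal

noncomputable section

namespace Pool.Agent.Q31.HS

open Pool.Agent.Y485.HS Pool.Agent.Y489.SP Pool.Agent.Y475.HS Pool.Agent.Y532.SP.LOCS

theorem degp : S_DEGP :=
  Pool.Agent.Y983.SP.DEGP.t_DEGP Pool.Agent.Y739.SP.t_APX Pool.Agent.Y255.SP.t_HOMT
    Pool.Agent.Y236.SP.t_COMPT (Pool.Agent.Y147.SP.t_INT Pool.Agent.Y255.SP.t_HOMT)

/-- the fibre of `G` over `w` is totally separated by hyperplanes -/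
def Sep {n : ℕ} (G : E n → E n) (w : E n) : Prop :=
  ∀ x ∈ closedBall (0 : E n) 3, ∀ x' ∈ closedBall (0 : E n) 3, G x = w → G x' = w → x ≠ x' →
    ∃ (i : Fin n) (t : ℝ), (∀ z ∈ closedBall (0 : E n) 3, G z = w → z i ≠ t) ∧
      ((x i < t ∧ t < x' i) ∨ (x' i < t ∧ t < x i))

/-- the local theorem for an invariant map -/
theorem core {n : ℕ} (hn : 1 ≤ n) {p : ℕ} (hp : p.Prime) {H : Type} [Group H]
    [TopologicalSpace H] {T : H → E n → E n}
    (hT : LocAct n H T) (g : H) (hgp : Tendsto (fun j : ℕ => g ^ p ^ j) atTop (𝓝 1))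
    (G : E n → E n) (hGc : ContinuousOn G (BB n)) (hGd : ∀ x ∈ BB n, dist (G x) x ≤ 1 / 4)
    (hGi : ∀ x ∈ BB n, T g x ∈ BB n → G (T g x) = G x)
    (hGf : ∀ x ∈ BB n, T g x = x → G x = x)
    (hGs : ∀ O : Set (E n), IsOpen O → O.Nonempty → O ⊆ ball (0 : E n) 1 → ∃ w ∈ O, Sep G w) :
    ∀ x ∈ ball (0 : E n) 1, T g x = x := by
  have hCB : closedBall (0 : E n) 3 ⊆ BB n := closedBall_subset_closedBall (by norm_num)
  -- a point with a separated fibre is fixed
  have hfix : ∀ y ∈ ball (0 : E n) 1, Sep G y → T g y = y := by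
    intro y hy1 hy
    by_contra hcon
    have hy1' : ‖y‖ < 1 := by simpa using hy1
    set Φ : Set (E n) := {x | x ∈ closedBall (0 : E n) 3 ∧ G x = y} with hΦ
    have hΦB : ∀ x ∈ Φ, x ∈ BB n := fun x hx => hCB hx.1
    have hΦn : ∀ x ∈ Φ, ‖x‖ < 5 / 4 := by
      intro x hx
      have := hGd x (hΦB x hx)
      rw [hx.2, dist_eq_norm] at this
      calc ‖x‖ = ‖y - (y - x)‖ := by congr 1; abel
        _ ≤ ‖y‖ + ‖y - x‖ := norm_sub_le _ _
        _ < _ := by linarith
    have hΦm : ∀ x ∈ Φ, T g x ∈ Φ := by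
      intro x hx
      have h1 := hΦn x hx
      have h2 := norm_T_le hT g (hΦB x hx)
      refine ⟨by simp; linarith, ?_⟩
      rw [hGi x (hΦB x hx) (mem_BB.2 (by linarith))]
      exact hx.2
    have hΦc : IsCompact Φ := by
      have h1 : IsClosed Φ := by
        have h2 : Φ = closedBall (0 : E n) 3 ∩ G ⁻¹' {y} := by
          ext x
          simp [Φ]
        rw [h2]
        exact (hGc.mono hCB).preimage_isClosed_of_isClosed isClosed_closedBall
          (isClosed_singleton (x := y))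
      exact (isCompact_closedBall (0 : E n) 3).of_isClosed_subset h1 (fun x hx => hx.1)
    have hne : ∀ x ∈ Φ, T g x ≠ x := by
      intro x hx hfx
      have h1 := hGf x (hΦB x hx) hfx
      rw [hx.2] at h1
      apply hcon
      rw [h1]
      exact hfx
    obtain ⟨W, hW1, hW2, hW3, hW4⟩ := Pool.Agent.Y489.SP.Part.t_PART n p hp Φ (T g) hΦc
      (fun x hx x' hx' hxx => by
        obtain ⟨i, t, h1, h2⟩ := hy x hx.1 x' hx'.1 hx.2 hx'.2 hxx
        exact ⟨i, t, fun z hz => h1 z hz.1 hz.2, h2⟩)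
      ((hT.cont_right g).mono hΦB) hΦm hne
      (fun ε hε => by
        obtain ⟨J, hJ⟩ := unif hT (fun j => g ^ p ^ j) hgp ε hε
        refine ⟨J, fun x hx => ?_⟩
        rw [(iter_eq hT g Φ hΦB hΦm (p ^ J) x hx).1]
        exact hJ x (hΦB x hx))
    refine degp n hn p hp.two_le G (T g) hGc (hT.cont_right g) hGd (hT.disp g) ?_ y hy1 W
      hW1 hW2 hW3 hW4
    intro x hx
    have hxn : ‖x‖ ≤ 3 := by simpa using hx
    have h2 := norm_T_le hT g (hCB hx)
    exact hGi x (hCB hx) (mem_BB.2 (by linarith))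
  -- the fixed points are dense and closed
  intro x hx
  by_contra hne
  have hxB : ∀ x ∈ ball (0 : E n) 1, BB n ∈ 𝓝 x := by
    intro x hx
    have h1 : ‖x‖ < 1 := by simpa using hx
    exact mem_of_superset (isOpen_ball.mem_nhds (mem_ball_zero_iff.2 (by linarith : ‖x‖ < 4)))
      ball_subset_closedBall
  have hop : ∀ᶠ z in 𝓝 x, T g z ≠ z := by
    have h1 : ContinuousAt (T g) x := (hT.cont_right g).continuousAt (hxB x hx)
    have h2 : ContinuousAt (fun z => (T g z, z)) x := h1.prodMk continuousAt_id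
    have h3 : {q : E n × E n | q.1 ≠ q.2} ∈ 𝓝 (T g x, x) :=
      (isOpen_ne_fun continuous_fst continuous_snd).mem_nhds hne
    exact h2 h3
  obtain ⟨O, hO1, hO2, hO3⟩ := _root_.eventually_nhds_iff.1 (hop.and (isOpen_ball.mem_nhds hx))
  obtain ⟨w, hwO, hw⟩ := hGs O hO2 ⟨x, hO3⟩ (fun z hz => (hO1 z hz).2)
  exact (hO1 w hwO).1 (hfix w (hO1 w hwO).2 hw)

end Pool.Agent.Q31.HS
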