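import Pool.Agent.Q31.HS.Energy

/-!
# Hilbert-Smith with local energy conditions: the Baire argument and locally finite families
-/

set_option autoImplicit false
set_option linter.unusedSectionVars false

open MeasureTheory Set Metric Filter Topology
open scoped ENNReal NNReal

noncomputable section

namespace Pool.Agent.Q31.HS

open Pool.Agent.Y485.HS Pool.Agent.Y489.PH Pool.Agent.Y475.HS

theorem bdd_T {n : ℕ} {H : Type} [Group H] [TopologicalSpace H] {T : H → E n → E n}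
    (hT : LocAct n H T) (h : H) {V : Set (E n)} (hV : V ⊆ BB n) :
    Bornology.IsBounded (T h '' V) :=
  ((isCompact_closedBall (0 : E n) 4).image_of_continuousOn (hT.cont_right h)).isBounded.subset
    (image_mono hV)

theorem closed_EVT (η : ℝ → ℝ) (N : ℕ) (δ : ℝ) {n : ℕ} {V : Set (E n)} (hV : V ⊆ BB n)
    {H : Type} [Group H] [TopologicalSpace H] {T : H → E n → E n} (hT : LocAct n H T) :
    IsClosed {h : H | EV η N δ V (T h)} := by
  have h1 : {h : H | EV η N δ V (T h)} =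
      (res T hT.cont) ⁻¹' {f : C(BB n, E n) | EV η N δ V (ext f)} := by
    ext h
    simp only [mem_ofPred_eq, mem_preimage]
    constructor
    · exact EV_congr fun x hx => by rw [ext_of_mem _ (hV hx), res_apply]
    · exact EV_congr fun x hx => by rw [ext_of_mem _ (hV hx), res_apply]
  rw [h1]
  exact (closed_EV η N δ hV).preimage (res T hT.cont).continuous

theorem ULE.mono {η : ℝ → ℝ} {n : ℕ} {H : Type} {S : H → E n → E n} {K K' : Set H} {x : E n}
    (h : ULE η S K x) (hK : K' ⊆ K) : ULE η S K' x := by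
  obtain ⟨N, δ, hδ, hB, h⟩ := h
  exact ⟨N, δ, hδ, hB, fun k hk => h k (hK hk)⟩

theorem baireE {η : ℝ → ℝ} (hη : Gau η) {n : ℕ}
    {H : Type} [Group H] [TopologicalSpace H] [IsTopologicalGroup H] [CompactSpace H] [T2Space H]
    [TotallyDisconnectedSpace H] {T : H → E n → E n} (hT : LocAct n H T)
    (hP : ∀ h, CLE η (T h)) (hex : ∃ y ∈ ball (0 : E n) 1, ¬ Triv T y) :
    ∃ y ∈ ball (0 : E n) 1, ¬ Triv T y ∧ ∃ (h0 : H) (K : Subgroup H) (ρ : ℝ) (Z : Set (E n)),
      IsOpen (K : Set H) ∧ 0 < ρ ∧ Z.Countable ∧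
      ∀ x ∈ ball y ρ, x ∉ Z → Triv T x ∨ ULE η (fun k => T (h0 * k)) (K : Set H) x := by
  set Q0 : Set (E n) := {x | x ∈ ball (0 : E n) 1 ∧ ¬ Triv T x} with hQ0
  have hlc : IsLocallyClosed Q0 := by
    have h1 : IsLocallyClosed (ball (0 : E n) 1) := isOpen_ball.isLocallyClosed
    have h2 : IsLocallyClosed {x : E n | ¬ Triv T x} := by
      apply IsClosed.isLocallyClosed
      exact (Pool.Agent.Y412.PH.isOpen_triv T).isClosed_compl
    exact h1.inter h2
  have hl : LocallyCompactSpace Q0 := hlc.locallyCompactSpace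
  obtain ⟨y0, hy0, hy0'⟩ := hex
  have hne : Nonempty Q0 := ⟨⟨y0, hy0, hy0'⟩⟩
  set d : ℕ → E n := TopologicalSpace.denseSeq (E n) with hd
  have hdd : DenseRange d := TopologicalSpace.denseRange_denseSeq (E n)
  set s : ℕ → ℝ := fun k => 1 / ((k : ℝ) + 1) with hs
  have hs0 : ∀ k, 0 < s k := fun k => by
    simp only [hs]
    positivity
  set A : ℕ → Set (H × Q0) := fun m => {p | (p.2 : E n) ∈ closedBall (d m.unpair.1)
      (s m.unpair.2.unpair.1 / 2) ∧ closedBall (d m.unpair.1) (s m.unpair.2.unpair.1) ⊆ BB n ∧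
      EV η m.unpair.2.unpair.2 (s m.unpair.2.unpair.1)
        (closedBall (d m.unpair.1) (s m.unpair.2.unpair.1)) (T p.1)} with hA
  have hAc : ∀ m, IsClosed (A m) := by
    intro m
    by_cases hB : closedBall (d m.unpair.1) (s m.unpair.2.unpair.1) ⊆ BB n
    · have hrw : A m = (fun p : H × Q0 => (p.2 : E n)) ⁻¹' closedBall (d m.unpair.1)
          (s m.unpair.2.unpair.1 / 2) ∩ Prod.fst ⁻¹' {h : H | EV η m.unpair.2.unpair.2
          (s m.unpair.2.unpair.1) (closedBall (d m.unpair.1) (s m.unpair.2.unpair.1)) (T h)} := by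
        ext p
        simp only [hA, mem_ofPred_eq, mem_inter_iff, mem_preimage]
        tauto
      rw [hrw]
      refine IsClosed.inter (isClosed_closedBall.preimage (by fun_prop)) ?_
      exact (closed_EVT η _ _ hB hT).preimage continuous_fst
    · have hrw : A m = ∅ := by
        ext p
        simp only [hA, mem_ofPred_eq, mem_empty_iff_false]
        tauto
      rw [hrw]
      exact isClosed_empty
  have hcount : ∀ h : H, {q : Q0 | ∀ m, (h, q) ∉ A m}.Countable := by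
    intro h
    refine ((hP h).preimage (Subtype.val_injective : Function.Injective
      (Subtype.val : Q0 → E n))).mono ?_
    intro q hq
    refine ⟨?_, ?_⟩
    · have := q.2.1
      rw [mem_ball_zero_iff] at this ⊢
      linarith
    · rintro ⟨N, δ, hδ, hB, hN⟩
      obtain ⟨k, hk⟩ := exists_nat_one_div_lt (half_pos hδ)
      have hsk : s k < δ / 2 := hk
      obtain ⟨i, hi⟩ := hdd.exists_dist_lt (q : E n) (half_pos (hs0 k))
      have hsub : closedBall (d i) (s k) ⊆ closedBall (q : E n) δ := by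
        intro z hz
        rw [mem_closedBall] at hz ⊢
        rw [dist_comm] at hi
        have := hs0 k
        linarith [dist_triangle z (d i) (q : E n)]
      apply hq (Nat.pair i (Nat.pair k N))
      simp only [hA, mem_ofPred_eq, Nat.unpair_pair]
      refine ⟨mem_closedBall.2 hi.le, hsub.trans hB, ?_⟩
      exact hN.mono hη (bdd_T hT h hB) le_rfl (by linarith) hsub
  rcases Pool.Agent.Y419.PH.t_BAA H Q0 A hAc hcount with
    ⟨q, hq⟩ | ⟨m, V, W, hV, ⟨h0, hh0⟩, hW, ⟨q, hq⟩, hVW⟩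
  · obtain ⟨O, hO, hOq⟩ := isOpen_induced_iff.1 hq
    have hqO : (q : E n) ∈ O ∩ ball (0 : E n) 1 := by
      refine ⟨?_, q.2.1⟩
      have : q ∈ Subtype.val ⁻¹' O := by rw [hOq]; exact mem_singleton q
      exact this
    obtain ⟨ρ, hρ, hρs⟩ := Metric.isOpen_iff.1 (hO.inter isOpen_ball) _ hqO
    refine ⟨q, q.2.1, q.2.2, 1, ⊤, ρ, {(q : E n)}, by simp, hρ, countable_singleton _, ?_⟩
    intro x hx hxq
    refine Or.inl ?_
    by_contra hxt
    have h1 : (⟨x, (hρs hx).2, hxt⟩ : Q0) ∈ Subtype.val ⁻¹' O := (hρs hx).1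
    rw [hOq] at h1
    apply hxq
    have h2 := mem_singleton_iff.1 h1
    exact congrArg Subtype.val h2
  · have hopen : IsOpen ((fun k => h0 * k) ⁻¹' V) := hV.preimage (continuous_const_mul h0)
    obtain ⟨K, hK⟩ := ProfiniteGrp.exist_openNormalSubgroup_sub_open_nhds_of_one hopen
      (by change h0 * 1 ∈ V; rw [mul_one]; exact hh0)
    have hδ := hs0 m.unpair.2.unpair.1
    set δ : ℝ := s m.unpair.2.unpair.1 with hδd
    obtain ⟨hq1, hq2, -⟩ : (h0, q) ∈ A m := hVW ⟨hh0, hq⟩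
    refine ⟨q, q.2.1, q.2.2, h0, K.toSubgroup, δ / 4, ∅, K.toOpenSubgroup.isOpen,
      by positivity, countable_empty, ?_⟩
    intro x hx _
    have hsub : closedBall x (δ / 4) ⊆ closedBall (d m.unpair.1) δ := by
      intro z hz
      rw [mem_closedBall] at hz ⊢
      rw [mem_ball] at hx
      change dist (q : E n) (d m.unpair.1) ≤ δ / 2 at hq1
      linarith [dist_triangle z x (d m.unpair.1), dist_triangle x (q : E n) (d m.unpair.1)]
    refine Or.inr ⟨m.unpair.2.unpair.2, δ / 4, by positivity, hsub.trans hq2,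
      fun k hk => ?_⟩
    obtain ⟨-, -, h3⟩ : (h0 * k, q) ∈ A m := hVW ⟨hK hk, hq⟩
    exact h3.mono hη (bdd_T hT (h0 * k) hq2) le_rfl (by linarith) hsub

section

variable {n : ℕ} {H : Type} [Group H] [TopologicalSpace H] [IsTopologicalGroup H]
  [CompactSpace H]

/-- points near which an open subgroup acts trivially -/
theorem ule_of_triv {η : ℝ → ℝ} (hη : Gau η) {T : H → E n → E n} (hT : LocAct n H T)
    (hP : ∀ k, CLE η (T k)) (h0 : H) {K0 : Subgroup H} (hK0 : IsOpen (K0 : Set H))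
    {V : Set (E n)} (hV : ∀ x ∈ V, ∀ᶠ z in 𝓝 x, ∀ k ∈ K0, T k z = z) :
    {x | x ∈ V ∧ x ∈ ball (0 : E n) 3 ∧ ¬ ULE η (fun k => T (h0 * k)) univ x}.Countable := by
  have hfin : Finite (H ⧸ K0) := Subgroup.quotient_finite_of_isOpen K0 hK0
  have hc : (⋃ q : H ⧸ K0, {x : E n | x ∈ ball (0 : E n) 3 ∧
      ¬ LE η (T (h0 * q.out)) x}).Countable :=
    countable_iUnion fun q => hP (h0 * q.out)
  refine hc.mono ?_
  rintro x ⟨hxV, hxb, hxn⟩
  by_contra hcon
  apply hxn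
  simp only [mem_iUnion, mem_ofPred_eq, not_exists, not_and, not_not] at hcon
  have h1 : ∀ q : H ⧸ K0, ∃ (N : ℕ) (δ : ℝ), 0 < δ ∧ closedBall x δ ⊆ BB n ∧
      EV η N δ (closedBall x δ) (T (h0 * q.out)) := fun q => hcon q hxb
  choose N δ hδ hB hN using h1
  have hfi := Fintype.ofFinite (H ⧸ K0)
  obtain ⟨ε, hε, hb⟩ := Metric.eventually_nhds_iff_ball.1 (hV x hxV)
  -- a common radius
  obtain ⟨ε', hε', hε1, hε2⟩ : ∃ ε' : ℝ, 0 < ε' ∧ ε' < ε ∧ ∀ q, ε' ≤ δ q := by
    have h2 : ∀ᶠ t : ℝ in 𝓝[>] 0, ∀ q : H ⧸ K0, t ≤ δ q := by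
      refine eventually_all.2 fun q => ?_
      filter_upwards [Ioo_mem_nhdsGT (hδ q)] with t ht using ht.2.le
    have h3 : ∀ᶠ t : ℝ in 𝓝[>] 0, t ∈ Ioo 0 ε := Ioo_mem_nhdsGT hε
    obtain ⟨t, ht1, ht2⟩ := (h2.and h3).exists
    exact ⟨t, ht2.1, ht2.2, ht1⟩
  have hBε : closedBall x ε' ⊆ BB n :=
    (closedBall_subset_closedBall (hε2 ((1 : H) : H ⧸ K0))).trans (hB _)
  refine ⟨∑ q, N q, ε', hε', hBε, fun k _ => ?_⟩
  obtain ⟨κ, hκ⟩ := QuotientGroup.mk_out_eq_mul K0 k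
  have hk : k = (k : H ⧸ K0).out * (κ : H)⁻¹ := by
    rw [hκ]
    group
  have hκ' : (κ : H)⁻¹ ∈ K0 := K0.inv_mem κ.2
  have key : ∀ w ∈ closedBall x ε', T (h0 * (k : H ⧸ K0).out) w = T (h0 * k) w := by
    intro w hw
    have h3 := hb w (closedBall_subset_ball hε1 hw) _ hκ'
    symm
    calc T (h0 * k) w = T (h0 * (k : H ⧸ K0).out * (κ : H)⁻¹) w := by
          rw [mul_assoc, ← hk]
      _ = T (h0 * (k : H ⧸ K0).out) (T (κ : H)⁻¹ w) :=
          hT.mul _ _ w (hBε hw) (by rw [h3]; exact hBε hw)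
      _ = T (h0 * (k : H ⧸ K0).out) w := by rw [h3]
  refine EV_congr key ?_
  exact (hN (k : H ⧸ K0)).mono hη (bdd_T hT _ (hB _))
    (Finset.single_le_sum (f := fun q => N q) (fun q _ => Nat.zero_le _) (Finset.mem_univ _))
    (hε2 _) (closedBall_subset_closedBall (hε2 _))

/-- the same for all points near which some open subgroup acts trivially -/
theorem ule_triv {η : ℝ → ℝ} (hη : Gau η) {T : H → E n → E n} (hT : LocAct n H T)
    (hP : ∀ k, CLE η (T k)) (h0 : H) :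
    {x | x ∈ ball (0 : E n) 3 ∧ Triv T x ∧ ¬ ULE η (fun k => T (h0 * k)) univ x}.Countable := by
  obtain ⟨W, hW⟩ : ∃ W : Set (E n), W = {x | x ∈ ball (0 : E n) 3 ∧ Triv T x} := ⟨_, rfl⟩
  have h1 : ∀ x : E n, ∃ (K0 : Subgroup H) (V : Set (E n)), IsOpen (K0 : Set H) ∧
      (∀ z ∈ V, ∀ᶠ z in 𝓝 z, ∀ k ∈ K0, T k z = z) ∧ (x ∈ W → V ∈ 𝓝 x) := by
    intro x
    by_cases hx : x ∈ W
    · have hx' := hx
      rw [hW] at hx'
      obtain ⟨-, K0, hK0, hz⟩ := hx'
      exact ⟨K0, {z | ∀ᶠ z in 𝓝 z, ∀ k ∈ K0, T k z = z}, hK0, fun z hz => hz,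
        fun _ => eventually_eventually_nhds.2 hz⟩
    · exact ⟨⊤, ∅, isOpen_univ, fun z hz => absurd hz (notMem_empty z), fun h => absurd h hx⟩
  choose K0 V hK0 hV hVW using h1
  obtain ⟨t, htW, htc, hcov⟩ := TopologicalSpace.countable_cover_nhdsWithin (f := V) (s := W)
    (fun x hx => mem_nhdsWithin_of_mem_nhds (hVW x hx))
  have h2 : (⋃ x ∈ t, {z | z ∈ V x ∧ z ∈ ball (0 : E n) 3 ∧
      ¬ ULE η (fun k => T (h0 * k)) univ z}).Countable :=
    htc.biUnion fun x _ => ule_of_triv hη hT hP h0 (hK0 x) (hV x)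
  refine h2.mono ?_
  rintro x ⟨hxb, hxT, hxn⟩
  have hxW : x ∈ W := by
    rw [hW]
    exact ⟨hxb, hxT⟩
  obtain ⟨x0, hx0, hxV⟩ := mem_iUnion₂.1 (hcov hxW)
  exact mem_iUnion₂.2 ⟨x0, hx0, hxV, hxb, hxn⟩

end

end Pool.Agent.Q31.HS
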