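import Pool.Agent.Q31.HS.ESob
import Pool.Agent.Y858.HS.Tr

/-!
# Hilbert-Smith with local energy conditions: transfer of an action to a bi-Lipschitz chart

(helper31) Local version of `Pool.Agent.Y909.SP.TRA` (helper909).
-/

set_option autoImplicit false

open MeasureTheory Set Metric Filter Topology
open scoped ENNReal NNReal

noncomputable section

namespace Pool.Agent.Q31.HS

open Pool.Agent.Y485.HS

/-- discrete energy of exponent `m` near `x`: for `r`-separated points `a` of a compact neighbourhood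
`C` of `x`, `r` times the sum of the `m`-th powers of the diameters of the images of the balls of
radius `c r` about `a` is at most `N η(N r)` -/
def EnX (m : ℕ) (η : ℝ → ℝ) {X : Type} [MetricSpace X] (f : X → X) (x : X) : Prop :=
  ∃ C ∈ 𝓝 x, IsCompact C ∧ ∀ c : ℕ, ∃ (N : ℕ) (δ : ℝ), 0 < δ ∧ ∀ r : ℝ, 0 < r → r ≤ δ →
    ∀ A : Finset X, (∀ a ∈ A, a ∈ C) → (∀ a ∈ A, ∀ b ∈ A, a ≠ b → r ≤ dist a b) →
      r * ∑ a ∈ A, Metric.diam (f '' (closedBall a (c * r) ∩ C)) ^ m ≤ N * η (N * r)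

/-- Sobolev class near `x`, with an exponent above `n - 1` -/
def SobAt (n : ℕ) {X : Type} [MetricSpace X] [MeasurableSpace X] [BorelSpace X] (f : X → X)
    (x : X) : Prop :=
  ∃ C ∈ 𝓝 x, ∃ q : ℝ, (n : ℝ) - 1 < q ∧ ∃ g : X → ℝ≥0∞, Measurable g ∧
    (∀ a ∈ C, ∀ b ∈ C, edist (f a) (f b) ≤ edist a b * (g a + g b)) ∧
    ∫⁻ a in C, g a ^ q ∂(Measure.hausdorffMeasure (n : ℝ)) < ∞

/-- the condition at a point -/
def PtE (n : ℕ) (η : ℝ → ℝ) {X : Type} [MetricSpace X] [MeasurableSpace X] [BorelSpace X]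
    (f : X → X) (x : X) : Prop :=
  SobAt n f x ∨ EnX (n - 1) (fun _ => 1) f x ∨ EnX n η f x

/-- the condition at all points of `R` except countably many -/
def CXE (n : ℕ) (η : ℝ → ℝ) {X : Type} [MetricSpace X] [MeasurableSpace X] [BorelSpace X]
    (R : Set X) (f : X → X) : Prop :=
  {x : X | x ∈ R ∧ ¬ PtE n η f x}.Countable

/-! ### The common modulus of continuity -/

/-- the common modulus of continuity of the maps of a local action -/
def Wm {n : ℕ} {H : Type} (T : H → E n → E n) (r : ℝ) : ℝ :=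
  sSup {s : ℝ | ∃ (h : H) (a b : E n), a ∈ BB n ∧ b ∈ BB n ∧ dist a b ≤ r ∧
    s = dist (T h a) (T h b)}

section modulus

variable {n : ℕ} {H : Type} [Group H] [TopologicalSpace H] {T : H → E n → E n}

theorem Wm_bdd (hT : LocAct n H T) (r : ℝ) :
    BddAbove {s : ℝ | ∃ (h : H) (a b : E n), a ∈ BB n ∧ b ∈ BB n ∧ dist a b ≤ r ∧
      s = dist (T h a) (T h b)} := by
  refine ⟨9, ?_⟩
  rintro s ⟨h, a, b, ha, hb, -, rfl⟩
  have h1 := norm_T_le hT h ha
  have h2 := norm_T_le hT h hb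
  have h3 := mem_BB.1 ha
  have h4 := mem_BB.1 hb
  rw [dist_eq_norm]
  have := norm_sub_le (T h a) (T h b)
  linarith

theorem le_Wm (hT : LocAct n H T) (h : H) {a b : E n} (ha : a ∈ BB n) (hb : b ∈ BB n) {r : ℝ}
    (hr : dist a b ≤ r) : dist (T h a) (T h b) ≤ Wm T r :=
  le_csSup (Wm_bdd hT r) ⟨h, a, b, ha, hb, hr, rfl⟩

theorem Wm_gau [CompactSpace H] (hT : LocAct n H T) : Gau (Wm T) := by
  have h0 : (0 : E n) ∈ BB n := mem_BB.2 (by simp)
  have hnn : ∀ r, 0 ≤ r → 0 ≤ Wm T r := fun r hr => by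
    have := le_Wm hT 1 h0 h0 (r := r) (by simpa using hr)
    exact dist_nonneg.trans this
  refine ⟨hnn, ?_, ?_⟩
  · intro r s hr hrs
    refine csSup_le ⟨dist (T 1 0) (T 1 0), 1, 0, 0, h0, h0, by simpa using hr, rfl⟩ ?_
    rintro t ⟨h, a, b, ha, hb, hab, rfl⟩
    exact le_Wm hT h ha hb (hab.trans hrs)
  · intro ε hε
    have key : ∃ δ : ℝ, 0 < δ ∧ ∀ h ∈ (univ : Set H), ∀ a ∈ BB n, ∀ b ∈ BB n, dist a b < δ →
        dist (T h a) (T h b) ≤ ε := by
      refine isCompact_univ.induction_on (p := fun s : Set H => ∃ δ : ℝ, 0 < δ ∧ ∀ h ∈ s,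
        ∀ a ∈ BB n, ∀ b ∈ BB n, dist a b < δ → dist (T h a) (T h b) ≤ ε) ?_ ?_ ?_ ?_
      · exact ⟨1, one_pos, fun h hh => absurd hh (notMem_empty h)⟩
      · rintro s t hst ⟨δ, hδ, h⟩
        exact ⟨δ, hδ, fun k hk => h k (hst hk)⟩
      · rintro s t ⟨δ, hδ, h⟩ ⟨δ', hδ', h'⟩
        refine ⟨min δ δ', lt_min hδ hδ', ?_⟩
        rintro k (hk | hk) a ha b hb hab
        · exact h k hk a ha b hb (hab.trans_le (min_le_left _ _))
        · exact h' k hk a ha b hb (hab.trans_le (min_le_right _ _))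
      · intro h _
        have h1 : Tendsto (fun k : H => Pool.Agent.Y475.HS.res T hT.cont k) (𝓝 h)
            (𝓝 (Pool.Agent.Y475.HS.res T hT.cont h)) :=
          (Pool.Agent.Y475.HS.res T hT.cont).continuous.tendsto h
        have h2 := Metric.tendsto_nhds.1 h1 (ε / 3) (by positivity)
        have hBc : IsCompact (BB n) := isCompact_closedBall _ _
        have hu := hBc.uniformContinuousOn_of_continuous (hT.cont_right h)
        rw [Metric.uniformContinuousOn_iff] at hu
        obtain ⟨δ, hδ, hu⟩ := hu (ε / 3) (by positivity)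
        refine ⟨{k : H | dist (Pool.Agent.Y475.HS.res T hT.cont k)
          (Pool.Agent.Y475.HS.res T hT.cont h) < ε / 3}, mem_nhdsWithin_of_mem_nhds h2, δ, hδ, ?_⟩
        intro k hk a ha b hb hab
        have h4 : ∀ z : E n, z ∈ BB n → dist (T k z) (T h z) ≤ ε / 3 := by
          intro z hz
          have h5 := (ContinuousMap.dist_apply_le_dist
            (f := Pool.Agent.Y475.HS.res T hT.cont k)
            (g := Pool.Agent.Y475.HS.res T hT.cont h) ⟨z, hz⟩)
          rw [Pool.Agent.Y475.HS.res_apply, Pool.Agent.Y475.HS.res_apply] at h5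
          have h6 : dist (Pool.Agent.Y475.HS.res T hT.cont k)
            (Pool.Agent.Y475.HS.res T hT.cont h) < ε / 3 := hk
          exact h5.trans h6.le
        have h5 := h4 a ha
        have h6 := h4 b hb
        have h7 := hu a ha b hb hab
        have h8 := dist_triangle4 (T k a) (T h a) (T h b) (T k b)
        rw [dist_comm (T h b) (T k b)] at h8
        linarith
    obtain ⟨δ, hδ, hk⟩ := key
    refine ⟨min (δ / 2) (ε / 2), by positivity, ?_, ?_⟩
    · have := min_le_right (δ / 2) (ε / 2)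
      linarith
    · refine csSup_le ⟨dist (T 1 0) (T 1 0), 1, 0, 0, h0, h0, by
        rw [dist_self]
        positivity, rfl⟩ ?_
      rintro t ⟨h, a, b, ha, hb, hab, rfl⟩
      refine hk h (mem_univ _) a ha b hb (hab.trans_lt ?_)
      have := min_le_left (δ / 2) (ε / 2)
      linarith

end modulus

theorem Gau.two {η : ℝ → ℝ} (hη : Gau η) : Gau (fun r => η (2 * r)) := by
  refine ⟨fun r hr => hη.nonneg _ (by positivity), fun r s hr hs => hη.mono _ _ (by positivity)
    (by linarith), fun ε hε => ?_⟩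
  obtain ⟨r, hr0, hr1, hr2⟩ := hη.small ε hε
  refine ⟨r / 2, by positivity, by linarith, ?_⟩
  rwa [mul_div_cancel₀ r (by norm_num : (2 : ℝ) ≠ 0)]

/-! ### Transfer of the discrete energies -/

theorem tr_en {n m : ℕ} {X : Type} [MetricSpace X] {K : ℝ} (hK1 : 1 ≤ K) {θ : E n → X}
    {V : Set (E n)} (hθ : ∀ a ∈ V, ∀ b ∈ V, dist (θ a) (θ b) ≤ K * dist a b)
    (hθ' : ∀ a ∈ V, ∀ b ∈ V, dist a b ≤ K * dist (θ a) (θ b)) {f : X → X} {u : E n → E n}
    (hu : ∀ a ∈ V, ∀ b ∈ V, dist (u a) (u b) ≤ K * dist (f (θ a)) (f (θ b))) {C : Set X}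
    (hC : MapsTo θ V C) (hfb : Bornology.IsBounded (f '' C)) {c : ℕ} (hc : K ^ 2 ≤ c)
    {B : ℝ → ℝ} {r : ℝ} (hr : 0 < r)
    (hN : ∀ A : Finset X, (∀ a ∈ A, a ∈ C) → (∀ a ∈ A, ∀ b ∈ A, a ≠ b → r / K ≤ dist a b) →
      r / K * ∑ a ∈ A, Metric.diam (f '' (closedBall a (c * (r / K)) ∩ C)) ^ m ≤ B r)
    {A : Finset (E n)} (hA : ∀ a ∈ A, a ∈ V) (hAs : ∀ a ∈ A, ∀ b ∈ A, a ≠ b → r ≤ dist a b) :
    r * ∑ a ∈ A, Metric.diam (u '' (closedBall a r ∩ V)) ^ m ≤ K ^ (m + 1) * B r := by
  classical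
  have hK0 : 0 < K := by linarith
  have hinj : ∀ a ∈ A, ∀ b ∈ A, θ a = θ b → a = b := by
    intro a ha b hb hab
    have := hθ' a (hA a ha) b (hA b hb)
    rw [hab, dist_self, mul_zero] at this
    exact dist_le_zero.1 this
  have hmain := hN (A.image θ) (by
      intro a ha
      obtain ⟨a0, ha0, rfl⟩ := Finset.mem_image.1 ha
      exact hC (hA a0 ha0)) (by
      intro a ha b hb hab
      obtain ⟨a0, ha0, rfl⟩ := Finset.mem_image.1 ha
      obtain ⟨b0, hb0, rfl⟩ := Finset.mem_image.1 hb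
      have hne : a0 ≠ b0 := fun h => hab (by rw [h])
      have h1 := hAs a0 ha0 b0 hb0 hne
      have h2 := hθ' a0 (hA a0 ha0) b0 (hA b0 hb0)
      rw [div_le_iff₀ hK0]
      linarith)
  rw [Finset.sum_image (fun a ha b hb hab => hinj a ha b hb hab)] at hmain
  have hterm : ∀ a ∈ A, Metric.diam (u '' (closedBall a r ∩ V)) ^ m ≤
      K ^ m * Metric.diam (f '' (closedBall (θ a) (c * (r / K)) ∩ C)) ^ m := by
    intro a ha
    rw [← mul_pow]
    refine pow_le_pow_left₀ diam_nonneg ?_ m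
    refine diam_le_of_forall_dist_le (mul_nonneg hK0.le diam_nonneg) ?_
    rintro _ ⟨x, hx, rfl⟩ _ ⟨y, hy, rfl⟩
    have hin : ∀ z ∈ closedBall a r ∩ V, θ z ∈ closedBall (θ a) (c * (r / K)) ∩ C := by
      intro z hz
      refine ⟨?_, hC hz.2⟩
      rw [mem_closedBall]
      have h1 := hθ z hz.2 a (hA a ha)
      have h2 : dist z a ≤ r := hz.1
      calc dist (θ z) (θ a) ≤ K * dist z a := h1
        _ ≤ K * r := by gcongr
        _ = K ^ 2 * (r / K) := by field_simp
        _ ≤ c * (r / K) := by gcongr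
    refine (hu x hx.2 y hy.2).trans (mul_le_mul_of_nonneg_left ?_ hK0.le)
    exact dist_le_diam_of_mem (hfb.subset (image_mono inter_subset_right))
      (mem_image_of_mem _ (hin x hx)) (mem_image_of_mem _ (hin y hy))
  calc r * ∑ a ∈ A, Metric.diam (u '' (closedBall a r ∩ V)) ^ m
      ≤ r * ∑ a ∈ A, K ^ m * Metric.diam (f '' (closedBall (θ a) (c * (r / K)) ∩ C)) ^ m :=
        mul_le_mul_of_nonneg_left (Finset.sum_le_sum hterm) hr.le
    _ = K ^ (m + 1) * (r / K * ∑ a ∈ A,
          Metric.diam (f '' (closedBall (θ a) (c * (r / K)) ∩ C)) ^ m) := by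
        rw [← Finset.mul_sum]
        field_simp
        ring
    _ ≤ K ^ (m + 1) * B r := by gcongr

theorem trpE {n : ℕ} (hn : 2 ≤ n) {η : ℝ → ℝ} (hη : Gau η) {X : Type} [MetricSpace X]
    [MeasurableSpace X] [BorelSpace X] {H : Type} [Group H]
    [TopologicalSpace H] [CompactSpace H] [MulAction H X] [ContinuousSMul H X] {U : Set X}
    {ψ : X → E n} {L : ℝ}
    (hψ : BiLip n U ψ L) {R : Set X} (hUR : U ⊆ R) (hBU : closedBall 0 4 ⊆ ψ '' U)
    (hact : ∀ h : H, ∀ x ∈ U, ψ x ∈ closedBall 0 4 →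
      h • x ∈ U ∧ dist (ψ (h • x)) (ψ x) ≤ 1 / 4)
    (hcl : ∀ h : H, CXE n η R (fun x : X => h • x)) :
    ∃ (η' : ℝ → ℝ) (T : H → E n → E n), Gau η' ∧ LocAct n H T ∧ (∀ h, CLE η' (T h)) ∧
      ∀ h : H, ∀ x ∈ U, ψ x ∈ closedBall 0 4 → T h (ψ x) = ψ (h • x) := by
  classical
  obtain ⟨hUo, hVo, hbl⟩ := hψ
  -- a constant, at least one
  obtain ⟨K, hK⟩ : ∃ K : ℝ≥0, K = max (Real.toNNReal L) 1 := ⟨_, rfl⟩
  have hK1' : (1 : ℝ≥0) ≤ K := by rw [hK]; exact le_max_right _ _
  have hK1 : (1 : ℝ) ≤ K := by exact_mod_cast hK1'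
  have hLK : L ≤ (K : ℝ) := by
    have h1 : Real.toNNReal L ≤ K := by rw [hK]; exact le_max_left _ _
    exact (Real.le_coe_toNNReal L).trans (by exact_mod_cast h1)
  have hK0 : (0 : ℝ) < K := by linarith
  have hlip : LipschitzOnWith K ψ U := by
    refine LipschitzOnWith.of_dist_le_mul fun a ha b hb => ?_
    exact ((hbl a ha b hb).1).trans (mul_le_mul_of_nonneg_right hLK dist_nonneg)
  have h0 : (0 : E n) ∈ BB n := by
    unfold BB
    exact mem_closedBall_self (by norm_num)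
  obtain ⟨x0, hx0U, hx0⟩ := hBU h0
  have : Nonempty X := ⟨x0⟩
  obtain ⟨θ, hθd⟩ : ∃ θ : E n → X, θ = Function.invFunOn ψ U := ⟨_, rfl⟩
  have hθU : ∀ y ∈ BB n, θ y ∈ U := by
    intro y hy
    obtain ⟨x, hx, hxy⟩ := hBU hy
    rw [hθd]
    exact Function.invFunOn_mem ⟨x, hx, hxy⟩
  have hψθ : ∀ y ∈ BB n, ψ (θ y) = y := by
    intro y hy
    obtain ⟨x, hx, hxy⟩ := hBU hy
    rw [hθd]
    exact Function.invFunOn_eq ⟨x, hx, hxy⟩
  have hθψ : ∀ x ∈ U, θ (ψ x) = x := by
    intro x hx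
    have h1 : θ (ψ x) ∈ U := by
      rw [hθd]; exact Function.invFunOn_mem ⟨x, hx, rfl⟩
    have h2 : ψ (θ (ψ x)) = ψ x := by
      rw [hθd]; exact Function.invFunOn_eq ⟨x, hx, rfl⟩
    have h3 := (hbl _ h1 x hx).2
    rw [h2, dist_self, mul_zero] at h3
    exact dist_le_zero.1 h3
  have hθlip : LipschitzOnWith K θ (BB n) := by
    refine LipschitzOnWith.of_dist_le_mul fun a ha b hb => ?_
    have h3 := (hbl _ (hθU a ha) _ (hθU b hb)).2
    rw [hψθ a ha, hψθ b hb] at h3
    exact h3.trans (mul_le_mul_of_nonneg_right hLK dist_nonneg)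
  have hθc : ContinuousOn θ (BB n) := hθlip.continuousOn
  have hact' : ∀ h : H, ∀ y ∈ BB n, h • θ y ∈ U ∧ dist (ψ (h • θ y)) y ≤ 1 / 4 := by
    intro h y hy
    have := hact h (θ y) (hθU y hy) (by rw [hψθ y hy]; exact hy)
    rwa [hψθ y hy] at this
  obtain ⟨T, hTd⟩ : ∃ T : H → E n → E n, T = fun h y => ψ (h • θ y) := ⟨_, rfl⟩
  have hTa : ∀ h y, T h y = ψ (h • θ y) := fun h y => by rw [hTd]
  have hLA : LocAct n H T := by
    rw [hTd]
    refine ⟨?_, ?_, ?_, ?_⟩
    · -- continuity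
      have h1 : ContinuousOn (fun q : H × E n => q.1 • θ q.2) (univ ×ˢ BB n) := by
        refine ContinuousOn.smul continuousOn_fst ?_
        exact hθc.comp continuousOn_snd fun q hq => hq.2
      exact hlip.continuousOn.comp h1 fun q hq => (hact' q.1 q.2 hq.2).1
    · intro x hx
      simp only [one_smul]
      exact hψθ x hx
    · intro h k x hx hk
      rw [hθψ _ (hact' k x hx).1, mul_smul]
    · intro h x hx
      exact (hact' h x hx).2
  have hW := Wm_gau hLA
  have hg2 : Gau (fun r => η r + Wm T (2 * r)) := hη.add hW.two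
  obtain ⟨η', hη'⟩ : ∃ η' : ℝ → ℝ, η' = fun r => (η r + Wm T (2 * r)) + lw 1 r := ⟨_, rfl⟩
  have hgη' : Gau η' := by
    rw [hη']
    exact hg2.add gau_lw
  have hle1 : ∀ r, 0 ≤ r → η r ≤ η' r := by
    intro r hr
    rw [hη']
    have h1 := hW.nonneg (2 * r) (by positivity)
    have h2 := gau_lw.nonneg r hr
    simp only
    linarith
  have hle2 : ∀ r, 0 ≤ r → Wm T (2 * r) ≤ η' r := by
    intro r hr
    rw [hη']
    have h1 := hη.nonneg r hr
    have h2 := gau_lw.nonneg r hr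
    simp only
    linarith
  have hle3 : ∀ r, 0 ≤ r → lw 1 r ≤ η' r := by
    intro r hr
    rw [hη']
    have h1 := hη.nonneg r hr
    have h2 := hW.nonneg (2 * r) (by positivity)
    simp only
    linarith
  refine ⟨η', T, hgη', hLA, ?_, ?_⟩
  · intro h
    have hsub : ball (0 : E n) 3 ⊆ BB n := fun v hv => by
      have : ‖v‖ < 3 := by simpa using hv
      exact mem_BB.2 (by linarith)
    have hinj : InjOn θ (BB n) := by
      intro a ha b hb hab
      rw [← hψθ a ha, ← hψθ b hb, hab]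
    refine MapsTo.countable_of_injOn (f := θ) (t := {x : X | x ∈ R ∧
      ¬ PtE n η (fun x : X => h • x) x}) ?_
      (hinj.mono fun v hv => hsub hv.1) (hcl h)
    rintro v ⟨hv, hnot⟩
    have hvB : v ∈ BB n := hsub hv
    refine ⟨hUR (hθU v hvB), fun hPt => hnot ?_⟩
    have hv3 : ‖v‖ < 3 := by simpa using hv
    have hBn : BB n ∈ 𝓝 v := by
      refine mem_of_superset (isOpen_ball.mem_nhds hv) hsub
    -- a small ball mapped to a neighbourhood
    have hsmall : ∀ C ∈ 𝓝 (θ v), ∃ δ0 : ℝ, 0 < δ0 ∧ ∀ z ∈ closedBall v δ0, θ z ∈ C ∧ z ∈ BB n := by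
      intro C hC
      have h1 : ContinuousAt θ v := (hθc v hvB).continuousAt hBn
      have h2 : ∀ᶠ z in 𝓝 v, θ z ∈ C ∧ z ∈ BB n := (h1.eventually_mem hC).and hBn
      obtain ⟨δ0, hδ0, h3⟩ := (nhds_basis_closedBall.mem_iff).1 h2
      exact ⟨δ0, hδ0, fun z hz => h3 hz⟩
    -- the discrete energies
    have hen : ∀ (m : ℕ) (ζ : ℝ → ℝ), (∀ r, 0 ≤ r → 0 ≤ ζ r) → (∀ r s, 0 ≤ r → r ≤ s → ζ r ≤ ζ s) →
        EnX m ζ (fun x : X => h • x) (θ v) → ∃ (N : ℕ) (δ : ℝ), 0 < δ ∧ 1 ≤ N ∧
          closedBall v δ ⊆ BB n ∧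
          ∀ r : ℝ, 0 < r → r ≤ δ → ∀ A : Finset (E n), (∀ a ∈ A, a ∈ closedBall v δ) →
          (∀ a ∈ A, ∀ b ∈ A, a ≠ b → r ≤ dist a b) →
          r * ∑ a ∈ A, Metric.diam (T h '' (closedBall a r ∩ closedBall v δ)) ^ m ≤
            N * ζ (N * r) := by
      rintro m ζ hζ0 hζm ⟨C, hC, hCc, hN⟩
      obtain ⟨δ0, hδ0, hδC⟩ := hsmall C hC
      obtain ⟨c, hc⟩ := exists_nat_ge ((K : ℝ) ^ 2)
      obtain ⟨N, δ, hδ, hN⟩ := hN c
      obtain ⟨N', hN'⟩ := exists_nat_ge (max ((K : ℝ) ^ (m + 1) * N) (max N 1))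
      have n1 : (K : ℝ) ^ (m + 1) * N ≤ N' := (le_max_left _ _).trans hN'
      have n2 : (N : ℝ) ≤ N' := (le_max_left _ _).trans ((le_max_right _ _).trans hN')
      have n3 : (1 : ℝ) ≤ N' := (le_max_right _ _).trans ((le_max_right _ _).trans hN')
      refine ⟨N', min δ0 δ, lt_min hδ0 hδ, by exact_mod_cast n3, ?_, ?_⟩
      · intro z hz
        exact (hδC z (closedBall_subset_closedBall (min_le_left _ _) hz)).2
      · intro r hr hr1 A hA hAs
        have hin : ∀ z ∈ closedBall v (min δ0 δ), θ z ∈ C ∧ z ∈ BB n := fun z hz =>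
          hδC z (closedBall_subset_closedBall (min_le_left _ _) hz)
        have hr' : 0 < r / K := by positivity
        have hrK : r / K ≤ r := div_le_self hr.le hK1
        have h1 := tr_en (n := n) (m := m) (K := (K : ℝ)) hK1 (θ := θ)
          (V := closedBall v (min δ0 δ))
          (fun a ha b hb => hθlip.dist_le_mul a (hin a ha).2 b (hin b hb).2)
          (fun a ha b hb => by
            have h2 := hlip.dist_le_mul _ (hθU a (hin a ha).2) _ (hθU b (hin b hb).2)
            rwa [hψθ a (hin a ha).2, hψθ b (hin b hb).2] at h2)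
          (f := fun x : X => h • x) (u := T h)
          (fun a ha b hb => by
            rw [hTa, hTa]
            exact hlip.dist_le_mul _ (hact' h a (hin a ha).2).1 _ (hact' h b (hin b hb).2).1)
          (C := C) (fun z hz => (hin z hz).1) (hCc.image (continuous_const_smul h)).isBounded
          hc (B := fun r => N * ζ (N * (r / K))) hr
          (fun A h1 h2 => hN (r / K) hr' (hrK.trans (hr1.trans (min_le_right _ _))) A h1 h2)
          hA hAs
        refine h1.trans ?_
        have h2 : ζ (N * (r / K)) ≤ ζ (N' * r) :=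
          hζm _ _ (by positivity) (mul_le_mul n2 hrK hr'.le (by positivity))
        have h3 : 0 ≤ ζ (N * (r / K)) := hζ0 _ (by positivity)
        rw [← mul_assoc]
        exact mul_le_mul n1 h2 h3 (by positivity)
    rcases hPt with hSob | hCr | hEn
    · -- Sobolev
      obtain ⟨C, hC, q, hq, g, hgm, hgH, hgE⟩ := hSob
      obtain ⟨δ0, hδ0, hδC⟩ := hsmall C hC
      have hn2 : (2 : ℝ) ≤ n := by exact_mod_cast hn
      have hq0 : 0 < q := by linarith
      have hBm : MeasurableSet (BB n) := isClosed_closedBall.measurableSet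
      obtain ⟨θ', hθ'⟩ : ∃ θ' : E n → X, θ' = (BB n).piecewise θ (fun _ => x0) := ⟨_, rfl⟩
      have hθ'm : Measurable θ' := by
        rw [hθ']
        exact hθc.measurable_piecewise continuousOn_const hBm
      have hθ'e : ∀ y ∈ BB n, θ' y = θ y := by
        intro y hy
        rw [hθ']
        exact piecewise_eq_of_mem _ _ _ hy
      obtain ⟨g', hg'⟩ : ∃ g' : E n → ℝ≥0∞, g' = fun y => (K : ℝ≥0∞) * (K : ℝ≥0∞) * g (θ' y) :=
        ⟨_, rfl⟩
      have hg'm : Measurable g' := by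
        rw [hg']
        exact (hgm.comp hθ'm).const_mul _
      have hHaj : Haj (closedBall v δ0) (T h) g' := by
        intro x hx y hy
        obtain ⟨hxC, hxB⟩ := hδC x hx
        obtain ⟨hyC, hyB⟩ := hδC y hy
        have h1 := hlip (hact' h x hxB).1 (hact' h y hyB).1
        have h2 := hgH (θ x) hxC (θ y) hyC
        have h3 := hθlip hxB hyB
        rw [hg', hTa, hTa]
        simp only
        rw [hθ'e x hxB, hθ'e y hyB]
        calc edist (ψ (h • θ x)) (ψ (h • θ y)) ≤ K * edist (h • θ x) (h • θ y) := h1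
          _ ≤ K * (edist (θ x) (θ y) * (g (θ x) + g (θ y))) := by gcongr
          _ ≤ K * ((K * edist x y) * (g (θ x) + g (θ y))) := by gcongr
          _ = edist x y * (K * K * g (θ x) + K * K * g (θ y)) := by ring
      have hEn : ∫⁻ y in closedBall v δ0, g' y ^ q < ∞ := by
        obtain ⟨c, hc⟩ := Pool.Agent.Y858.HS.vol_haus n
        have hmap : (volume.restrict (closedBall v δ0)).map θ' ≤
            ((c : ℝ≥0∞) * (K : ℝ≥0∞) ^ n) • (Measure.hausdorffMeasure (n : ℝ)).restrict C := by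
          refine Measure.le_iff.2 fun A hA => ?_
          rw [Measure.map_apply hθ'm hA, Measure.restrict_apply (hθ'm hA), Measure.smul_apply,
            Measure.restrict_apply hA, smul_eq_mul]
          have hsub : θ' ⁻¹' A ∩ closedBall v δ0 ⊆ ψ '' (A ∩ (C ∩ U)) := by
            rintro y ⟨hyA, hyV⟩
            obtain ⟨hyC, hyB⟩ := hδC y hyV
            refine ⟨θ y, ⟨?_, hyC, hθU y hyB⟩, hψθ y hyB⟩
            rw [← hθ'e y hyB]
            exact hyA
          have hh := (hlip.mono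
            (inter_subset_right.trans inter_subset_right : A ∩ (C ∩ U) ⊆ U)).hausdorffMeasure_image_le
            (d := (n : ℝ)) (Nat.cast_nonneg n)
          calc volume (θ' ⁻¹' A ∩ closedBall v δ0) ≤ volume (ψ '' (A ∩ (C ∩ U))) :=
                measure_mono hsub
            _ = c * Measure.hausdorffMeasure (n : ℝ) (ψ '' (A ∩ (C ∩ U))) := hc _
            _ ≤ c * ((K : ℝ≥0∞) ^ (n : ℝ) * Measure.hausdorffMeasure (n : ℝ) (A ∩ (C ∩ U))) := by
              gcongr
            _ = c * (K : ℝ≥0∞) ^ n * Measure.hausdorffMeasure (n : ℝ) (A ∩ (C ∩ U)) := by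
              rw [ENNReal.rpow_natCast, mul_assoc]
            _ ≤ c * (K : ℝ≥0∞) ^ n * Measure.hausdorffMeasure (n : ℝ) (A ∩ C) := by
              gcongr
              exact inter_subset_left
        have h1 : ∫⁻ y in closedBall v δ0, g (θ' y) ^ q < ∞ := by
          have h2 : ∫⁻ y in closedBall v δ0, g (θ' y) ^ q =
              ∫⁻ x, g x ^ q ∂((volume.restrict (closedBall v δ0)).map θ') :=
            (lintegral_map (hgm.pow_const q) hθ'm).symm
          rw [h2]
          refine lt_of_le_of_lt (lintegral_mono' hmap le_rfl) ?_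
          rw [lintegral_smul_measure, smul_eq_mul]
          refine ENNReal.mul_lt_top ?_ hgE
          exact ENNReal.mul_lt_top ENNReal.coe_lt_top (ENNReal.pow_lt_top ENNReal.coe_lt_top)
        have h3 : ∫⁻ y in closedBall v δ0, g' y ^ q =
            ((K : ℝ≥0∞) * (K : ℝ≥0∞)) ^ q * ∫⁻ y in closedBall v δ0, g (θ' y) ^ q := by
          rw [hg']
          have hm2 : Measurable (fun y => g (θ' y) ^ q) := (hgm.comp hθ'm).pow_const q
          rw [← lintegral_const_mul _ hm2]
          simp only [ENNReal.mul_rpow_of_nonneg _ _ hq0.le]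
        rw [h3]
        exact ENNReal.mul_lt_top (ENNReal.rpow_lt_top_of_nonneg hq0.le
          (ENNReal.mul_lt_top ENNReal.coe_lt_top ENNReal.coe_lt_top).ne) h1
      exact (LE_of_sob hn hLA h hv hq hg'm hδ0 hHaj hEn).gauge hle3
    · -- bounded energy of exponent `n - 1`
      obtain ⟨N, δ, hδ, hN1, hB, hN⟩ := hen (n - 1) (fun _ => 1) (fun _ _ => zero_le_one)
        (fun _ _ _ _ => le_rfl) hCr
      refine ⟨N, δ, hδ, hB, ?_⟩
      intro r hr hr1 A hA hAs
      have hN1' : (1 : ℝ) ≤ N := by exact_mod_cast hN1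
      have h1 := hN r hr hr1 A hA hAs
      have h2 : ∀ a ∈ A, Metric.diam (T h '' (closedBall a r ∩ closedBall v δ)) ^ n ≤
          Wm T (2 * r) * Metric.diam (T h '' (closedBall a r ∩ closedBall v δ)) ^ (n - 1) := by
        intro a _
        have e : Metric.diam (T h '' (closedBall a r ∩ closedBall v δ)) ^ n =
            Metric.diam (T h '' (closedBall a r ∩ closedBall v δ)) *
            Metric.diam (T h '' (closedBall a r ∩ closedBall v δ)) ^ (n - 1) := by
          rw [← pow_succ']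
          congr 1
          omega
        rw [e]
        refine mul_le_mul_of_nonneg_right ?_ (pow_nonneg diam_nonneg _)
        refine diam_le_of_forall_dist_le (hW.nonneg _ (by positivity)) ?_
        rintro _ ⟨x, hx, rfl⟩ _ ⟨y, hy, rfl⟩
        refine le_Wm hLA h (hB hx.2) (hB hy.2) ?_
        have h3 : dist x a ≤ r := hx.1
        have h4 : dist y a ≤ r := hy.1
        have := dist_triangle_right x y a
        linarith
      have h5 : 0 ≤ Wm T (2 * r) := hW.nonneg _ (by positivity)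
      have h6 : Wm T (2 * r) ≤ η' (N * r) := by
        refine (hW.mono (2 * r) (2 * (N * r)) (by positivity) ?_).trans
          (hle2 (N * r) (by positivity))
        nlinarith
      have h7 : 0 ≤ r * ∑ a ∈ A,
          Metric.diam (T h '' (closedBall a r ∩ closedBall v δ)) ^ (n - 1) :=
        mul_nonneg hr.le (Finset.sum_nonneg fun a _ => pow_nonneg diam_nonneg _)
      calc r * ∑ a ∈ A, Metric.diam (T h '' (closedBall a r ∩ closedBall v δ)) ^ n
          ≤ r * ∑ a ∈ A, Wm T (2 * r) *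
            Metric.diam (T h '' (closedBall a r ∩ closedBall v δ)) ^ (n - 1) :=
            mul_le_mul_of_nonneg_left (Finset.sum_le_sum h2) hr.le
        _ = Wm T (2 * r) * (r * ∑ a ∈ A,
            Metric.diam (T h '' (closedBall a r ∩ closedBall v δ)) ^ (n - 1)) := by
            rw [← Finset.mul_sum]
            ring
        _ ≤ η' (N * r) * (N * 1) := mul_le_mul h6 h1 h7 (h5.trans h6)
        _ = N * η' (N * r) := by ring
    · -- energy with the gauge
      obtain ⟨N, δ, hδ, hN1, hB, hN⟩ := hen n η hη.nonneg hη.mono hEn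
      have h1 : EV η N δ (closedBall v δ) (T h) := hN
      exact ⟨N, δ, hδ, hB, h1.gauge hle1⟩
  · intro h x hx _
    rw [hTa, hθψ x hx]

end Pool.Agent.Q31.HS
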