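import Pool.Agent.Q31.HS.Local

/-!
# Hilbert-Smith with a pointwise modulus: profinite groups act trivially near every point

(helper31) Adaptation of `Pool.Agent.Y143.PH.t_LOC2`.
-/

set_option autoImplicit false

open MeasureTheory Set Metric Filter Topology
open scoped ENNReal NNReal

noncomputable section

namespace Pool.Agent.Q31.HS

open Pool.Agent.Y485.HS Pool.Agent.Y489.PH Pool.Agent.Y143.PH

/-- pullback of a local action -/
theorem locAct_comp {n : ℕ} {H K : Type} [Group H] [TopologicalSpace H] [Group K]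
    [TopologicalSpace K] {T : H → E n → E n} (hT : LocAct n H T) (i : K →* H)
    (hi : Continuous i) : LocAct n K (fun k => T (i k)) where
  cont := by
    have h := hT.cont
    have hc : Continuous (fun q : K × E n => (i q.1, q.2)) := by fun_prop
    refine (h.comp hc.continuousOn ?_)
    rintro ⟨k, x⟩ ⟨-, hx⟩
    exact ⟨mem_univ _, hx⟩
  one := fun x hx => by simpa using hT.one x hx
  mul := fun h k x hx hk => by simpa using hT.mul (i h) (i k) x hx hk
  disp := fun h x hx => hT.disp (i h) x hx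

theorem loc2 {n : ℕ} (hn : 1 ≤ n) {ω : ℝ → ℝ} (hω : Mod n ω) {H : Type} [Group H]
    [TopologicalSpace H] [IsTopologicalGroup H] [CompactSpace H] [T2Space H]
    [TotallyDisconnectedSpace H] {T : H → E n → E n} (hT : LocAct n H T)
    (hP : ∀ h, CPW ω (T h)) : ∀ y ∈ ball (0 : E n) 1, Triv T y := by
  intro y0 hy0
  by_contra hcon
  obtain ⟨y, hy1, hyT, h0, K, ρ, Z, hKo, hρ, hZ, hKZ⟩ :=
    baire hω.nonneg hω.mono hT hP ⟨y0, hy0, hcon⟩
  have hy : y ∈ ball (0 : E n) 2 := ball_subset_ball (by norm_num) hy1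
  obtain ⟨r, K', hr0, hrρ, hr1, hK'o, hK'K, hT'⟩ :=
    Pool.Agent.Y523.PH.t_RES n H T hT y hy K hKo ρ hρ
  change LocAct n K' (fun (k : K') (v : E n) => (4 / r) • (T (k : H) (Af y r v) - y)) at hT'
  -- uniform continuity of the inverse of `h0`
  obtain ⟨η, hη0, hη⟩ : ∃ η : ℝ, 0 < η ∧ ∀ a ∈ BB n, ∀ b ∈ BB n, dist a b ≤ η →
      dist (T h0⁻¹ a) (T h0⁻¹ b) ≤ r / 16 := by
    have hBc : IsCompact (BB n) := isCompact_closedBall _ _
    have hu := hBc.uniformContinuousOn_of_continuous (hT.cont_right h0⁻¹)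
    rw [Metric.uniformContinuousOn_iff] at hu
    obtain ⟨η, hη0, hη⟩ := hu (r / 16) (by positivity)
    exact ⟨η / 2, by positivity, fun a ha b hb hab => (hη a ha b hb (by linarith)).le⟩
  obtain ⟨N, hN⟩ : ∃ N : OpenNormalSubgroup H, ∀ k ∈ N.toSubgroup, ∀ x ∈ BB n,
      dist (T (h0 * k) x) (T h0 x) ≤ η := by
    have h1 : Tendsto (fun k : H => Pool.Agent.Y475.HS.res T hT.cont (h0 * k)) (𝓝 1)
        (𝓝 (Pool.Agent.Y475.HS.res T hT.cont (h0 * 1))) := by
      have hc : Continuous (fun k : H => Pool.Agent.Y475.HS.res T hT.cont (h0 * k)) :=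
        (Pool.Agent.Y475.HS.res T hT.cont).continuous.comp (continuous_const_mul h0)
      exact hc.tendsto 1
    have h2 := Metric.tendsto_nhds.1 h1 η hη0
    obtain ⟨V, hVs, hVo, hV1⟩ := mem_nhds_iff.1 h2
    obtain ⟨N, hN⟩ := ProfiniteGrp.exist_openNormalSubgroup_sub_open_nhds_of_one hVo hV1
    refine ⟨N, fun k hk x hx => ?_⟩
    have h3 : dist (Pool.Agent.Y475.HS.res T hT.cont (h0 * k))
        (Pool.Agent.Y475.HS.res T hT.cont (h0 * 1)) < η := hVs (hN hk)
    have h4 := (ContinuousMap.dist_apply_le_dist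
      (f := Pool.Agent.Y475.HS.res T hT.cont (h0 * k))
      (g := Pool.Agent.Y475.HS.res T hT.cont (h0 * 1)) ⟨x, hx⟩).trans_lt h3
    rw [Pool.Agent.Y475.HS.res_apply, Pool.Agent.Y475.HS.res_apply, mul_one] at h4
    exact h4.le
  set K'' : Subgroup H := K' ⊓ N.toSubgroup with hK''
  have hK''o : IsOpen (K'' : Set H) := by
    rw [hK'', Subgroup.coe_inf]
    exact hK'o.inter N.isOpen'
  have hK''c : IsClosed (K'' : Set H) := Subgroup.isClosed_of_isOpen K'' hK''o
  have : CompactSpace K'' := isCompact_iff_compactSpace.1 hK''c.isCompact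
  have hle : K'' ≤ K' := inf_le_left
  have hT'' : LocAct n K'' (fun (k : K'') (v : E n) => (4 / r) • (T (k : H) (Af y r v) - y)) :=
    locAct_comp hT' (Subgroup.inclusion hle) (by
      refine Continuous.subtype_mk ?_ _
      exact continuous_subtype_val)
  have hcount : {x | x ∈ ball y r ∧ ¬ UPW ω (fun k => T (h0 * k)) (K'' : Set H) x}.Countable := by
    refine (hZ.union (upw_triv hω hT hP h0)).mono ?_
    rintro x ⟨hx, hxn⟩
    by_cases hxZ : x ∈ Z
    · exact Or.inl hxZ
    · refine Or.inr ?_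
      have h1 := hKZ x (ball_subset_ball hrρ hx) hxZ
      have h2 : ¬ UPW ω (fun k => T (h0 * k)) (K : Set H) x := fun h =>
        hxn (h.mono fun k hk => hK'K (hle hk))
      refine ⟨?_, h1.resolve_right h2, fun h => hxn (h.mono (subset_univ _))⟩
      have h3 : ‖y‖ < 1 := by simpa using hy1
      rw [mem_ball, dist_eq_norm] at hx
      rw [mem_ball_zero_iff]
      calc ‖x‖ = ‖y + (x - y)‖ := by congr 1; abel
        _ ≤ ‖y‖ + ‖x - y‖ := norm_add_le _ _
        _ < 4 := by linarith
  set T' : K'' → E n → E n := fun (k : K'') (v : E n) => (4 / r) • (T (k : H) (Af y r v) - y)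
    with hT'def
  have hone : ∀ x : E n, x ∈ ball (0 : E n) 1 → x ∈ BB n := fun x hx => by
    have : ‖x‖ < 1 := by simpa using hx
    exact mem_BB.2 (by linarith)
  let D : Subgroup K'' :=
    { carrier := {k | ∀ x ∈ ball (0 : E n) 1, T' k x = x}
      mul_mem' := by
        intro a b ha hb x hx
        have hxB := hone x hx
        have h1 := hT''.mul a b x hxB (by
          change T' b x ∈ BB n
          rw [hb x hx]; exact hxB)
        change T' (a * b) x = T' a (T' b x) at h1
        rw [h1, hb x hx, ha x hx]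
      one_mem' := by
        intro x hx
        exact hT''.one x (hone x hx)
      inv_mem' := by
        intro a ha x hx
        have hxB := hone x hx
        have h1 := hT''.inv a hxB (by
          change T' a x ∈ BB n
          rw [ha x hx]; exact hxB)
        change T' a⁻¹ (T' a x) = x at h1
        rw [ha x hx] at h1
        exact h1 }
  have hDc : IsClosed (D : Set K'') := by
    have h1 : (D : Set K'') = ⋂ x ∈ ball (0 : E n) 1, {k : K'' | T' k x = x} := by
      ext k
      simp only [mem_iInter]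
      rfl
    rw [h1]
    refine isClosed_biInter fun x hx => ?_
    exact isClosed_eq (hT''.cont_left (hone x hx)) continuous_const
  have hD : D = ⊤ := by
    refine Pool.Agent.Y215.HS.syl K'' D hDc ?_
    intro p hp P hPc hPp k hk
    have : CompactSpace P := isCompact_iff_compactSpace.1 hPc.isCompact
    have h1 : Tendsto (fun j : ℕ => (⟨k, hk⟩ : P) ^ p ^ j) atTop (𝓝 1) :=
      Pool.Agent.Y340.SP.t_POW p hp P hPp ⟨k, hk⟩
    have h2 : Tendsto (fun j : ℕ => k ^ p ^ j) atTop (𝓝 1) := by
      have hc : Continuous (fun q : P => (q : K'')) := continuous_subtype_val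
      have h3 := (hc.tendsto 1).comp h1
      simpa [Function.comp_def] using h3
    exact local_step hn hω hp hT h0 hr0 hr1 hy K'' hK''c hT'' hη
      (fun k hk x hx => hN k hk.2 x hx) hcount k h2
  -- conclusion
  apply hyT
  refine ⟨K'', hK''o, ?_⟩
  filter_upwards [ball_mem_nhds y (show (0 : ℝ) < r / 4 by positivity)] with x hx k hk
  have hmem : (⟨k, hk⟩ : K'') ∈ D := by rw [hD]; exact Subgroup.mem_top _
  have hv : (4 / r) • (x - y) ∈ ball (0 : E n) 1 := by
    have h4 : (0 : ℝ) ≤ 4 / r := by positivity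
    rw [mem_ball, dist_eq_norm] at hx
    rw [mem_ball, dist_zero_right, norm_smul, Real.norm_of_nonneg h4]
    calc 4 / r * ‖x - y‖ < 4 / r * (r / 4) := mul_lt_mul_of_pos_left hx (by positivity)
      _ = 1 := by field_simp
  have h1 : (4 / r) • (T k (Af y r ((4 / r) • (x - y))) - y) = (4 / r) • (x - y) := hmem _ hv
  rw [Af_surj hr0] at h1
  have h4 : (4 / r : ℝ) ≠ 0 := by positivity
  have h2 := smul_right_injective (E n) h4 h1
  simpa using h2

end Pool.Agent.Q31.HS
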