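import Pool.Agent.Q31.HS.EBaire

/-!
# Hilbert-Smith with local energy conditions: the local theorem

(helper31) The averages over a coset `h₀ P`, as in `Pool.Agent.Q31.HS.Local`.
-/

set_option autoImplicit false
set_option linter.unusedSectionVars false

open MeasureTheory Set Metric Filter Topology
open scoped ENNReal NNReal

noncomputable section

namespace Pool.Agent.Q31.HS

open Pool.Agent.Y485.HS Pool.Agent.Y489.PH Pool.Agent.Y475.HS

open Pool.Agent.Y143.PH in
/-- the energy after a dilation -/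
theorem EV_Af {η : ℝ → ℝ} (hη : Gau η) {n : ℕ} {N N' : ℕ} {δ δ' : ℝ} {V V' : Set (E n)}
    {F : E n → E n} (hb : Bornology.IsBounded (F '' V)) {y : E n} {r : ℝ} (hr0 : 0 < r)
    (hr1 : r ≤ 1) (h : EV η N δ V F) (hV' : ∀ v ∈ V', Af y r v ∈ V) (hN' : 4 / r * N ≤ N')
    (hδ' : δ' ≤ δ) : EV η N' δ' V' (fun v => F (Af y r v)) := by
  classical
  intro s hs hs1 A hA hAs
  have hs4 : 0 < r / 4 * s := by positivity
  have hs5 : r / 4 * s ≤ s := by nlinarith
  have h1 := h (r / 4 * s) hs4 (hs5.trans (hs1.trans hδ')) (A.image (Af y r))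
    (by
      intro a ha
      obtain ⟨b, hb, rfl⟩ := Finset.mem_image.1 ha
      exact hV' b (hA b hb))
    (by
      intro a ha b hb hab
      obtain ⟨a', ha', rfl⟩ := Finset.mem_image.1 ha
      obtain ⟨b', hb', rfl⟩ := Finset.mem_image.1 hb
      rw [Af_dist hr0]
      exact mul_le_mul_of_nonneg_left (hAs a' ha' b' hb' fun h => hab (by rw [h])) (by positivity))
  rw [Finset.sum_image (fun a _ b _ hab => Af_inj (y := y) hr0 hab)] at h1
  have h2 : ∑ a ∈ A, Metric.diam ((fun v => F (Af y r v)) '' (closedBall a s ∩ V')) ^ n ≤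
      ∑ a ∈ A, Metric.diam (F '' (closedBall (Af y r a) (r / 4 * s) ∩ V)) ^ n := by
    refine Finset.sum_le_sum fun a _ => pow_le_pow_left₀ diam_nonneg ?_ n
    refine diam_mono ?_ (hb.subset (image_mono inter_subset_right))
    rintro _ ⟨v, ⟨hv1, hv2⟩, rfl⟩
    refine ⟨Af y r v, ⟨?_, hV' v hv2⟩, rfl⟩
    rw [mem_closedBall, Af_dist hr0]
    exact mul_le_mul_of_nonneg_left hv1 (by positivity)
  have hNN : (N : ℝ) ≤ 4 / r * N := by
    have h3 : (1 : ℝ) ≤ 4 / r := by
      rw [le_div_iff₀ hr0]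
      linarith
    nlinarith [(Nat.cast_nonneg N : (0 : ℝ) ≤ N)]
  have hηN : η (N * (r / 4 * s)) ≤ η (N' * s) :=
    hη.mono _ _ (by positivity) (mul_le_mul (hNN.trans hN') hs5 hs4.le (by positivity))
  have h0 : 0 ≤ η (N * (r / 4 * s)) := hη.nonneg _ (by positivity)
  calc s * ∑ a ∈ A, Metric.diam ((fun v => F (Af y r v)) '' (closedBall a s ∩ V')) ^ n
      ≤ s * ∑ a ∈ A, Metric.diam (F '' (closedBall (Af y r a) (r / 4 * s) ∩ V)) ^ n :=
        mul_le_mul_of_nonneg_left h2 hs.le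
    _ = 4 / r * (r / 4 * s * ∑ a ∈ A,
          Metric.diam (F '' (closedBall (Af y r a) (r / 4 * s) ∩ V)) ^ n) := by
        field_simp
    _ ≤ 4 / r * (N * η (N * (r / 4 * s))) := mul_le_mul_of_nonneg_left h1 (by positivity)
    _ = 4 / r * N * η (N * (r / 4 * s)) := by ring
    _ ≤ N' * η (N' * s) := mul_le_mul hN' hηN h0 (Nat.cast_nonneg _)

section avg

variable {n : ℕ} {H : Type} [Group H] [TopologicalSpace H] [IsTopologicalGroup H]
  [CompactSpace H] [T2Space H] {T : H → E n → E n}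

open Pool.Agent.Y143.PH in
/-- the local theorem near a point `y`, after a dilation with factor `4 / r` -/
theorem local_stepE (hn : 1 ≤ n) {ω : ℝ → ℝ} (hω : Gau ω) {p : ℕ} (hp : p.Prime)
    (hT : LocAct n H T) (h0 : H) {y : E n} {r : ℝ} (hr0 : 0 < r) (hr1 : r ≤ 1)
    (hy : y ∈ ball (0 : E n) 2) (K : Subgroup H) (hKc : IsClosed (K : Set H))
    (hTK : LocAct n K (fun (k : K) (v : E n) => (4 / r) • (T (k : H) (Af y r v) - y)))
    {η : ℝ} (hη : ∀ a ∈ BB n, ∀ b ∈ BB n, dist a b ≤ η → dist (T h0⁻¹ a) (T h0⁻¹ b) ≤ r / 16)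
    (hKη : ∀ k ∈ K, ∀ x ∈ BB n, dist (T (h0 * k) x) (T h0 x) ≤ η)
    (hcount : {x | x ∈ ball y r ∧ ¬ ULE ω (fun k => T (h0 * k)) (K : Set H) x}.Countable)
    (g : K) (hgp : Tendsto (fun j : ℕ => g ^ p ^ j) atTop (𝓝 1)) :
    ∀ v ∈ ball (0 : E n) 1, (4 / r) • (T (g : H) (Af y r v) - y) = v := by
  have hrr : (4 / r : ℝ) ≠ 0 := by positivity
  have hClK : ∀ q : Cl (g : H), (q : H) ∈ K := by
    intro q
    exact Subgroup.topologicalClosure_minimal _ ((Subgroup.zpowers_le).2 g.2) hKc q.2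
  -- norms
  have hA3 : ∀ v ∈ BB n, ‖Af y r v‖ < 3 := fun v hv => Af_norm hr0 hr1 hy (mem_BB.1 hv)
  have hAB : ∀ v ∈ BB n, Af y r v ∈ BB n := fun v hv => mem_BB.2 (by linarith [hA3 v hv])
  have hFd : ∀ x ∈ BB n, dist (av T h0 g x) (T h0 x) ≤ η := fun x hx =>
    av_dist hT h0 g hx _ fun q => hKη _ (K.inv_mem (hClK q)) x hx
  have hFn : ∀ x ∈ BB n, ‖av T h0 g x‖ ≤ ‖x‖ + 1 / 4 := by
    intro x hx
    have h1 : dist (av T h0 g x) x ≤ 1 / 4 := av_dist hT h0 g hx _ fun q => hT.disp _ x hx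
    rw [dist_eq_norm] at h1
    calc ‖av T h0 g x‖ = ‖x + (av T h0 g x - x)‖ := by congr 1; abel
      _ ≤ ‖x‖ + ‖av T h0 g x - x‖ := norm_add_le _ _
      _ ≤ _ := by linarith
  have hFB : ∀ v ∈ BB n, av T h0 g (Af y r v) ∈ BB n := fun v hv => by
    have h1 := hFn _ (hAB v hv)
    have h2 := hA3 v hv
    exact mem_BB.2 (by linarith)
  have hinv : ∀ x : E n, ‖x‖ ≤ 3 → T h0⁻¹ (T h0 x) = x := by
    intro x hx
    have hxB : x ∈ BB n := mem_BB.2 (by linarith)
    have h1 := norm_T_le hT h0 hxB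
    exact hT.inv h0 hxB (mem_BB.2 (by linarith))
  -- the invariant map
  set G : E n → E n := fun v => (4 / r) • (T h0⁻¹ (av T h0 g (Af y r v)) - y) with hG
  have hback : ∀ a : E n, a ∈ BB n → T h0⁻¹ a ∈ BB n → T h0 (T h0⁻¹ a) = a := by
    intro a ha ha'
    have := hT.inv h0⁻¹ ha ha'
    rwa [inv_inv] at this
  -- displacement
  have hGd : ∀ v ∈ BB n, dist (G v) v ≤ 1 / 4 := by
    intro v hv
    have hx := hAB v hv
    have h1 : dist (T h0⁻¹ (av T h0 g (Af y r v))) (T h0⁻¹ (T h0 (Af y r v))) ≤ r / 16 := by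
      refine hη _ (hFB v hv) _ ?_ (hFd _ hx)
      have := norm_T_le hT h0 hx
      have h3 := hA3 v hv
      exact mem_BB.2 (by linarith)
    rw [hinv _ (hA3 v hv).le] at h1
    have h2 : G v = (4 / r) • (T h0⁻¹ (av T h0 g (Af y r v)) - y) := rfl
    rw [h2]
    nth_rw 2 [← resc_Af (y := y) hr0 v]
    rw [resc_dist hr0]
    calc 4 / r * dist (T h0⁻¹ (av T h0 g (Af y r v))) (Af y r v) ≤ 4 / r * (r / 16) :=
          mul_le_mul_of_nonneg_left h1 (by positivity)
      _ = 1 / 4 := by field_simp; norm_num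
  have hGc : ContinuousOn (fun v => av T h0 g (Af y r v)) (BB n) :=
    (av_cont hT h0 g).comp Af_cont.continuousOn hAB
  refine core hn hp hTK g hgp G ?_ hGd ?_ ?_ ?_
  · -- continuity
    have h2 : ContinuousOn (fun v => T h0⁻¹ (av T h0 g (Af y r v))) (BB n) :=
      (hT.cont_right h0⁻¹).comp hGc hFB
    exact (h2.sub continuousOn_const).const_smul (4 / r : ℝ)
  · -- invariance
    intro v hv hgv
    have h1 : Af y r ((4 / r) • (T (g : H) (Af y r v) - y)) = T (g : H) (Af y r v) :=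
      Af_surj hr0 _
    have h2 : T (g : H) (Af y r v) ∈ BB n := by
      rw [← h1]
      exact hAB _ hgv
    show (4 / r) • (T h0⁻¹ (av T h0 g (Af y r ((4 / r) • (T (g : H) (Af y r v) - y)))) - y) = _
    rw [h1, av_inv hT h0 g (hAB v hv) h2]
  · -- fixed points
    intro v hv hgv
    have h1 : T (g : H) (Af y r v) = Af y r v := by
      rw [← Af_surj (y := y) hr0 (T (g : H) (Af y r v)), hgv]
    show (4 / r) • (T h0⁻¹ (av T h0 g (Af y r v)) - y) = v
    rw [av_fix hT h0 g (hAB v hv) h1, hinv _ (hA3 v hv).le, resc_Af hr0]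
  · -- separated fibres
    intro O hO hne hO1
    have hC : CLE ω (fun v => av T h0 g (Af y r v)) := by
      refine (hcount.preimage (Af_inj (y := y) hr0)).mono ?_
      rintro v ⟨hv, hvn⟩
      have hv3 : ‖v‖ < 3 := by simpa using hv
      refine ⟨?_, fun h => hvn ?_⟩
      · rw [mem_ball, Af_dist_center hr0]
        have : r / 4 * ‖v‖ < r / 4 * 4 := mul_lt_mul_of_pos_left (by linarith) (by positivity)
        linarith
      · obtain ⟨N, δ, hδ, hB, hN⟩ := h
        obtain ⟨N', hN'⟩ := exists_nat_ge (4 / r * N)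
        have hav : EV ω N δ (closedBall (Af y r v) δ) (av T h0 g) := by
          have h1 := EV_avg hB (hm (g : H)) (fun (q : Cl (g : H)) x => T (h0 * ((q : H))⁻¹) x)
            (av_S hT h0 (g : H)) (fun q => hN _ (K.inv_mem (hClK q)))
          exact h1
        have hbd : Bornology.IsBounded (av T h0 g '' closedBall (Af y r v) δ) :=
          ((isCompact_closedBall (0 : E n) 4).image_of_continuousOn
            (av_cont hT h0 g)).isBounded.subset (image_mono hB)
        refine ⟨N', min δ 1, lt_min hδ one_pos, ?_, ?_⟩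
        · intro z hz
          rw [mem_closedBall, dist_eq_norm] at hz
          have h2 : ‖z - v‖ ≤ 1 := hz.trans (min_le_right _ _)
          refine mem_BB.2 ?_
          calc ‖z‖ = ‖v + (z - v)‖ := by congr 1; abel
            _ ≤ ‖v‖ + ‖z - v‖ := norm_add_le _ _
            _ ≤ 4 := by linarith
        · refine EV_Af hω hbd hr0 hr1 hav ?_ hN' (min_le_left _ _)
          intro z hz
          rw [mem_closedBall] at hz ⊢
          rw [Af_dist hr0]
          have h2 := hz.trans (min_le_left _ _)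
          have h3 := dist_nonneg (x := z) (y := v)
          nlinarith
    have h1 := nul_LE hω hGc hC
    set O' : Set (E n) := {u | u ∈ ball (0 : E n) 4 ∧ (4 / r) • (T h0⁻¹ u - y) ∈ O} with hO'
    have hO'o : IsOpen O' := by
      have hc : ContinuousOn (fun u => (4 / r) • (T h0⁻¹ u - y)) (ball (0 : E n) 4) :=
        (((hT.cont_right h0⁻¹).mono ball_subset_closedBall).sub
          continuousOn_const).const_smul (4 / r : ℝ)
      exact hc.isOpen_inter_preimage isOpen_ball hO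
    have hO'n : O'.Nonempty := by
      obtain ⟨w0, hw0⟩ := hne
      have hw1 : ‖w0‖ < 1 := by simpa using hO1 hw0
      have hwB : w0 ∈ BB n := mem_BB.2 (by linarith)
      refine ⟨T h0 (Af y r w0), ?_, ?_⟩
      · have h2 := norm_T_le hT h0 (hAB w0 hwB)
        have h3 := hA3 w0 hwB
        rw [mem_ball_zero_iff]
        linarith
      · rw [hinv _ (hA3 w0 hwB).le, resc_Af hr0]
        exact hw0
    obtain ⟨u, huO, hu⟩ : ∃ u, u ∈ O' ∧ Sep2 (fun v => av T h0 g (Af y r v)) u := by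
      by_contra hcon
      push Not at hcon
      have h3 : volume O' = 0 := by
        refine measure_mono_null ?_ (ae_iff.1 h1)
        intro w hw hs
        exact hcon w hw hs
      exact (hO'o.measure_pos volume hO'n).ne' h3
    refine ⟨_, huO.2, ?_⟩
    set w : E n := (4 / r) • (T h0⁻¹ u - y) with hw
    have hw1 : ‖w‖ < 1 := by simpa using hO1 huO.2
    have hwB : w ∈ BB n := mem_BB.2 (by linarith)
    have huB : u ∈ BB n := ball_subset_closedBall huO.1
    have hTu : T h0⁻¹ u = Af y r w := (Af_surj hr0 _).symm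
    have hTuB : T h0⁻¹ u ∈ BB n := by
      rw [hTu]
      exact hAB w hwB
    -- the fibres agree
    have hfib : ∀ v ∈ closedBall (0 : E n) 3, (G v = w ↔ av T h0 g (Af y r v) = u) := by
      intro v hv
      have hvB : v ∈ BB n := closedBall_subset_closedBall (by norm_num) hv
      constructor
      · intro h
        have h2 : T h0⁻¹ (av T h0 g (Af y r v)) - y = T h0⁻¹ u - y :=
          smul_right_injective (E n) hrr h
        have h3 : T h0⁻¹ (av T h0 g (Af y r v)) = T h0⁻¹ u := sub_left_injective h2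
        have h4 := hback _ (hFB v hvB) (by rw [h3]; exact hTuB)
        rw [← h4, h3, hback u huB hTuB]
      · intro h
        show (4 / r) • (T h0⁻¹ (av T h0 g (Af y r v)) - y) = w
        rw [h]
    -- the fibre is contained in the ball of radius two
    have hfib2 : ∀ v ∈ closedBall (0 : E n) 3, G v = w → v ∈ closedBall (0 : E n) 2 := by
      intro v hv hGv
      have hvB : v ∈ BB n := closedBall_subset_closedBall (by norm_num) hv
      have h2 := hGd v hvB
      rw [hGv, dist_eq_norm] at h2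
      rw [mem_closedBall_zero_iff]
      calc ‖v‖ = ‖w - (w - v)‖ := by congr 1; abel
        _ ≤ ‖w‖ + ‖w - v‖ := norm_sub_le _ _
        _ ≤ 2 := by linarith
    intro v hv v' hv' hGv hGv' hne'
    obtain ⟨i, t, h2, h3⟩ := hu v (hfib2 v hv hGv) v' (hfib2 v' hv' hGv') ((hfib v hv).1 hGv)
      ((hfib v' hv').1 hGv') hne'
    exact ⟨i, t, fun z hz hGz => h2 z (hfib2 z hz hGz) ((hfib z hz).1 hGz), h3⟩

theorem bdd_av (hT : LocAct n H T) (h0 g : H) {V : Set (E n)} (hV : V ⊆ BB n) :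
    Bornology.IsBounded (av T h0 g '' V) :=
  ((isCompact_closedBall (0 : E n) 4).image_of_continuousOn
    (av_cont hT h0 g)).isBounded.subset (image_mono hV)

/-- the local theorem without rescaling -/
theorem local_oneE (hn : 1 ≤ n) {ω : ℝ → ℝ} (hω : Gau ω) {p : ℕ} (hp : p.Prime)
    (hT : LocAct n H T)
    (hcount : {x | x ∈ ball (0 : E n) 3 ∧ ¬ ULE ω T univ x}.Countable) (g : H)
    (hgp : Tendsto (fun j : ℕ => g ^ p ^ j) atTop (𝓝 1)) :
    ∀ x ∈ ball (0 : E n) 1, T g x = x := by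
  have hGd : ∀ x ∈ BB n, dist (av T 1 g x) x ≤ 1 / 4 := fun x hx =>
    av_dist hT 1 g hx _ fun q => hT.disp _ x hx
  refine core hn hp hT g hgp (av T 1 g) (av_cont hT 1 g) hGd
    (fun x hx hgx => av_inv hT 1 g hx hgx) (fun x hx hgx => ?_) (fun O hO hne hO1 => ?_)
  · rw [av_fix hT 1 g hx hgx, hT.one x hx]
  · have hC : CLE ω (av T 1 g) := by
      refine hcount.mono ?_
      rintro x ⟨hx, hxn⟩
      refine ⟨hx, fun h => hxn ?_⟩
      obtain ⟨N, δ, hδ, hB, hN⟩ := h
      refine ⟨N, δ, hδ, hB, ?_⟩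
      have h1 := EV_avg hB (hm g) (fun (q : Cl g) x => T (1 * ((q : H))⁻¹) x)
        (av_S hT 1 g) (fun q => hN _ (mem_univ _))
      exact h1
    have h1 := nul_LE hω (av_cont hT 1 g) hC
    obtain ⟨w, hwO, hw⟩ : ∃ w, w ∈ O ∧ Sep2 (av T 1 g) w := by
      by_contra hcon
      push Not at hcon
      have h3 : volume O = 0 := by
        refine measure_mono_null ?_ (ae_iff.1 h1)
        intro w hw hs
        exact hcon w hw hs
      exact (hO.measure_pos volume hne).ne' h3
    have hw1 : ‖w‖ < 1 := by simpa using hO1 hwO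
    have hfib2 : ∀ v ∈ closedBall (0 : E n) 3, av T 1 g v = w → v ∈ closedBall (0 : E n) 2 := by
      intro v hv hGv
      have hvB : v ∈ BB n := closedBall_subset_closedBall (by norm_num) hv
      have h2 := hGd v hvB
      rw [hGv, dist_eq_norm] at h2
      rw [mem_closedBall_zero_iff]
      calc ‖v‖ = ‖w - (w - v)‖ := by congr 1; abel
        _ ≤ ‖w‖ + ‖w - v‖ := norm_sub_le _ _
        _ ≤ 2 := by linarith
    refine ⟨w, hwO, ?_⟩
    intro v hv v' hv' hGv hGv' hne'
    obtain ⟨i, t, h2, h3⟩ := hw v (hfib2 v hv hGv) v' (hfib2 v' hv' hGv') hGv hGv' hne'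
    exact ⟨i, t, fun z hz hGz => h2 z (hfib2 z hz hGz) hGz, h3⟩

end avg

end Pool.Agent.Q31.HS
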