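import Pool.Agent.Y485.HS.Glob

/-!
# Charts inside of an open set of regular points

(helper31) Adaptation of `Pool.Agent.Y658.HS.start` (helper658): the chart is contained in a given
open set `R`.
-/

set_option autoImplicit false

open MeasureTheory Set Metric Filter Topology
open scoped ENNReal NNReal

namespace Pool.Agent.Q31.HS

open Pool.Agent.Y485.HS

/-- restriction of a chart -/
theorem chart_in {X : Type} [MetricSpace X] {n : ℕ} {R : Set X} (hR : IsOpen R) {x0 : X}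
    (hx0 : x0 ∈ R) (h : x0 ∈ Reg n X) :
    ∃ (U : Set X) (ψ : X → E n) (L : ℝ), x0 ∈ U ∧ U ⊆ R ∧ BiLip n U ψ L := by
  obtain ⟨U, ψ, L, hxU, hU⟩ := h
  refine ⟨U ∩ R, ψ, L, ⟨hxU, hx0⟩, inter_subset_right, hU.1.inter hR, ?_, fun a ha b hb =>
    hU.2.2 a ha.1 b hb.1⟩
  have h1 : ψ '' (U ∩ R) = ψ '' U ∩ inv' U ψ x0 ⁻¹' R := by
    ext z
    constructor
    · rintro ⟨x, ⟨hx, hxR⟩, rfl⟩
      refine ⟨mem_image_of_mem ψ hx, ?_⟩
      rw [mem_preimage, hU.inv'_left hx]
      exact hxR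
    · rintro ⟨hz, hzR⟩
      exact ⟨inv' U ψ x0 z, ⟨inv'_mem hz, hzR⟩, inv'_eq hz⟩
  rw [h1]
  exact (hU.inv'_cont x0).isOpen_inter_preimage hU.2.1 hR

/-- rescaled charts -/
theorem scaled_chart {X : Type} [MetricSpace X] {n : ℕ} {R : Set X} (hR : IsOpen R) {x0 : X}
    (hx0R : x0 ∈ R) (h : x0 ∈ Reg n X) :
    ∃ (U : Set X) (ψ : X → E n) (L : ℝ), BiLip n U ψ L ∧ U ⊆ R ∧ x0 ∈ U ∧ ψ x0 = 0 ∧
      closedBall 0 4 ⊆ ψ '' U := by
  obtain ⟨U, ψ, L, hx0, hUR, hU, hψU, hL⟩ := chart_in hR hx0R h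
  obtain ⟨r, hr, hball⟩ := Metric.isOpen_iff.1 hψU (ψ x0) ⟨x0, hx0, rfl⟩
  set c : ℝ := 5 / r with hc
  have hc0 : 0 < c := by positivity
  have hd : ∀ a b, dist (c • (ψ a - ψ x0)) (c • (ψ b - ψ x0)) = c * dist (ψ a) (ψ b) := by
    intro a b
    rw [dist_smul₀, Real.norm_of_nonneg hc0.le, dist_sub_right]
  refine ⟨U, fun x => c • (ψ x - ψ x0), max (c * L) (L / c), ⟨hU, ?_, ?_⟩, hUR, hx0, by simp, ?_⟩
  · have h1 : (fun x => c • (ψ x - ψ x0)) '' U = (fun z => c⁻¹ • z + ψ x0) ⁻¹' (ψ '' U) := by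
      ext z
      constructor
      · rintro ⟨x, hx, rfl⟩
        refine ⟨x, hx, ?_⟩
        simp only [smul_smul, inv_mul_cancel₀ hc0.ne', one_smul, sub_add_cancel]
      · rintro ⟨x, hx, hxz⟩
        refine ⟨x, hx, ?_⟩
        simp only at hxz ⊢
        rw [hxz, add_sub_cancel_right, smul_smul, mul_inv_cancel₀ hc0.ne', one_smul]
    rw [h1]
    exact hψU.preimage (by fun_prop)
  · intro a ha b hb
    obtain ⟨h1, h2⟩ := hL a ha b hb
    have hab : 0 ≤ dist a b := dist_nonneg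
    have hab' : 0 ≤ dist (ψ a) (ψ b) := dist_nonneg
    rw [hd]
    constructor
    · calc c * dist (ψ a) (ψ b) ≤ c * (L * dist a b) := by gcongr
        _ = (c * L) * dist a b := by ring
        _ ≤ max (c * L) (L / c) * dist a b := by
            gcongr
            exact le_max_left _ _
    · calc dist a b ≤ L * dist (ψ a) (ψ b) := h2
        _ = (L / c) * (c * dist (ψ a) (ψ b)) := by field_simp
        _ ≤ max (c * L) (L / c) * (c * dist (ψ a) (ψ b)) := by
            gcongr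
            exact le_max_right _ _
  · intro z hz
    have h1 : c⁻¹ • z + ψ x0 ∈ ball (ψ x0) r := by
      rw [mem_ball, dist_eq_norm, add_sub_cancel_right, norm_smul, Real.norm_of_nonneg
        (inv_nonneg.2 hc0.le)]
      rw [mem_closedBall, dist_zero_right] at hz
      have h2 : c⁻¹ * ‖z‖ ≤ c⁻¹ * 4 := by gcongr
      have h3 : c⁻¹ * 4 < r := by
        rw [hc, inv_div]
        linarith
      linarith
    obtain ⟨x, hx, hxz⟩ := hball h1
    refine ⟨x, hx, ?_⟩
    simp only at hxz ⊢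
    rw [hxz, add_sub_cancel_right, smul_smul, mul_inv_cancel₀ hc0.ne', one_smul]

theorem start {n : ℕ} {X : Type} [MetricSpace X] {R : Set X} (hR : IsOpen R) (H : Type) [Group H]
    [TopologicalSpace H] [IsTopologicalGroup H] [CompactSpace H] [T2Space H]
    [TotallyDisconnectedSpace H] [MulAction H X] [ContinuousSMul H X] {x0 : X} (hx0R : x0 ∈ R)
    (hx0 : x0 ∈ Reg n X) :
    ∃ (U : Set X) (ψ : X → E n) (L : ℝ) (H0 : Subgroup H), BiLip n U ψ L ∧ U ⊆ R ∧ x0 ∈ U ∧
      ψ x0 = 0 ∧ closedBall 0 4 ⊆ ψ '' U ∧ IsOpen (H0 : Set H) ∧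
      ∀ h ∈ H0, ∀ x ∈ U, ψ x ∈ closedBall 0 4 → h • x ∈ U ∧ dist (ψ (h • x)) (ψ x) ≤ 1 / 4 := by
  obtain ⟨U, ψ, L, hB, hUR, hx0U, hψ0, hcb⟩ := scaled_chart hR hx0R hx0
  obtain ⟨hU, hψU, hL⟩ := hB
  -- continuity of the chart
  have hψc : ∀ x ∈ U, ContinuousAt ψ x := by
    intro x hx
    have h1 : LipschitzOnWith L.toNNReal ψ U := by
      apply LipschitzOnWith.of_dist_le_mul
      intro a ha b hb
      refine (hL a ha b hb).1.trans ?_
      gcongr
      exact Real.le_coe_toNNReal L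
    exact h1.continuousOn.continuousAt (hU.mem_nhds hx)
  -- compactness
  choose g hgU hg using fun y : closedBall (0 : E n) 4 => hcb y.2
  have hgc : Continuous g := by
    have h1 : LipschitzWith L.toNNReal g := by
      apply LipschitzWith.of_dist_le_mul
      intro y z
      have h2 := (hL (g y) (hgU y) (g z) (hgU z)).2
      rw [hg, hg] at h2
      refine h2.trans ?_
      have h3 := Real.le_coe_toNNReal L
      have h4 : dist (y : E n) z = dist y z := rfl
      rw [h4]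
      gcongr
    exact h1.continuous
  set C : Set X := {x | x ∈ U ∧ ψ x ∈ closedBall 0 4} with hC
  have hCc : IsCompact C := by
    have h1 : C = Set.range g := by
      ext x
      constructor
      · rintro ⟨hx, hx4⟩
        refine ⟨⟨ψ x, hx4⟩, ?_⟩
        have h2 := (hL (g ⟨ψ x, hx4⟩) (hgU _) x hx).2
        rw [hg, dist_self, mul_zero] at h2
        exact dist_le_zero.1 h2
      · rintro ⟨y, rfl⟩
        refine ⟨hgU y, ?_⟩
        rw [hg]
        exact y.2
    have : CompactSpace (closedBall (0 : E n) 4) :=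
      isCompact_iff_compactSpace.1 (isCompact_closedBall 0 4)
    rw [h1]
    exact isCompact_range hgc
  have key : ∀ᶠ h : H in 𝓝 1, ∀ x ∈ C, h • x ∈ U ∧ dist (ψ (h • x)) (ψ x) ≤ 1 / 4 := by
    apply hCc.eventually_forall_of_forall_eventually
    rintro x ⟨hx, -⟩
    have h1 : ContinuousAt (fun z : H × X => z.1 • z.2) (1, x) :=
      (continuous_fst.smul continuous_snd).continuousAt
    have h2 : ContinuousAt ψ ((1 : H) • x) := by
      rw [one_smul]
      exact hψc x hx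
    have h3 : ContinuousAt (fun z : H × X => ψ (z.1 • z.2)) (1, x) :=
      ContinuousAt.comp (f := fun z : H × X => z.1 • z.2) (x := ((1 : H), x)) h2 h1
    have h4 : ContinuousAt (fun z : H × X => ψ z.2) (1, x) :=
      ContinuousAt.comp (f := fun z : H × X => z.2) (x := ((1 : H), x)) (hψc x hx)
        continuousAt_snd
    have h5 : Tendsto (fun z : H × X => dist (ψ (z.1 • z.2)) (ψ z.2)) (𝓝 (1, x)) (𝓝 0) := by
      have h6 : Tendsto (fun z : H × X => dist (ψ (z.1 • z.2)) (ψ z.2)) (𝓝 (1, x))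
        (𝓝 (dist (ψ ((1 : H) • x)) (ψ x))) := h3.dist h4
      have h7 : dist (ψ ((1 : H) • x)) (ψ x) = 0 := by rw [one_smul, dist_self]
      rwa [h7] at h6
    have h8 : ∀ᶠ z : H × X in 𝓝 (1, x), z.1 • z.2 ∈ U := by
      apply h1
      apply hU.mem_nhds
      show (1 : H) • x ∈ U
      rwa [one_smul]
    filter_upwards [h8, h5.eventually (gt_mem_nhds (by norm_num : (0 : ℝ) < 1 / 4))] with z hz1 hz2
    exact ⟨hz1, hz2.le⟩
  obtain ⟨V, hV, hVo, hV1⟩ := _root_.eventually_nhds_iff.1 key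
  obtain ⟨N, hN⟩ := ProfiniteGrp.exist_openNormalSubgroup_sub_open_nhds_of_one hVo hV1
  refine ⟨U, ψ, L, N.toSubgroup, ⟨hU, hψU, hL⟩, hUR, hx0U, hψ0, hcb, N.isOpen, ?_⟩
  intro h hh x hx hx4
  exact hV h (hN hh) x ⟨hx, hx4⟩

end Pool.Agent.Q31.HS
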