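import Pool.Agent.Q31.HS.Main

/-!
# Hilbert-Smith with a pointwise modulus: one modulus for all Hoelder exponents above `1 - 1/n`
-/

set_option autoImplicit false

open MeasureTheory Set Metric Filter Topology

noncomputable section

namespace Pool.Agent.Q31.HS

open Pool.Agent.Y485.HS

/-- the modulus `r^(1-1/n) / (1 - log r)` for `0 < r < 1` -/
def lw (n : ℕ) (r : ℝ) : ℝ :=
  if r ≤ 0 then 0 else if 1 ≤ r then 1 else r ^ (1 - 1 / (n : ℝ)) / (1 - Real.log r)

theorem lw_of_mem {n : ℕ} {r : ℝ} (h0 : 0 < r) (h1 : r < 1) :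
    lw n r = r ^ (1 - 1 / (n : ℝ)) / (1 - Real.log r) := by
  rw [lw, if_neg (not_le.2 h0), if_neg (not_le.2 h1)]

theorem beta_nonneg {n : ℕ} (hn : 1 ≤ n) : 0 ≤ 1 - 1 / (n : ℝ) := by
  have h1 : (1 : ℝ) ≤ n := by exact_mod_cast hn
  have h2 : 1 / (n : ℝ) ≤ 1 := by
    rw [div_le_one (by linarith)]
    exact h1
  linarith

theorem lw_mod {n : ℕ} (hn : 1 ≤ n) : Mod n (lw n) := by
  have hb := beta_nonneg hn
  have hn0 : (0 : ℝ) < n := by exact_mod_cast hn
  have hnn : ∀ r, 0 ≤ lw n r := by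
    intro r
    unfold lw
    split_ifs with h1 h2
    · exact le_rfl
    · exact zero_le_one
    · push Not at h1 h2
      have := Real.log_neg h1 h2
      have h3 : 0 < 1 - Real.log r := by linarith
      positivity
  have hle : ∀ r, lw n r ≤ 1 := by
    intro r
    by_cases h1 : r ≤ 0
    · rw [lw, if_pos h1]; exact zero_le_one
    · by_cases h2 : 1 ≤ r
      · rw [lw, if_neg h1, if_pos h2]
      · push Not at h1 h2
        rw [lw_of_mem h1 h2]
        have h4 := Real.log_neg h1 h2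
        rw [div_le_one (by linarith)]
        have := Real.rpow_le_one h1.le h2.le hb
        linarith
  refine ⟨fun r _ => hnn r, ?_, ?_⟩
  · intro r s hr hrs
    rcases hr.eq_or_lt with h0 | h0
    · rw [← h0, show lw n 0 = 0 by rw [lw, if_pos le_rfl]]
      exact hnn s
    by_cases hs1 : 1 ≤ s
    · have : lw n s = 1 := by
        rw [lw, if_neg (not_le.2 (by linarith)), if_pos hs1]
      rw [this]
      exact hle r
    · push Not at hs1
      have hr1 : r < 1 := by linarith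
      have hs0 : 0 < s := by linarith
      rw [lw_of_mem h0 hr1, lw_of_mem hs0 hs1]
      have h1 := Real.log_neg hs0 hs1
      have h2 : Real.log r ≤ Real.log s := Real.log_le_log h0 hrs
      exact div_le_div₀ (by positivity) (Real.rpow_le_rpow h0.le hrs hb) (by linarith)
        (by linarith)
  · intro ε hε
    have hlim : Tendsto (fun r : ℝ => 1 - Real.log r) (𝓝[>] 0) atTop := by
      have h1 := Real.tendsto_log_nhdsGT_zero
      have h2 : Tendsto (fun r : ℝ => -Real.log r) (𝓝[>] 0) atTop := tendsto_neg_atBot_atTop.comp h1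
      have h3 := tendsto_atTop_add_const_left (𝓝[>] (0 : ℝ)) 1 h2
      refine h3.congr fun r => ?_
      ring
    have hev := (hlim.eventually_ge_atTop (max 1 (1 / ε))).and
      (Ioo_mem_nhdsGT (show (0 : ℝ) < min ε 1 from lt_min hε one_pos))
    obtain ⟨r, h1, h2⟩ := hev.exists
    have hr0 : 0 < r := h2.1
    have hr1 : r < 1 := h2.2.trans_le (min_le_right _ _)
    refine ⟨r, hr0, h2.2.trans_le (min_le_left _ _), ?_⟩
    rw [lw_of_mem hr0 hr1, div_pow]
    have h3 : (r ^ (1 - 1 / (n : ℝ))) ^ n * r = r ^ n := by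
      rw [← Real.rpow_natCast (r ^ (1 - 1 / (n : ℝ))) n, ← Real.rpow_mul hr0.le]
      nth_rw 2 [← Real.rpow_one r]
      rw [← Real.rpow_add hr0, ← Real.rpow_natCast r n]
      congr 1
      field_simp
      ring
    have h4 : (1 : ℝ) ≤ 1 - Real.log r := (le_max_left _ _).trans h1
    have h5 : 1 / ε ≤ 1 - Real.log r := (le_max_right _ _).trans h1
    have h6 : 1 - Real.log r ≤ (1 - Real.log r) ^ n := le_self_pow₀ h4 (by omega)
    have h7 : 1 / (1 - Real.log r) ^ n ≤ ε := by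
      rw [div_le_iff₀ (by positivity)]
      rw [div_le_iff₀ hε] at h5
      nlinarith
    calc (r ^ (1 - 1 / (n : ℝ))) ^ n / (1 - Real.log r) ^ n * r
        = (1 / (1 - Real.log r) ^ n) * ((r ^ (1 - 1 / (n : ℝ))) ^ n * r) := by ring
      _ = (1 / (1 - Real.log r) ^ n) * r ^ n := by rw [h3]
      _ ≤ ε * r ^ n := mul_le_mul_of_nonneg_right h7 (by positivity)

/-- powers with a larger exponent are dominated by the modulus -/
theorem rpow_le_lw {n : ℕ} (hn : 1 ≤ n) {α : ℝ} (hα : 1 - 1 / (n : ℝ) < α) :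
    ∃ δ : ℝ, 0 < δ ∧ ∀ r : ℝ, 0 < r → r < δ → r ^ α ≤ lw n r := by
  have hb := beta_nonneg hn
  set β : ℝ := 1 - 1 / (n : ℝ) with hβ
  set c : ℝ := α - β with hc
  have hc0 : 0 < c := by rw [hc]; linarith
  have hlim : Tendsto (fun r : ℝ => r ^ c * (1 - Real.log r)) (𝓝[>] 0) (𝓝 0) := by
    have h1 : Tendsto (fun r : ℝ => Real.log r * r ^ c) (𝓝[>] 0) (𝓝 0) :=
      tendsto_log_mul_rpow_nhdsGT_zero hc0
    have h2 : Tendsto (fun r : ℝ => r ^ c) (𝓝[>] 0) (𝓝 0) := by
      have h3 : ContinuousAt (fun r : ℝ => r ^ c) 0 :=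
        Real.continuousAt_rpow_const 0 c (Or.inr hc0.le)
      have h4 : Tendsto (fun r : ℝ => r ^ c) (𝓝 0) (𝓝 ((0 : ℝ) ^ c)) := h3
      rw [Real.zero_rpow hc0.ne'] at h4
      exact h4.mono_left nhdsWithin_le_nhds
    have h5 := h2.sub h1
    rw [sub_zero] at h5
    refine h5.congr fun r => ?_
    ring
  have hev : ∀ᶠ r : ℝ in 𝓝[>] 0, r ^ c * (1 - Real.log r) < 1 :=
    hlim.eventually_lt_const one_pos
  obtain ⟨δ, hδ, hs⟩ := mem_nhdsGT_iff_exists_Ioo_subset.1 hev
  refine ⟨min δ 1, lt_min hδ one_pos, fun r hr0 hr => ?_⟩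
  have hr1 : r < 1 := hr.trans_le (min_le_right _ _)
  have h1 : r ^ c * (1 - Real.log r) < 1 := hs ⟨hr0, hr.trans_le (min_le_left _ _)⟩
  have h2 := Real.log_neg hr0 hr1
  rw [lw_of_mem hr0 hr1, le_div_iff₀ (by linarith)]
  have h3 : r ^ α = r ^ β * r ^ c := by
    rw [← Real.rpow_add hr0]
    congr 1
    rw [hc]
    ring
  rw [h3, mul_assoc]
  have h4 : 0 ≤ r ^ β := by positivity
  calc r ^ β * (r ^ c * (1 - Real.log r)) ≤ r ^ β * 1 := mul_le_mul_of_nonneg_left h1.le h4
    _ = r ^ (1 - 1 / (n : ℝ)) := by rw [mul_one]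

/-- the map `f` is Hoelder at the point `x` with an exponent above `1 - 1/n` -/
def HolderAt (n : ℕ) {X : Type} [MetricSpace X] (f : X → X) (x : X) : Prop :=
  ∃ α N δ : ℝ, 1 - 1 / (n : ℝ) < α ∧ 0 < δ ∧ ∀ y, dist y x < δ →
    dist (f y) (f x) ≤ N * dist y x ^ α

theorem pwx_of_holder {n : ℕ} (hn : 1 ≤ n) {X : Type} [MetricSpace X] {f : X → X} {x : X}
    (h : HolderAt n f x) : PWX (lw n) f x := by
  obtain ⟨α, N, δ, hα, hδ, hN⟩ := h
  obtain ⟨δ', hδ', h1⟩ := rpow_le_lw hn hα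
  obtain ⟨M, hM⟩ := exists_nat_ge (max |N| 1)
  have hM1 : |N| ≤ M := (le_max_left _ _).trans hM
  have hM2 : (1 : ℝ) ≤ M := (le_max_right _ _).trans hM
  have hmod := lw_mod hn
  refine ⟨M, min δ δ', lt_min hδ hδ', fun y hy => ?_⟩
  rcases (dist_nonneg (x := y) (y := x)).eq_or_lt with h0 | h0
  · have h2 : y = x := dist_le_zero.1 h0.symm.le
    rw [h2, dist_self]
    exact mul_nonneg (Nat.cast_nonneg _) (hmod.nonneg _ (by positivity))
  · have h2 := hN y (hy.trans_le (min_le_left _ _))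
    have h3 := h1 _ h0 (hy.trans_le (min_le_right _ _))
    have h4 : dist y x ≤ M * dist y x := by nlinarith
    calc dist (f y) (f x) ≤ N * dist y x ^ α := h2
      _ ≤ |N| * dist y x ^ α := mul_le_mul_of_nonneg_right (le_abs_self N) (by positivity)
      _ ≤ M * dist y x ^ α := mul_le_mul_of_nonneg_right hM1 (by positivity)
      _ ≤ M * lw n (dist y x) := mul_le_mul_of_nonneg_left h3 (Nat.cast_nonneg _)
      _ ≤ M * lw n (M * dist y x) :=
          mul_le_mul_of_nonneg_left (hmod.mono _ _ h0.le h4) (Nat.cast_nonneg _)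

end Pool.Agent.Q31.HS
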