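import Pool.Agent.Q31.HS.ELocal
import Pool.Agent.Q31.HS.Holder
import Pool.Agent.Y662.SP.SOB
import Pool.Agent.Y566.SP.Face
import Pool.Agent.Y909.SP.MOR

/-!
# Hilbert-Smith with local energy conditions: Sobolev maps

(helper31) Local version of `Pool.Agent.Y662.SP.SOB` (helper662).
-/

set_option autoImplicit false

open MeasureTheory Set Metric Filter Topology
open scoped ENNReal NNReal

noncomputable section

namespace Pool.Agent.Q31.HS

open Pool.Agent.Y485.HS Pool.Agent.Y489.SP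

theorem Gau.add {η η' : ℝ → ℝ} (hη : Gau η) (hη' : Gau η') : Gau (fun r => η r + η' r) := by
  refine ⟨fun r hr => add_nonneg (hη.nonneg r hr) (hη'.nonneg r hr),
    fun r s hr hs => add_le_add (hη.mono r s hr hs) (hη'.mono r s hr hs), fun ε hε => ?_⟩
  obtain ⟨r, hr0, hr1, hr2⟩ := hη.small (ε / 2) (by positivity)
  obtain ⟨s, hs0, hs1, hs2⟩ := hη'.small (ε / 2) (by positivity)
  refine ⟨min r s, lt_min hr0 hs0, ?_, ?_⟩
  · have := min_le_left r s
    linarith
  · have h1 := hη.mono (min r s) r (lt_min hr0 hs0).le (min_le_left _ _)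
    have h2 := hη'.mono (min r s) s (lt_min hr0 hs0).le (min_le_right _ _)
    linarith

/-- the gauge `1 / (1 - log r)` -/
theorem gau_lw : Gau (lw 1) := by
  have h := lw_mod (n := 1) le_rfl
  refine ⟨h.nonneg, h.mono, fun ε hε => ?_⟩
  obtain ⟨r, hr0, hr1, hr2⟩ := h.small ε hε
  refine ⟨r, hr0, hr1, ?_⟩
  rw [pow_one, pow_one] at hr2
  exact le_of_mul_le_mul_right hr2 hr0

theorem rpow_le_lw1 {α : ℝ} (hα : 0 < α) :
    ∃ δ : ℝ, 0 < δ ∧ ∀ r : ℝ, 0 < r → r < δ → r ^ α ≤ lw 1 r := by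
  refine rpow_le_lw (n := 1) le_rfl ?_
  simpa using hα

theorem EV.gauge {η η' : ℝ → ℝ} {N : ℕ} {δ : ℝ} {n : ℕ} {V : Set (E n)} {u : E n → E n}
    (h : EV η N δ V u) (hle : ∀ r, 0 ≤ r → η r ≤ η' r) : EV η' N δ V u := by
  intro r hr hr1 A hA hAs
  exact (h r hr hr1 A hA hAs).trans
    (mul_le_mul_of_nonneg_left (hle _ (by positivity)) (Nat.cast_nonneg N))

theorem LE.gauge {η η' : ℝ → ℝ} {n : ℕ} {x : E n} {u : E n → E n}
    (h : LE η u x) (hle : ∀ r, 0 ≤ r → η r ≤ η' r) : LE η' u x := by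
  obtain ⟨N, δ, hδ, hB, h⟩ := h
  exact ⟨N, δ, hδ, hB, h.gauge hle⟩

/-- reduction to exponents `≤ n` -/
theorem reduce' {n : ℕ} (hn : 2 ≤ n) {q : ℝ} (hq : (n : ℝ) - 1 < q) {g : E n → ℝ≥0∞}
    {V : Set (E n)} (hV : volume V < ∞) (hg : ∫⁻ x in V, g x ^ q < ∞) :
    ∃ q' : ℝ, (n : ℝ) - 1 < q' ∧ q' ≤ n ∧ ∫⁻ x in V, g x ^ q' < ∞ := by
  rcases le_or_gt q n with h | h
  · exact ⟨q, hq, h, hg⟩
  · refine ⟨n, by linarith, le_rfl, ?_⟩
    have hle : ∫⁻ x in V, g x ^ (n : ℝ) ≤ ∫⁻ x in V, (1 + g x ^ q) := by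
      apply lintegral_mono
      intro x
      rcases le_or_gt (g x) 1 with h1 | h1
      · calc g x ^ (n : ℝ) ≤ 1 ^ (n : ℝ) := ENNReal.rpow_le_rpow h1 (by positivity)
          _ = 1 := ENNReal.one_rpow _
          _ ≤ _ := le_self_add
      · exact (ENNReal.rpow_le_rpow_of_exponent_le h1.le h.le).trans le_add_self
    refine lt_of_le_of_lt hle ?_
    rw [lintegral_add_left measurable_const, lintegral_const, one_mul, Measure.restrict_apply_univ]
    exact ENNReal.add_lt_top.2 ⟨hV, hg⟩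

/-- bounded overlap -/
theorem overlap' {n : ℕ} {F : E n → ℝ≥0∞} (hF : Measurable F) {V : Set (E n)}
    (hV : MeasurableSet V) (A : Finset (E n)) {ρ : ℝ} {M : ℝ≥0∞}
    (hsub : ∀ a ∈ A, closedBall a ρ ⊆ V)
    (hM : ∀ z : E n, ∀ B : Finset (E n), B ⊆ A → (∀ a ∈ B, z ∈ closedBall a ρ) →
      (B.card : ℝ≥0∞) ≤ M) :
    ∑ a ∈ A, ∫⁻ z in closedBall a ρ, F z ≤ M * ∫⁻ z in V, F z := by
  classical
  have e1 : ∀ a ∈ A, ∫⁻ z in closedBall a ρ, F z = ∫⁻ z, (closedBall a ρ).indicator F z :=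
    fun a _ => (lintegral_indicator measurableSet_closedBall F).symm
  rw [Finset.sum_congr rfl e1, ← lintegral_finsetSum _
    (fun a _ => hF.indicator measurableSet_closedBall), ← lintegral_indicator hV,
    ← lintegral_const_mul M (hF.indicator hV)]
  apply lintegral_mono
  intro z
  simp only
  have e2 : ∑ a ∈ A, (closedBall a ρ).indicator F z =
      ((A.filter fun a => z ∈ closedBall a ρ).card : ℝ≥0∞) * F z := by
    rw [Finset.card_filter, Nat.cast_sum, Finset.sum_mul]
    refine Finset.sum_congr rfl (fun a _ => ?_)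
    by_cases h : z ∈ closedBall a ρ
    · rw [indicator_of_mem h, if_pos h]; simp
    · rw [indicator_of_notMem h, if_neg h]; simp
  rw [e2]
  by_cases hz : z ∈ V
  · rw [indicator_of_mem hz]
    gcongr
    exact hM z _ (Finset.filter_subset _ _) (fun a ha => (Finset.mem_filter.1 ha).2)
  · have : (A.filter fun a => z ∈ closedBall a ρ) = ∅ := by
      rw [Finset.filter_eq_empty_iff]
      intro a ha h
      exact hz (hsub a ha h)
    rw [this]
    simp

/-- a homeomorphism which is Sobolev near `v` satisfies the local condition with the gauge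
`1 / (1 - log r)` -/
theorem LE_of_sob {n : ℕ} (hn : 2 ≤ n) {H : Type} [Group H] [TopologicalSpace H]
    {T : H → E n → E n} (hT : LocAct n H T) (h : H) {v : E n} (hv : v ∈ ball (0 : E n) 3)
    {q0 : ℝ} (hq0 : (n : ℝ) - 1 < q0) {g : E n → ℝ≥0∞} (hgm : Measurable g) {δ : ℝ}
    (hδ : 0 < δ) (hHaj : Haj (closedBall v δ) (T h) g)
    (hgq0 : ∫⁻ x in closedBall v δ, g x ^ q0 < ∞) : LE (lw 1) (T h) v := by
  classical
  have hVm : MeasurableSet (closedBall v δ) := measurableSet_closedBall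
  obtain ⟨q, hq, hqn, hgq⟩ := reduce' hn hq0 measure_closedBall_lt_top hgq0
  obtain ⟨C, hC⟩ := Pool.Agent.Y566.SP.t_FACE Pool.Agent.Y909.SP.t_MOR n hn q hq
  have hv3 : ‖v‖ < 3 := by simpa using hv
  have hn1 : (2 : ℝ) ≤ n := by exact_mod_cast hn
  have hn0 : (0 : ℝ) < n := by linarith
  have hq0' : 0 < q := by linarith
  -- the gradient, infinite off the ball
  obtain ⟨g', hg'⟩ : ∃ g' : E n → ℝ≥0∞, g' = fun z => g z + (closedBall v δ)ᶜ.indicator
      (fun _ => ∞) z := ⟨_, rfl⟩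
  have hg'm : Measurable g' := by
    rw [hg']
    exact hgm.add (measurable_const.indicator hVm.compl)
  have hg'in : ∀ z ∈ closedBall v δ, g' z = g z := by
    intro z hz
    rw [hg']
    simp only
    rw [indicator_of_notMem (notMem_compl_iff.2 hz), add_zero]
  have hg'out : ∀ z, z ∉ closedBall v δ → g' z = ∞ := by
    intro z hz
    rw [hg']
    simp only
    rw [indicator_of_mem (mem_compl hz), add_top]
  have hHaj' : Haj (BB n) (T h) g' := by
    intro x hx y hy
    by_cases hxy : x = y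
    · rw [hxy, edist_self]
      exact zero_le
    have hed : edist x y ≠ 0 := by
      rw [Ne, edist_eq_zero]
      exact hxy
    by_cases hx' : x ∈ closedBall v δ
    · by_cases hy' : y ∈ closedBall v δ
      · rw [hg'in x hx', hg'in y hy']
        exact hHaj x hx' y hy'
      · rw [hg'out y hy', add_top, ENNReal.mul_top hed]
        exact le_top
    · rw [hg'out x hx', top_add, ENNReal.mul_top hed]
      exact le_top
  set G : ℝ := (∫⁻ x in closedBall v δ, g x ^ q).toReal with hG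
  have hG0 : 0 ≤ G := ENNReal.toReal_nonneg
  have hGe : ∫⁻ x in closedBall v δ, g x ^ q = ENNReal.ofReal G :=
    (ENNReal.ofReal_toReal hgq.ne).symm
  set M : ℝ := (4 * n + 1) ^ n with hM
  have hM0 : 0 ≤ M := by positivity
  set C1 : ℝ := 9 ^ ((n : ℝ) - q) * (C * M * G) with hC1
  have hC10 : 0 ≤ C1 := by positivity
  obtain ⟨δl, hδl, hlw⟩ := rpow_le_lw1 (α := q - n + 1) (by linarith)
  obtain ⟨N, hN⟩ := exists_nat_ge (max C1 1)
  have hN1 : C1 ≤ N := (le_max_left _ _).trans hN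
  have hN2 : (1 : ℝ) ≤ N := (le_max_right _ _).trans hN
  -- the radius
  obtain ⟨δ', hδ', d1, d2, d3, d4⟩ : ∃ δ' : ℝ, 0 < δ' ∧ δ' ≤ δ / (4 * n) ∧ δ' ≤ 1 / (8 * n) ∧
      δ' ≤ 3 - ‖v‖ ∧ δ' < δl := by
    refine ⟨min (min (δ / (4 * n)) (1 / (8 * n))) (min (3 - ‖v‖) (δl / 2)), ?_, ?_, ?_, ?_, ?_⟩
    · exact lt_min (lt_min (by positivity) (by positivity)) (lt_min (by linarith) (by linarith))
    · exact (min_le_left _ _).trans (min_le_left _ _)
    · exact (min_le_left _ _).trans (min_le_right _ _)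
    · exact (min_le_right _ _).trans (min_le_left _ _)
    · exact ((min_le_right _ _).trans (min_le_right _ _)).trans_lt (by linarith)
  have hnorm : ∀ a ∈ closedBall v δ', ‖a‖ ≤ 3 := by
    intro a ha
    rw [mem_closedBall, dist_eq_norm] at ha
    calc ‖a‖ = ‖(a - v) + v‖ := by rw [sub_add_cancel]
      _ ≤ ‖a - v‖ + ‖v‖ := norm_add_le _ _
      _ ≤ 3 := by linarith
  refine ⟨N, δ', hδ', fun a ha => mem_BB.2 (by linarith [hnorm a ha]), ?_⟩
  intro r hr hr1 A hA hsep
  have hrr : r ≤ 1 / (8 * n) := hr1.trans d2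
  have hrle1 : r ≤ 1 := by
    refine hrr.trans ?_
    rw [div_le_one (by positivity)]
    linarith
  have hA3 : ∀ a ∈ A, a ∈ closedBall (0 : E n) 3 := fun a ha =>
    mem_closedBall_zero_iff.2 (hnorm a (hA a ha))
  -- images are bounded
  have himg : ∀ x : E n, ‖x‖ ≤ 4 → T h x ∈ closedBall (0 : E n) (17 / 4) := by
    intro x hx
    rw [mem_closedBall, dist_zero_right]
    have := norm_T_le hT h (mem_BB.2 hx)
    linarith
  have hin : ∀ a ∈ A, ∀ x ∈ closedBall a r, ‖x‖ ≤ 4 := by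
    intro a ha x hx
    have h1 := hA3 a ha
    rw [mem_closedBall, dist_zero_right] at h1
    rw [mem_closedBall, dist_eq_norm] at hx
    calc ‖x‖ = ‖(x - a) + a‖ := by rw [sub_add_cancel]
      _ ≤ ‖x - a‖ + ‖a‖ := norm_add_le _ _
      _ ≤ 4 := by linarith
  have hsubi : ∀ a ∈ A, T h '' closedBall a r ⊆ closedBall (0 : E n) (17 / 4) := by
    rintro a ha _ ⟨x, hx, rfl⟩
    exact himg x (hin a ha x hx)
  have hmono : ∀ a ∈ A, diam (T h '' (closedBall a r ∩ closedBall v δ')) ≤
      diam (T h '' closedBall a r) := fun a ha =>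
    diam_mono (image_mono inter_subset_left) (isBounded_closedBall.subset (hsubi a ha))
  have hD9 : ∀ a ∈ A, diam (T h '' closedBall a r) ≤ 9 := by
    intro a ha
    have := diam_le_of_subset_closedBall (by norm_num) (hsubi a ha)
    linarith
  have hsubV : ∀ a ∈ A, closedBall a (2 * n * r) ⊆ closedBall v δ := by
    intro a ha x hx
    have h1 := hA a ha
    rw [mem_closedBall] at h1 hx ⊢
    have h2 : 2 * n * r ≤ δ / 2 := by
      calc 2 * n * r ≤ 2 * n * (δ / (4 * n)) := by
            have := hr1.trans d1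
            gcongr
        _ = δ / 2 := by field_simp; norm_num
    have h3 : δ' ≤ δ / 2 := by
      refine d1.trans ?_
      rw [div_le_div_iff₀ (by positivity) (by norm_num)]
      nlinarith
    linarith [dist_triangle x a v]
  have hMz : ∀ z : E n, ∀ B : Finset (E n), B ⊆ A → (∀ a ∈ B, z ∈ closedBall a (2 * n * r)) →
      (B.card : ℝ≥0∞) ≤ ENNReal.ofReal M := by
    intro z B hBA hB
    rw [← ENNReal.ofReal_natCast]
    apply ENNReal.ofReal_le_ofReal
    have := Pool.Agent.Y662.SP.SOB.pack z hr (R := 2 * n * r) (by positivity) B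
      (fun a ha => by
        have := hB a ha
        rw [mem_closedBall] at this
        rw [dist_comm]; exact this)
      (fun a ha b hb hab => hsep a (hBA ha) b (hBA hb) hab)
    refine this.trans (le_of_eq ?_)
    rw [hM]
    congr 1
    field_simp
    ring
  have hov := overlap' (F := fun z => g z ^ q) (hgm.pow_const q) hVm A hsubV hMz
  have hsum : ∑ a ∈ A, ENNReal.ofReal (diam (T h '' closedBall a r)) ^ q ≤
      C * ENNReal.ofReal (r ^ (q - n)) * (ENNReal.ofReal M * ENNReal.ofReal G) := by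
    calc ∑ a ∈ A, ENNReal.ofReal (diam (T h '' closedBall a r)) ^ q
        ≤ ∑ a ∈ A, C * ENNReal.ofReal (r ^ (q - n)) *
          ∫⁻ z in closedBall a (2 * n * r), g z ^ q := by
          refine Finset.sum_le_sum (fun a ha => ?_)
          refine (hC H T hT h g' hg'm hHaj' a (hA3 a ha) r hr hrr).trans (le_of_eq ?_)
          congr 1
          refine setLIntegral_congr_fun measurableSet_closedBall ?_
          intro z hz
          show g' z ^ q = g z ^ q
          rw [hg'in z (hsubV a ha hz)]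
      _ = C * ENNReal.ofReal (r ^ (q - n)) *
          ∑ a ∈ A, ∫⁻ z in closedBall a (2 * n * r), g z ^ q := by rw [Finset.mul_sum]
      _ ≤ C * ENNReal.ofReal (r ^ (q - n)) * (ENNReal.ofReal M * ENNReal.ofReal G) := by
          rw [← hGe]
          gcongr
  have hrn : 0 ≤ r ^ (q - n) := Real.rpow_nonneg hr.le _
  have hsumR : ∑ a ∈ A, diam (T h '' closedBall a r) ^ q ≤ C * r ^ (q - n) * (M * G) := by
    have e1 : ∑ a ∈ A, ENNReal.ofReal (diam (T h '' closedBall a r)) ^ q =
        ENNReal.ofReal (∑ a ∈ A, diam (T h '' closedBall a r) ^ q) := by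
      rw [ENNReal.ofReal_sum_of_nonneg (fun a _ => Real.rpow_nonneg diam_nonneg _)]
      exact Finset.sum_congr rfl
        (fun a _ => ENNReal.ofReal_rpow_of_nonneg diam_nonneg hq0'.le)
    have e2 : (C : ℝ≥0∞) * ENNReal.ofReal (r ^ (q - n)) *
        (ENNReal.ofReal M * ENNReal.ofReal G) =
        ENNReal.ofReal (C * r ^ (q - n) * (M * G)) := by
      rw [ENNReal.ofReal_mul (by positivity), ENNReal.ofReal_mul (by positivity),
        ENNReal.ofReal_mul hM0, ENNReal.ofReal_coe_nnreal]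
    rw [e1, e2] at hsum
    exact (ENNReal.ofReal_le_ofReal_iff (by positivity)).1 hsum
  have hterm : ∀ a ∈ A, diam (T h '' (closedBall a r ∩ closedBall v δ')) ^ n ≤
      9 ^ ((n : ℝ) - q) * diam (T h '' closedBall a r) ^ q := by
    intro a ha
    have h1 : diam (T h '' (closedBall a r ∩ closedBall v δ')) ^ n ≤
        diam (T h '' closedBall a r) ^ n := pow_le_pow_left₀ diam_nonneg (hmono a ha) n
    refine h1.trans ?_
    rcases (diam_nonneg (s := T h '' closedBall a r)).eq_or_lt with h0 | h0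
    · rw [← h0, Real.zero_rpow hq0'.ne', mul_zero, zero_pow (by omega)]
    · have e : diam (T h '' closedBall a r) ^ n =
          diam (T h '' closedBall a r) ^ ((n : ℝ) - q) * diam (T h '' closedBall a r) ^ q := by
        rw [← Real.rpow_add h0, sub_add_cancel, Real.rpow_natCast]
      have h3 : diam (T h '' closedBall a r) ^ ((n : ℝ) - q) ≤ 9 ^ ((n : ℝ) - q) :=
        Real.rpow_le_rpow h0.le (hD9 a ha) (by linarith)
      rw [e]
      exact mul_le_mul_of_nonneg_right h3 (Real.rpow_nonneg h0.le _)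
  have hr2 : r * r ^ (q - n) = r ^ (q - n + 1) := by
    rw [Real.rpow_add hr (q - n) 1, Real.rpow_one, mul_comm]
  have hrl : r ^ (q - n + 1) ≤ lw 1 (N * r) := by
    refine (hlw r hr (by linarith)).trans ?_
    exact gau_lw.mono _ _ hr.le (by nlinarith)
  calc r * ∑ a ∈ A, diam (T h '' (closedBall a r ∩ closedBall v δ')) ^ n
      ≤ r * ∑ a ∈ A, 9 ^ ((n : ℝ) - q) * diam (T h '' closedBall a r) ^ q :=
        mul_le_mul_of_nonneg_left (Finset.sum_le_sum hterm) hr.le
    _ = r * (9 ^ ((n : ℝ) - q) * ∑ a ∈ A, diam (T h '' closedBall a r) ^ q) := by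
        rw [← Finset.mul_sum]
    _ ≤ r * (9 ^ ((n : ℝ) - q) * (C * r ^ (q - n) * (M * G))) := by gcongr
    _ = C1 * (r * r ^ (q - n)) := by rw [hC1]; ring
    _ = C1 * r ^ (q - n + 1) := by rw [hr2]
    _ ≤ N * lw 1 (N * r) := mul_le_mul hN1 hrl (by positivity) (by positivity)

end Pool.Agent.Q31.HS
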