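import Pool.Agent.Q31.HS.Local
import Pool.Agent.Y532.SP.BAI
import Pool.Agent.Y401.SPN.Fib

/-!
# Hilbert-Smith with local energy conditions: the class

(helper31) Local version, with a general gauge, of the discrete energy of project SP (helper489);
closedness and convexity follow helper532.
-/

set_option autoImplicit false

open MeasureTheory Set Metric Filter Topology
open scoped ENNReal NNReal

noncomputable section

namespace Pool.Agent.Q31.HS

open Pool.Agent.Y485.HS Pool.Agent.Y475.HS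

/-- gauges: nonnegative, nondecreasing, and small for some arbitrarily small `r` -/
structure Gau (η : ℝ → ℝ) : Prop where
  nonneg : ∀ r, 0 ≤ r → 0 ≤ η r
  mono : ∀ r s, 0 ≤ r → r ≤ s → η r ≤ η s
  small : ∀ ε : ℝ, 0 < ε → ∃ r : ℝ, 0 < r ∧ r < ε ∧ η r ≤ ε

theorem Gau.scale {η : ℝ → ℝ} (hη : Gau η) {a b : ℝ} (h0 : 0 ≤ a) (hab : a ≤ b)
    {d : ℝ} (hd : 0 ≤ d) : a * η (a * d) ≤ b * η (b * d) := by
  have h1 : η (a * d) ≤ η (b * d) :=
    hη.mono _ _ (by positivity) (mul_le_mul_of_nonneg_right hab hd)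
  have h2 : 0 ≤ η (a * d) := hη.nonneg _ (by positivity)
  exact mul_le_mul hab h1 h2 (h0.trans hab)

/-- the discrete energy of `u` on `V` at the scales `r ≤ δ` is at most `N η(N r) / r` -/
def EV (η : ℝ → ℝ) (N : ℕ) (δ : ℝ) {n : ℕ} (V : Set (E n)) (u : E n → E n) : Prop :=
  ∀ r : ℝ, 0 < r → r ≤ δ → ∀ A : Finset (E n), (∀ a ∈ A, a ∈ V) →
    (∀ a ∈ A, ∀ b ∈ A, a ≠ b → r ≤ dist a b) →
    r * ∑ a ∈ A, Metric.diam (u '' (closedBall a r ∩ V)) ^ n ≤ N * η (N * r)

/-- the local condition at `x` -/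
def LE (η : ℝ → ℝ) {n : ℕ} (u : E n → E n) (x : E n) : Prop :=
  ∃ (N : ℕ) (δ : ℝ), 0 < δ ∧ closedBall x δ ⊆ BB n ∧ EV η N δ (closedBall x δ) u

/-- the same uniformly for a family of maps -/
def ULE (η : ℝ → ℝ) {n : ℕ} {H : Type} (S : H → E n → E n) (K : Set H) (x : E n) : Prop :=
  ∃ (N : ℕ) (δ : ℝ), 0 < δ ∧ closedBall x δ ⊆ BB n ∧
    ∀ k ∈ K, EV η N δ (closedBall x δ) (S k)

/-- the condition holds at all points of the open ball of radius three except countably many -/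
def CLE (η : ℝ → ℝ) {n : ℕ} (u : E n → E n) : Prop :=
  {x : E n | x ∈ ball (0 : E n) 3 ∧ ¬ LE η u x}.Countable

section closed

variable {n : ℕ}

theorem bdd_ext' {V : Set (E n)} (hV : V ⊆ BB n) (g : C(BB n, E n)) (s : Set (E n)) :
    Bornology.IsBounded (ext g '' (s ∩ V)) := by
  have h1 : Bornology.IsBounded (range g) := (isCompact_range g.continuous).isBounded
  refine h1.subset ?_
  rintro _ ⟨x, hx, rfl⟩
  rw [ext_of_mem g (hV hx.2)]
  exact mem_range_self _

theorem diam_lip' {V : Set (E n)} (hV : V ⊆ BB n) (s : Set (E n)) :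
    LipschitzWith 2 (fun f : C(BB n, E n) => Metric.diam (ext f '' (s ∩ V))) := by
  refine LipschitzWith.of_le_add_mul 2 fun f g => ?_
  have hd : 0 ≤ dist f g := dist_nonneg
  have h0 : 0 ≤ Metric.diam (ext g '' (s ∩ V)) := Metric.diam_nonneg
  refine Metric.diam_le_of_forall_dist_le (by positivity) ?_
  rintro _ ⟨x, hx, rfl⟩ _ ⟨y, hy, rfl⟩
  have h1 : dist (ext f x) (ext g x) ≤ dist f g := by
    rw [ext_of_mem f (hV hx.2), ext_of_mem g (hV hx.2)]
    exact ContinuousMap.dist_apply_le_dist _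
  have h2 : dist (ext g y) (ext f y) ≤ dist f g := by
    rw [dist_comm, ext_of_mem f (hV hy.2), ext_of_mem g (hV hy.2)]
    exact ContinuousMap.dist_apply_le_dist _
  have h3 : dist (ext g x) (ext g y) ≤ Metric.diam (ext g '' (s ∩ V)) :=
    Metric.dist_le_diam_of_mem (bdd_ext' hV g s) (mem_image_of_mem _ hx) (mem_image_of_mem _ hy)
  have h4 := dist_triangle4 (ext f x) (ext g x) (ext g y) (ext f y)
  have h5 : ((2 : ℝ≥0) : ℝ) = 2 := by norm_num
  rw [h5]
  linarith

theorem closed_EV (η : ℝ → ℝ) (N : ℕ) (δ : ℝ) {V : Set (E n)} (hV : V ⊆ BB n) :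
    IsClosed {f : C(BB n, E n) | EV η N δ V (ext f)} := by
  have h1 : {f : C(BB n, E n) | EV η N δ V (ext f)} =
      ⋂ (r : ℝ) (_ : 0 < r) (_ : r ≤ δ) (A : Finset (E n)) (_ : ∀ a ∈ A, a ∈ V)
        (_ : ∀ a ∈ A, ∀ b ∈ A, a ≠ b → r ≤ dist a b),
        {f : C(BB n, E n) | r * ∑ a ∈ A, Metric.diam (ext f '' (closedBall a r ∩ V)) ^ n ≤
          N * η (N * r)} := by
    ext f
    simp only [mem_iInter, mem_ofPred_eq, EV]
  rw [h1]
  refine isClosed_iInter fun r => isClosed_iInter fun _ => isClosed_iInter fun _ =>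
    isClosed_iInter fun A => isClosed_iInter fun _ => isClosed_iInter fun _ => ?_
  refine isClosed_le ?_ continuous_const
  exact continuous_const.mul
    (continuous_finsetSum _ fun a _ => ((diam_lip' hV (closedBall a r)).continuous).pow n)

theorem EV_congr {η : ℝ → ℝ} {N : ℕ} {δ : ℝ} {V : Set (E n)} {u v : E n → E n}
    (h : ∀ x ∈ V, u x = v x) (hu : EV η N δ V u) : EV η N δ V v := by
  intro r hr hr1 A hA hAs
  have h1 : ∀ a : E n, v '' (closedBall a r ∩ V) = u '' (closedBall a r ∩ V) := fun a =>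
    image_congr fun x hx => (h x hx.2).symm
  have h2 := hu r hr hr1 A hA hAs
  simp only [h1]
  exact h2

theorem diam_conv' {V : Set (E n)} (hV : V ⊆ BB n) (f g : C(BB n, E n)) (a b : ℝ) (ha : 0 ≤ a)
    (hb : 0 ≤ b) (s : Set (E n)) :
    Metric.diam (ext (a • f + b • g) '' (s ∩ V)) ≤
      a * Metric.diam (ext f '' (s ∩ V)) + b * Metric.diam (ext g '' (s ∩ V)) := by
  have h0 : 0 ≤ Metric.diam (ext g '' (s ∩ V)) := Metric.diam_nonneg
  have h0' : 0 ≤ Metric.diam (ext f '' (s ∩ V)) := Metric.diam_nonneg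
  refine Metric.diam_le_of_forall_dist_le (by positivity) ?_
  rintro _ ⟨x, hx, rfl⟩ _ ⟨y, hy, rfl⟩
  have hf : dist (ext f x) (ext f y) ≤ Metric.diam (ext f '' (s ∩ V)) :=
    Metric.dist_le_diam_of_mem (bdd_ext' hV f s) (mem_image_of_mem _ hx) (mem_image_of_mem _ hy)
  have hg : dist (ext g x) (ext g y) ≤ Metric.diam (ext g '' (s ∩ V)) :=
    Metric.dist_le_diam_of_mem (bdd_ext' hV g s) (mem_image_of_mem _ hx) (mem_image_of_mem _ hy)
  have hval : ∀ z, z ∈ s ∩ V → ext (a • f + b • g) z = a • ext f z + b • ext g z := by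
    intro z hz
    rw [ext_of_mem _ (hV hz.2), ext_of_mem _ (hV hz.2), ext_of_mem _ (hV hz.2)]
    rfl
  rw [hval x hx, hval y hy]
  refine (dist_add_add_le _ _ _ _).trans ?_
  rw [dist_smul₀, dist_smul₀, Real.norm_of_nonneg ha, Real.norm_of_nonneg hb]
  gcongr

theorem convex_EV (η : ℝ → ℝ) (N : ℕ) (δ : ℝ) {V : Set (E n)} (hV : V ⊆ BB n) :
    Convex ℝ {f : C(BB n, E n) | EV η N δ V (ext f)} := by
  intro f hf g hg a b ha hb hab
  intro r hr hr1 A hA hAs
  have h1 := hf r hr hr1 A hA hAs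
  have h2 := hg r hr hr1 A hA hAs
  calc r * ∑ c ∈ A, Metric.diam (ext (a • f + b • g) '' (closedBall c r ∩ V)) ^ n
      ≤ r * ∑ c ∈ A, (a * Metric.diam (ext f '' (closedBall c r ∩ V)) ^ n +
          b * Metric.diam (ext g '' (closedBall c r ∩ V)) ^ n) := by
        refine mul_le_mul_of_nonneg_left (Finset.sum_le_sum fun c _ => ?_) hr.le
        have h3 : Metric.diam (ext (a • f + b • g) '' (closedBall c r ∩ V)) ^ n ≤
            (a * Metric.diam (ext f '' (closedBall c r ∩ V)) +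
              b * Metric.diam (ext g '' (closedBall c r ∩ V))) ^ n :=
          pow_le_pow_left₀ Metric.diam_nonneg (diam_conv' hV f g a b ha hb _) n
        have h4 := (convexOn_pow (𝕜 := ℝ) n).2
          (show Metric.diam (ext f '' (closedBall c r ∩ V)) ∈ Ici (0 : ℝ) from
            Metric.diam_nonneg)
          (show Metric.diam (ext g '' (closedBall c r ∩ V)) ∈ Ici (0 : ℝ) from
            Metric.diam_nonneg) ha hb hab
        simp only [smul_eq_mul] at h4
        exact h3.trans h4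
    _ = a * (r * ∑ c ∈ A, Metric.diam (ext f '' (closedBall c r ∩ V)) ^ n) +
          b * (r * ∑ c ∈ A, Metric.diam (ext g '' (closedBall c r ∩ V)) ^ n) := by
        rw [Finset.sum_add_distrib, ← Finset.mul_sum, ← Finset.mul_sum]
        ring
    _ ≤ a * (N * η (N * r)) + b * (N * η (N * r)) := by
        gcongr
    _ = N * η (N * r) := by rw [← add_mul, hab, one_mul]

/-- averages -/
theorem EV_avg {η : ℝ → ℝ} {N : ℕ} {δ : ℝ} {V : Set (E n)} (hV : V ⊆ BB n) {Ω : Type}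
    [TopologicalSpace Ω] [CompactSpace Ω] [MeasurableSpace Ω] [BorelSpace Ω] (μ : Measure Ω)
    [IsProbabilityMeasure μ] (S : Ω → E n → E n)
    (hS : ContinuousOn (fun q : Ω × E n => S q.1 q.2) (univ ×ˢ BB n))
    (h : ∀ ω, EV η N δ V (S ω)) : EV η N δ V (fun x => ∫ ω, S ω x ∂μ) := by
  let Φ : C(Ω, C(BB n, E n)) := res S hS
  have hint : Integrable (fun ω => Φ ω) μ :=
    Φ.continuous.integrable_of_hasCompactSupport (HasCompactSupport.of_compactSpace _)
  have hmem : ∫ ω, Φ ω ∂μ ∈ {f : C(BB n, E n) | EV η N δ V (ext f)} := by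
    apply (convex_EV η N δ hV).integral_mem (closed_EV η N δ hV) _ hint
    refine Eventually.of_forall fun ω => ?_
    exact EV_congr (fun x hx => by rw [ext_of_mem _ (hV hx), res_apply]) (h ω)
  have heval : ∀ x : BB n, ∫ ω, S ω x.1 ∂μ = (∫ ω, Φ ω ∂μ : C(BB n, E n)) x := by
    intro x
    have := (ContinuousMap.evalCLM ℝ x : C(BB n, E n) →L[ℝ] E n).integral_comp_comm hint
    exact this
  refine EV_congr (fun x hx => ?_) hmem
  rw [ext_of_mem _ (hV hx)]
  exact (heval ⟨x, hV hx⟩).symm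

end closed

/-- smaller sets, smaller scales and larger constants -/
theorem EV.mono {η : ℝ → ℝ} (hη : Gau η) {N N' : ℕ} {δ δ' : ℝ} {n : ℕ} {V V' : Set (E n)}
    {u : E n → E n} (hb : Bornology.IsBounded (u '' V)) (h : EV η N δ V u) (hN : N ≤ N')
    (hδ : δ' ≤ δ) (hV : V' ⊆ V) : EV η N' δ' V' u := by
  intro r hr hr1 A hA hAs
  have h1 := h r hr (hr1.trans hδ) A (fun a ha => hV (hA a ha)) hAs
  have h2 : ∑ a ∈ A, Metric.diam (u '' (closedBall a r ∩ V')) ^ n ≤
      ∑ a ∈ A, Metric.diam (u '' (closedBall a r ∩ V)) ^ n := by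
    refine Finset.sum_le_sum fun a _ => pow_le_pow_left₀ diam_nonneg ?_ n
    exact diam_mono (image_mono (inter_subset_inter_right _ hV))
      (hb.subset (image_mono inter_subset_right))
  have h3 : (N : ℝ) * η (N * r) ≤ N' * η (N' * r) :=
    hη.scale (Nat.cast_nonneg N) (by exact_mod_cast hN) hr.le
  exact (mul_le_mul_of_nonneg_left h2 hr.le).trans (h1.trans h3)

/-! ### Slices -/

/-- a maximal separated subset of a compact set -/
theorem net' {n : ℕ} {V : Set (E n)} (hc : IsCompact V) {r : ℝ} (hr : 0 < r) :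
    ∃ A : Finset (E n), (∀ a ∈ A, a ∈ V) ∧ (∀ a ∈ A, ∀ b ∈ A, a ≠ b → r ≤ dist a b) ∧
    ∀ x ∈ V, ∃ a ∈ A, dist x a ≤ r := by
  classical
  obtain ⟨t, hts, htf, htc⟩ := hc.finite_cover_balls (half_pos hr)
  set P : Finset (E n) → Prop := fun A => (∀ a ∈ A, a ∈ V) ∧
    (∀ a ∈ A, ∀ b ∈ A, a ≠ b → r ≤ dist a b) with hP
  have hcard : ∀ A, P A → A.card ≤ htf.toFinset.card := by
    intro A hA
    have h1 : ∀ a ∈ A, ∃ c ∈ t, dist a c < r / 2 := by
      intro a ha
      have h2 := htc (hA.1 a ha)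
      simpa only [mem_iUnion, mem_ball, exists_prop] using h2
    choose! c hc1 hc2 using h1
    refine Finset.card_le_card_of_injOn c (fun a ha => htf.mem_toFinset.2 (hc1 a ha)) ?_
    intro a ha b hb hab
    by_contra hne
    have h3 := hA.2 a ha b hb hne
    have h4 := hc2 a ha
    have h5 := hc2 b hb
    have hab' : c a = c b := hab
    rw [← hab'] at h5
    have h6 := dist_triangle_right a b (c a)
    linarith
  set S : Set ℕ := {k | ∃ A, P A ∧ A.card = k} with hS
  have hne : S.Nonempty := ⟨0, ∅, ⟨by simp, by simp⟩, by simp⟩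
  have hbd : BddAbove S := ⟨htf.toFinset.card, by
    rintro k ⟨A, hA, rfl⟩
    exact hcard A hA⟩
  obtain ⟨A, hA, hAc⟩ := Nat.sSup_mem hne hbd
  refine ⟨A, hA.1, hA.2, fun x hx => ?_⟩
  by_contra hno
  push Not at hno
  have hxA : x ∉ A := by
    intro h
    have := hno x h
    rw [dist_self] at this
    linarith
  have hins : P (insert x A) := by
    refine ⟨fun a ha => ?_, fun a ha b hb hab => ?_⟩
    · rcases Finset.mem_insert.1 ha with rfl | ha
      · exact hx
      · exact hA.1 a ha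
    · rcases Finset.mem_insert.1 ha with h8 | h8 <;> rcases Finset.mem_insert.1 hb with h9 | h9
      · exact absurd (h8.trans h9.symm) hab
      · rw [h8]; exact (hno b h9).le
      · rw [h9, dist_comm]; exact (hno a h8).le
      · exact hA.2 a h8 b h9 hab
  have h7 : (insert x A).card ≤ sSup S := le_csSup hbd ⟨_, hins, rfl⟩
  rw [Finset.card_insert_of_notMem hxA, hAc] at h7
  omega

theorem slice_EV {η : ℝ → ℝ} (hη : Gau η) {n : ℕ} {F : E n → E n} {V : Set (E n)}
    (hVc : IsCompact V) (hF : ContinuousOn F V) {N : ℕ} {δ : ℝ} (hδ : 0 < δ)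
    (hE : EV η N δ V F) (i : Fin n) :
    ∀ᵐ t : ℝ, volume (F '' {x | x ∈ V ∧ x i = t}) = 0 := by
  classical
  -- the scales
  have hsc : ∀ k : ℕ, ∃ r : ℝ, 0 < r ∧ r ≤ δ ∧ N * η (N * r) ≤ (1 / 2 : ℝ) ^ k := by
    intro k
    have hN1 : (0 : ℝ) < (N : ℝ) + 1 := by positivity
    obtain ⟨s, hs0, hs1, hs2⟩ := hη.small (min δ ((1 / 2 : ℝ) ^ k / ((N : ℝ) + 1)))
      (lt_min hδ (by positivity))
    refine ⟨s / ((N : ℝ) + 1), by positivity, ?_, ?_⟩
    · have h1 : s / ((N : ℝ) + 1) ≤ s := by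
        rw [div_le_iff₀ hN1]
        nlinarith [(Nat.cast_nonneg N : (0 : ℝ) ≤ N)]
      exact h1.trans (hs1.le.trans (min_le_left _ _))
    · have h2 : N * (s / ((N : ℝ) + 1)) ≤ s := by
        rw [mul_div_assoc', div_le_iff₀ hN1]
        nlinarith
      have h3 : η (N * (s / ((N : ℝ) + 1))) ≤ (1 / 2 : ℝ) ^ k / ((N : ℝ) + 1) :=
        (hη.mono _ _ (by positivity) h2).trans (hs2.trans (min_le_right _ _))
      calc (N : ℝ) * η (N * (s / ((N : ℝ) + 1)))
          ≤ N * ((1 / 2 : ℝ) ^ k / ((N : ℝ) + 1)) :=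
            mul_le_mul_of_nonneg_left h3 (Nat.cast_nonneg N)
        _ ≤ ((N : ℝ) + 1) * ((1 / 2 : ℝ) ^ k / ((N : ℝ) + 1)) :=
            mul_le_mul_of_nonneg_right (by linarith) (by positivity)
        _ = (1 / 2 : ℝ) ^ k := by field_simp
  choose r hr0 hrδ hrη using hsc
  choose A hA1 hA2 hA3 using fun j : ℕ => net' hVc (hr0 j)
  set D : ℕ → E n → ℝ := fun j a => Metric.diam (F '' (closedBall a (r j) ∩ V)) ^ n with hD
  have hD0 : ∀ j a, 0 ≤ D j a := fun j a => pow_nonneg diam_nonneg _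
  set f : ℕ → ℝ → ℝ≥0∞ := fun j t => ∑ a ∈ A j,
    (Icc (a i - r j) (a i + r j)).indicator (fun _ => ENNReal.ofReal (D j a)) t with hf
  have hfm : ∀ j, Measurable (f j) := by
    intro j
    refine Finset.measurable_fun_sum _ fun a _ => ?_
    exact measurable_const.indicator measurableSet_Icc
  have hint : ∀ j, ∫⁻ t, f j t ≤ ENNReal.ofReal (2 * (1 / 2 : ℝ) ^ j) := by
    intro j
    have h1 : ∫⁻ t, f j t = ∑ a ∈ A j, ENNReal.ofReal (D j a) * ENNReal.ofReal (2 * r j) := by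
      simp only [hf]
      rw [lintegral_finsetSum _ fun a _ => measurable_const.indicator measurableSet_Icc]
      refine Finset.sum_congr rfl fun a _ => ?_
      rw [lintegral_indicator measurableSet_Icc, lintegral_const,
        Measure.restrict_apply MeasurableSet.univ, univ_inter, Real.volume_Icc]
      congr 2
      ring
    have h2 : ∑ a ∈ A j, ENNReal.ofReal (D j a) * ENNReal.ofReal (2 * r j)
        = ENNReal.ofReal ((∑ a ∈ A j, D j a) * (2 * r j)) := by
      rw [ENNReal.ofReal_mul (Finset.sum_nonneg fun a _ => hD0 j a),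
        ENNReal.ofReal_sum_of_nonneg fun a _ => hD0 j a, Finset.sum_mul]
    rw [h1, h2]
    apply ENNReal.ofReal_le_ofReal
    have h3 := hE (r j) (hr0 j) (hrδ j) (A j) (hA1 j) (hA2 j)
    calc (∑ a ∈ A j, D j a) * (2 * r j) = 2 * (r j * ∑ a ∈ A j, D j a) := by ring
      _ ≤ 2 * (N * η (N * r j)) := mul_le_mul_of_nonneg_left h3 (by norm_num)
      _ ≤ 2 * (1 / 2 : ℝ) ^ j := mul_le_mul_of_nonneg_left (hrη j) (by norm_num)
  have hsum : ∫⁻ t, ∑' j, f j t ≠ ∞ := by
    rw [lintegral_tsum fun j => (hfm j).aemeasurable]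
    refine ne_top_of_le_ne_top ?_ (ENNReal.tsum_le_tsum hint)
    have hs : Summable fun j : ℕ => 2 * (1 / 2 : ℝ) ^ j :=
      (summable_geometric_of_lt_one (by norm_num) (by norm_num)).mul_left _
    exact hs.tsum_ofReal_ne_top
  have hae := ae_lt_top (Measurable.tsum hfm) hsum
  filter_upwards [hae] with t ht
  set κ := volume (ball (0 : E n) 1) with hκ
  have hκt : κ ≠ ∞ := measure_ball_lt_top.ne
  have hz : Tendsto (fun j => f j t) atTop (𝓝 0) :=
    ENNReal.tendsto_atTop_zero_of_tsum_ne_top ht.ne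
  have hz2 : Tendsto (fun j => f j t * κ) atTop (𝓝 0) := by
    have := ENNReal.Tendsto.mul_const hz (b := κ) (Or.inr hκt)
    simpa using this
  refine le_antisymm (ge_of_tendsto' hz2 fun j => ?_) zero_le
  have hsub : F '' {x | x ∈ V ∧ x i = t} ⊆
      ⋃ a ∈ (A j).filter (fun a => t ∈ Icc (a i - r j) (a i + r j)),
        F '' (closedBall a (r j) ∩ V) := by
    rintro y ⟨x, ⟨hx, hxt⟩, rfl⟩
    obtain ⟨a, haA, hxa⟩ := hA3 j x hx
    have h1 := coord_le x a i
    rw [hxt, abs_le] at h1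
    refine mem_biUnion (x := a) ?_ ⟨x, ⟨mem_closedBall.2 hxa, hx⟩, rfl⟩
    rw [Finset.mem_coe, Finset.mem_filter]
    exact ⟨haA, by linarith [h1.1], by linarith [h1.2]⟩
  refine (measure_mono hsub).trans ((measure_biUnion_finset_le _ _).trans ?_)
  have hb : ∀ a : E n, Bornology.IsBounded (F '' (closedBall a (r j) ∩ V)) := by
    intro a
    exact (hVc.image_of_continuousOn hF).isBounded.subset (image_mono inter_subset_right)
  calc ∑ a ∈ (A j).filter (fun a => t ∈ Icc (a i - r j) (a i + r j)),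
        volume (F '' (closedBall a (r j) ∩ V))
      ≤ ∑ a ∈ (A j).filter (fun a => t ∈ Icc (a i - r j) (a i + r j)),
          ENNReal.ofReal (D j a) * κ :=
        Finset.sum_le_sum fun a _ => Pool.Agent.Y401.SPN.vol_le _ (hb a)
    _ = f j t * κ := by
        rw [← Finset.sum_mul, Finset.sum_filter]
        simp only [hf, Set.indicator_apply]

/-- the fibre of `G` over `w` in the ball of radius two is totally separated by hyperplanes -/
def Sep2 {n : ℕ} (G : E n → E n) (w : E n) : Prop :=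
  ∀ x ∈ closedBall (0 : E n) 2, ∀ x' ∈ closedBall (0 : E n) 2, G x = w → G x' = w → x ≠ x' →
    ∃ (i : Fin n) (t : ℝ), (∀ z ∈ closedBall (0 : E n) 2, G z = w → z i ≠ t) ∧
      ((x i < t ∧ t < x' i) ∨ (x' i < t ∧ t < x i))

theorem nul_LE {η : ℝ → ℝ} (hη : Gau η) {n : ℕ} {F : E n → E n}
    (hF : ContinuousOn F (BB n)) (hC : CLE η F) : ∀ᵐ y : E n, Sep2 F y := by
  classical
  -- slices of the ball of radius two
  have hsl : ∀ i : Fin n, ∀ᵐ t : ℝ,
      volume (F '' {x | x ∈ closedBall (0 : E n) 2 ∧ x i = t}) = 0 := by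
    intro i
    have : Nonempty (Fin n) := ⟨i⟩
    have hn : 1 ≤ n := by
      have := i.2
      omega
    obtain ⟨W, hW⟩ : ∃ W : Set (E n), W = {x | x ∈ ball (0 : E n) 3 ∧ LE η F x} := ⟨_, rfl⟩
    have h1 : ∀ x : E n, ∃ V : Set (E n), (x ∈ W → V ∈ 𝓝 x) ∧
        ∀ᵐ t : ℝ, volume (F '' {x | x ∈ V ∧ x i = t}) = 0 := by
      intro x
      by_cases hx : x ∈ W
      · have hx' := hx
        rw [hW] at hx'
        obtain ⟨-, N, δ, hδ, hB, hE⟩ := hx'
        exact ⟨closedBall x δ, fun _ => closedBall_mem_nhds x hδ,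
          slice_EV hη (isCompact_closedBall x δ) (hF.mono hB) hδ hE i⟩
      · exact ⟨∅, fun h => absurd h hx, by simp⟩
    choose V hV1 hV2 using h1
    obtain ⟨t0, ht0W, ht0c, hcov⟩ := TopologicalSpace.countable_cover_nhdsWithin (f := V) (s := W)
      (fun x hx => mem_nhdsWithin_of_mem_nhds (hV1 x hx))
    have h2 : ∀ᵐ t : ℝ, ∀ x ∈ t0, volume (F '' {z | z ∈ V x ∧ z i = t}) = 0 :=
      (ae_ball_iff ht0c).2 fun x _ => hV2 x
    filter_upwards [h2] with t ht
    have hsub : F '' {x | x ∈ closedBall (0 : E n) 2 ∧ x i = t} ⊆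
        F '' {x : E n | x ∈ ball (0 : E n) 3 ∧ ¬ LE η F x} ∪
          ⋃ x ∈ t0, F '' {z | z ∈ V x ∧ z i = t} := by
      rintro y ⟨x, ⟨hx, hxt⟩, rfl⟩
      have hx3 : x ∈ ball (0 : E n) 3 := closedBall_subset_ball (by norm_num) hx
      by_cases hP : LE η F x
      · have hxW : x ∈ W := by
          rw [hW]
          exact ⟨hx3, hP⟩
        obtain ⟨x0, hx0, hxV⟩ := mem_iUnion₂.1 (hcov hxW)
        exact Or.inr (mem_iUnion₂.2 ⟨x0, hx0, x, ⟨hxV, hxt⟩, rfl⟩)
      · exact Or.inl ⟨x, ⟨hx3, hP⟩, rfl⟩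
    refine measure_mono_null hsub (measure_union_null ?_ ?_)
    · have hfr : 0 < Module.finrank ℝ (E n) := by
        rw [finrank_euclideanSpace_fin]
        omega
      have : Nontrivial (E n) := Module.nontrivial_of_finrank_pos hfr
      exact (hC.image F).measure_zero volume
    · exact (measure_biUnion_null_iff ht0c).2 fun x hx => ht x hx
  have h1 : ∀ i : Fin n, ∃ T : Set ℝ, T.Countable ∧ Dense T ∧ ∀ t ∈ T,
      volume (F '' {x | x ∈ closedBall (0 : E n) 2 ∧ x i = t}) = 0 := by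
    intro i
    have hd := Measure.dense_of_ae (hsl i)
    obtain ⟨T, hT1, hT2, hT3⟩ := hd.exists_countable_dense_subset
    exact ⟨T, hT2, hT3, fun t ht => hT1 ht⟩
  choose T hT1 hT2 hT3 using h1
  have h2 : ∀ᵐ y : E n, ∀ i : Fin n, ∀ t ∈ T i,
      y ∉ F '' {x | x ∈ closedBall (0 : E n) 2 ∧ x i = t} := by
    rw [ae_all_iff]
    intro i
    rw [ae_ball_iff (hT1 i)]
    intro t ht
    exact measure_eq_zero_iff_ae_notMem.1 (hT3 i t ht)
  filter_upwards [h2] with y hy x hx x' hx' hFx hFx' hne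
  obtain ⟨i, hi⟩ : ∃ i : Fin n, x i ≠ x' i := by
    by_contra hall
    push Not at hall
    exact hne (PiLp.ext hall)
  rcases lt_or_gt_of_ne hi with h3 | h3
  · obtain ⟨t, htT, ht1, ht2⟩ := (hT2 i).exists_between h3
    exact ⟨i, t, fun z hz hFz hzt => hy i t htT ⟨z, ⟨hz, hzt⟩, hFz⟩, Or.inl ⟨ht1, ht2⟩⟩
  · obtain ⟨t, htT, ht1, ht2⟩ := (hT2 i).exists_between h3
    exact ⟨i, t, fun z hz hFz hzt => hy i t htT ⟨z, ⟨hz, hzt⟩, hFz⟩, Or.inr ⟨ht1, ht2⟩⟩

end Pool.Agent.Q31.HS
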