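import Pool.Agent.Q31.HS.Core
import Pool.Agent.Q31.HS.Baire
import Pool.Agent.Y143.PH.LOC2
import Pool.Agent.Y523.PH.RES
import Pool.Agent.Y532.SP.AVE
import Pool.Agent.Y340.SP.POW
import Pool.Agent.Y215.HS.Syl

/-!
# Hilbert-Smith with a pointwise modulus: the local theorem for profinite groups

(helper31) The averages are taken over a coset `h₀ P` of the closure `P` of the powers of an element;
the invariant map close to the identity is the composition of the average with the inverse of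
`h₀`. The affine map `Af` and the rescaling are those of project PH.
-/

set_option autoImplicit false
set_option linter.unusedSectionVars false

open MeasureTheory Set Metric Filter Topology
open scoped ENNReal NNReal

noncomputable section

namespace Pool.Agent.Q31.HS

open Pool.Agent.Y485.HS Pool.Agent.Y489.PH Pool.Agent.Y475.HS

section

variable {n : ℕ} {H : Type} [Group H] [TopologicalSpace H] [IsTopologicalGroup H]
  [CompactSpace H]

/-- points near which an open subgroup acts trivially -/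
theorem upw_of_triv {ω : ℝ → ℝ} (hω : Mod n ω) {T : H → E n → E n} (hT : LocAct n H T)
    (hP : ∀ k, CPW ω (T k)) (h0 : H) {K0 : Subgroup H} (hK0 : IsOpen (K0 : Set H))
    {V : Set (E n)} (hV : ∀ x ∈ V, ∀ᶠ z in 𝓝 x, ∀ k ∈ K0, T k z = z) :
    {x | x ∈ V ∧ x ∈ ball (0 : E n) 4 ∧ ¬ UPW ω (fun k => T (h0 * k)) univ x}.Countable := by
  have hfin : Finite (H ⧸ K0) := Subgroup.quotient_finite_of_isOpen K0 hK0
  have hc : (⋃ q : H ⧸ K0, {x : E n | x ∈ ball (0 : E n) 4 ∧
      ¬ PW ω (T (h0 * q.out)) x}).Countable :=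
    countable_iUnion fun q => hP (h0 * q.out)
  refine hc.mono ?_
  rintro x ⟨hxV, hxb, hxn⟩
  by_contra hcon
  apply hxn
  simp only [mem_iUnion, mem_ofPred_eq, not_exists, not_and, not_not] at hcon
  have h1 : ∀ q : H ⧸ K0, ∃ N : ℕ, ∀ᶠ z in 𝓝 x, z ∈ BB n →
      dist (T (h0 * q.out) z) (T (h0 * q.out) x) ≤ N * ω (N * dist z x) := by
    intro q
    obtain ⟨N, δ, hδ, hN⟩ := hcon q hxb
    refine ⟨N, ?_⟩
    filter_upwards [ball_mem_nhds x hδ] with z hz hzB
    exact hN z hzB hz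
  choose N hN using h1
  have hfi := Fintype.ofFinite (H ⧸ K0)
  have h2 : ∀ᶠ z in 𝓝 x, ∀ q : H ⧸ K0, z ∈ BB n →
      dist (T (h0 * q.out) z) (T (h0 * q.out) x) ≤ N q * ω (N q * dist z x) :=
    eventually_all.2 hN
  obtain ⟨δ, hδ, hb⟩ := Metric.eventually_nhds_iff_ball.1 (h2.and (hV x hxV))
  refine ⟨∑ q, N q, δ, hδ, fun k _ z hzB hzx => ?_⟩
  obtain ⟨hz1, hz2⟩ := hb z hzx
  have hxB : x ∈ BB n := ball_subset_closedBall hxb
  obtain ⟨κ, hκ⟩ := QuotientGroup.mk_out_eq_mul K0 k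
  have hk : k = (k : H ⧸ K0).out * (κ : H)⁻¹ := by
    rw [hκ]
    group
  have hκ' : (κ : H)⁻¹ ∈ K0 := K0.inv_mem κ.2
  have key : ∀ w, w ∈ BB n → w ∈ ball x δ → T (h0 * k) w = T (h0 * (k : H ⧸ K0).out) w := by
    intro w hw hwx
    have h3 := (hb w hwx).2 _ hκ'
    calc T (h0 * k) w = T (h0 * (k : H ⧸ K0).out * (κ : H)⁻¹) w := by
          rw [mul_assoc, ← hk]
      _ = T (h0 * (k : H ⧸ K0).out) (T (κ : H)⁻¹ w) := hT.mul _ _ w hw (by rw [h3]; exact hw)
      _ = T (h0 * (k : H ⧸ K0).out) w := by rw [h3]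
  show dist (T (h0 * k) z) (T (h0 * k) x) ≤ _
  rw [key z hzB hzx, key x hxB (mem_ball_self hδ)]
  refine (hz1 _ hzB).trans ?_
  refine hω.scale (Nat.cast_nonneg _) ?_ dist_nonneg
  exact_mod_cast Finset.single_le_sum (f := fun q => N q) (fun q _ => Nat.zero_le _)
    (Finset.mem_univ (k : H ⧸ K0))

/-- the same for all points near which some open subgroup acts trivially -/
theorem upw_triv {ω : ℝ → ℝ} (hω : Mod n ω) {T : H → E n → E n} (hT : LocAct n H T)
    (hP : ∀ k, CPW ω (T k)) (h0 : H) :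
    {x | x ∈ ball (0 : E n) 4 ∧ Triv T x ∧ ¬ UPW ω (fun k => T (h0 * k)) univ x}.Countable := by
  obtain ⟨W, hW⟩ : ∃ W : Set (E n), W = {x | x ∈ ball (0 : E n) 4 ∧ Triv T x} := ⟨_, rfl⟩
  have h1 : ∀ x : E n, ∃ (K0 : Subgroup H) (V : Set (E n)), IsOpen (K0 : Set H) ∧
      (∀ z ∈ V, ∀ᶠ z in 𝓝 z, ∀ k ∈ K0, T k z = z) ∧ (x ∈ W → V ∈ 𝓝 x) := by
    intro x
    by_cases hx : x ∈ W
    · have hx' := hx
      rw [hW] at hx'
      obtain ⟨-, K0, hK0, hz⟩ := hx'
      exact ⟨K0, {z | ∀ᶠ z in 𝓝 z, ∀ k ∈ K0, T k z = z}, hK0, fun z hz => hz,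
        fun _ => eventually_eventually_nhds.2 hz⟩
    · exact ⟨⊤, ∅, isOpen_univ, fun z hz => absurd hz (notMem_empty z), fun h => absurd h hx⟩
  choose K0 V hK0 hV hVW using h1
  obtain ⟨t, htW, htc, hcov⟩ := TopologicalSpace.countable_cover_nhdsWithin (f := V) (s := W)
    (fun x hx => mem_nhdsWithin_of_mem_nhds (hVW x hx))
  have h2 : (⋃ x ∈ t, {z | z ∈ V x ∧ z ∈ ball (0 : E n) 4 ∧
      ¬ UPW ω (fun k => T (h0 * k)) univ z}).Countable :=
    htc.biUnion fun x _ => upw_of_triv hω hT hP h0 (hK0 x) (hV x)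
  refine h2.mono ?_
  rintro x ⟨hxb, hxT, hxn⟩
  have hxW : x ∈ W := by
    rw [hW]
    exact ⟨hxb, hxT⟩
  obtain ⟨x0, hx0, hxV⟩ := mem_iUnion₂.1 (hcov hxW)
  exact mem_iUnion₂.2 ⟨x0, hx0, hxV, hxb, hxn⟩

end

theorem UPW.mono {ω : ℝ → ℝ} {n : ℕ} {H : Type} {S : H → E n → E n} {K K' : Set H} {x : E n}
    (h : UPW ω S K x) (hK : K' ⊆ K) : UPW ω S K' x := by
  obtain ⟨N, δ, hδ, h⟩ := h
  exact ⟨N, δ, hδ, fun k hk => h k (hK hk)⟩

/-- continuity of averages -/
theorem avg_cont {n : ℕ} {Ω : Type} [TopologicalSpace Ω] [CompactSpace Ω] [MeasurableSpace Ω]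
    [BorelSpace Ω] (μ : Measure Ω) [IsProbabilityMeasure μ] (S : Ω → E n → E n)
    (hS : ContinuousOn (fun q : Ω × E n => S q.1 q.2) (univ ×ˢ BB n)) :
    ContinuousOn (fun x => ∫ ω, S ω x ∂μ) (BB n) := by
  let Φ : C(Ω, C(BB n, E n)) := res S hS
  have hint : Integrable (fun ω => Φ ω) μ :=
    Φ.continuous.integrable_of_hasCompactSupport (HasCompactSupport.of_compactSpace _)
  have heval : ∀ x : BB n, ∫ ω, S ω x.1 ∂μ = (∫ ω, Φ ω ∂μ : C(BB n, E n)) x := by
    intro x
    have := (ContinuousMap.evalCLM ℝ x : C(BB n, E n) →L[ℝ] E n).integral_comp_comm hint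
    exact this
  rw [continuousOn_iff_continuous_domRestrict]
  have : (BB n).domRestrict (fun x => ∫ ω, S ω x ∂μ) = (∫ ω, Φ ω ∂μ : C(BB n, E n)) := by
    ext1 x
    exact heval x
  rw [this]
  exact (∫ ω, Φ ω ∂μ : C(BB n, E n)).continuous

/-- uniform estimate for averages -/
theorem avg_dist {n : ℕ} {Ω : Type} [TopologicalSpace Ω] [CompactSpace Ω] [MeasurableSpace Ω]
    [BorelSpace Ω] (μ : Measure Ω) [IsProbabilityMeasure μ] (f g : Ω → E n) (hf : Continuous f)
    (hg : Continuous g) (C : ℝ) (h : ∀ ω, dist (f ω) (g ω) ≤ C) :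
    dist (∫ ω, f ω ∂μ) (∫ ω, g ω ∂μ) ≤ C := by
  have h1 : Integrable f μ :=
    hf.integrable_of_hasCompactSupport (HasCompactSupport.of_compactSpace _)
  have h2 : Integrable g μ :=
    hg.integrable_of_hasCompactSupport (HasCompactSupport.of_compactSpace _)
  rw [dist_eq_norm, ← integral_sub h1 h2]
  have h3 := norm_integral_le_of_norm_le_const (μ := μ) (f := fun k => f k - g k) (C := C)
    (Eventually.of_forall fun k => by rw [← dist_eq_norm]; exact h k)
  simpa using h3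

section avg

variable {n : ℕ} {H : Type} [Group H] [TopologicalSpace H] [IsTopologicalGroup H]
  [CompactSpace H] [T2Space H] {T : H → E n → E n}

/-- the closure of the powers of `g` -/
abbrev Cl (g : H) : Subgroup H := (Subgroup.zpowers g).topologicalClosure

instance (g : H) : CompactSpace (Cl g) :=
  isCompact_iff_compactSpace.1 (Subgroup.isClosed_topologicalClosure _).isCompact

instance (g : H) : MeasurableSpace (Cl g) := borel _

instance (g : H) : BorelSpace (Cl g) := ⟨rfl⟩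

/-- the Haar probability measure -/
def hm (g : H) : Measure (Cl g) := Measure.haarMeasure ⊤

instance (g : H) : IsProbabilityMeasure (hm g) := ⟨by
  have := Measure.haarMeasure_self (K₀ := (⊤ : TopologicalSpace.PositiveCompacts (Cl g)))
  simpa [hm] using this⟩

instance (g : H) : (hm g).IsMulLeftInvariant := by
  unfold hm
  infer_instance

/-- the average over the coset `h₀ P` -/
def av (T : H → E n → E n) (h0 g : H) (x : E n) : E n :=
  ∫ q : Cl g, T (h0 * ((q : H))⁻¹) x ∂(hm g)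

theorem av_S (hT : LocAct n H T) (h0 g : H) :
    ContinuousOn (fun q : Cl g × E n => T (h0 * ((q.1 : H))⁻¹) q.2) (univ ×ˢ BB n) := by
  have hc : Continuous (fun q : Cl g × E n => (h0 * (((q.1 : Cl g) : H))⁻¹, q.2)) := by fun_prop
  refine hT.cont.comp hc.continuousOn ?_
  rintro ⟨k, x⟩ ⟨-, hx⟩
  exact ⟨mem_univ _, hx⟩

theorem av_cont (hT : LocAct n H T) (h0 g : H) : ContinuousOn (av T h0 g) (BB n) :=
  avg_cont (hm g) (fun q x => T (h0 * ((q : H))⁻¹) x) (av_S hT h0 g)

theorem av_orb (hT : LocAct n H T) (h0 g : H) {x : E n} (hx : x ∈ BB n) :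
    Continuous (fun q : Cl g => T (h0 * ((q : H))⁻¹) x) := by
  have hc : Continuous (fun k : Cl g => (k, x)) := by fun_prop
  exact (av_S hT h0 g).comp_continuous hc (fun k => ⟨mem_univ _, hx⟩)

theorem av_dist (hT : LocAct n H T) (h0 g : H) {x z : E n} (hx : x ∈ BB n) (C : ℝ)
    (h : ∀ q : Cl g, dist (T (h0 * ((q : H))⁻¹) x) z ≤ C) : dist (av T h0 g x) z ≤ C := by
  have h1 := avg_dist (hm g) (fun q : Cl g => T (h0 * ((q : H))⁻¹) x) (fun _ => z)
    (av_orb hT h0 g hx) continuous_const C h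
  simpa [av] using h1

theorem av_dist2 (hT : LocAct n H T) (h0 g : H) {x z : E n} (hx : x ∈ BB n) (hz : z ∈ BB n)
    (C : ℝ) (h : ∀ q : Cl g, dist (T (h0 * ((q : H))⁻¹) x) (T (h0 * ((q : H))⁻¹) z) ≤ C) :
    dist (av T h0 g x) (av T h0 g z) ≤ C :=
  avg_dist (hm g) (fun q : Cl g => T (h0 * ((q : H))⁻¹) x)
    (fun q : Cl g => T (h0 * ((q : H))⁻¹) z) (av_orb hT h0 g hx) (av_orb hT h0 g hz) C h

theorem av_inv (hT : LocAct n H T) (h0 g : H) {x : E n} (hx : x ∈ BB n) (hgx : T g x ∈ BB n) :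
    av T h0 g (T g x) = av T h0 g x := by
  let k : Cl g := ⟨g, Subgroup.le_topologicalClosure _ (Subgroup.mem_zpowers g)⟩
  have h1 : ∀ q : Cl g, T (h0 * ((q : H))⁻¹) (T g x) = T (h0 * (((k⁻¹ * q : Cl g) : H))⁻¹) x := by
    intro q
    rw [← hT.mul _ _ x hx hgx]
    congr 1
    simp [k, mul_assoc]
  unfold av
  simp_rw [h1]
  exact integral_mul_left_eq_self (fun q : Cl g => T (h0 * ((q : H))⁻¹) x) k⁻¹

theorem av_fix (hT : LocAct n H T) (h0 g : H) {x : E n} (hx : x ∈ BB n) (hgx : T g x = x) :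
    av T h0 g x = T h0 x := by
  have hall := Pool.Agent.Y532.SP.LOCS.fix_closure hT hx g hgx
  have h1 : ∀ q : Cl g, T (h0 * ((q : H))⁻¹) x = T h0 x := by
    intro q
    have h2 : T (((q⁻¹ : Cl g)) : H) x = x := hall _ (q⁻¹).2
    have h3 := hT.mul h0 (((q⁻¹ : Cl g)) : H) x hx (by rw [h2]; exact hx)
    rw [h2] at h3
    simpa using h3
  unfold av
  simp_rw [h1]
  simp

/-- the local theorem without rescaling -/
theorem local_one (hn : 1 ≤ n) {ω : ℝ → ℝ} (hω : Mod n ω) {p : ℕ} (hp : p.Prime)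
    (hT : LocAct n H T)
    (hcount : {x | x ∈ ball (0 : E n) 4 ∧ ¬ UPW ω T univ x}.Countable) (g : H)
    (hgp : Tendsto (fun j : ℕ => g ^ p ^ j) atTop (𝓝 1)) :
    ∀ x ∈ ball (0 : E n) 1, T g x = x := by
  refine core hn hp hT g hgp (av T 1 g) (av_cont hT 1 g) (fun x hx => ?_)
    (fun x hx hgx => av_inv hT 1 g hx hgx) (fun x hx hgx => ?_) (fun O hO hne _ => ?_)
  · exact av_dist hT 1 g hx _ fun q => hT.disp _ x hx
  · rw [av_fix hT 1 g hx hgx, hT.one x hx]
  · have hC : CPW ω (av T 1 g) := by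
      refine hcount.mono ?_
      rintro x ⟨hx, hxn⟩
      refine ⟨hx, fun h => hxn ?_⟩
      obtain ⟨N, δ, hδ, hN⟩ := h
      refine ⟨N, δ, hδ, fun z hz hzx => ?_⟩
      exact av_dist2 hT 1 g hz (ball_subset_closedBall hx) _ fun q => hN _ (mem_univ _) z hz hzx
    have h1 := nul hω hC
    have h2 : ∃ w, w ∈ O ∧ Sep (av T 1 g) w := by
      by_contra hcon
      push Not at hcon
      have h3 : volume O = 0 := by
        refine measure_mono_null ?_ (ae_iff.1 h1)
        intro w hw hs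
        exact hcon w hw hs
      exact (hO.measure_pos volume hne).ne' h3
    exact h2

open Pool.Agent.Y143.PH in
/-- the local theorem near a point `y`, after a dilation with factor `4 / r` -/
theorem local_step (hn : 1 ≤ n) {ω : ℝ → ℝ} (hω : Mod n ω) {p : ℕ} (hp : p.Prime)
    (hT : LocAct n H T) (h0 : H) {y : E n} {r : ℝ} (hr0 : 0 < r) (hr1 : r ≤ 1)
    (hy : y ∈ ball (0 : E n) 2) (K : Subgroup H) (hKc : IsClosed (K : Set H))
    (hTK : LocAct n K (fun (k : K) (v : E n) => (4 / r) • (T (k : H) (Af y r v) - y)))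
    {η : ℝ} (hη : ∀ a ∈ BB n, ∀ b ∈ BB n, dist a b ≤ η → dist (T h0⁻¹ a) (T h0⁻¹ b) ≤ r / 16)
    (hKη : ∀ k ∈ K, ∀ x ∈ BB n, dist (T (h0 * k) x) (T h0 x) ≤ η)
    (hcount : {x | x ∈ ball y r ∧ ¬ UPW ω (fun k => T (h0 * k)) (K : Set H) x}.Countable)
    (g : K) (hgp : Tendsto (fun j : ℕ => g ^ p ^ j) atTop (𝓝 1)) :
    ∀ v ∈ ball (0 : E n) 1, (4 / r) • (T (g : H) (Af y r v) - y) = v := by
  have hrr : (4 / r : ℝ) ≠ 0 := by positivity
  have hClK : ∀ q : Cl (g : H), (q : H) ∈ K := by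
    intro q
    exact Subgroup.topologicalClosure_minimal _ ((Subgroup.zpowers_le).2 g.2) hKc q.2
  -- norms
  have hA3 : ∀ v ∈ BB n, ‖Af y r v‖ < 3 := fun v hv => Af_norm hr0 hr1 hy (mem_BB.1 hv)
  have hAB : ∀ v ∈ BB n, Af y r v ∈ BB n := fun v hv => mem_BB.2 (by linarith [hA3 v hv])
  have hFd : ∀ x ∈ BB n, dist (av T h0 g x) (T h0 x) ≤ η := fun x hx =>
    av_dist hT h0 g hx _ fun q => hKη _ (K.inv_mem (hClK q)) x hx
  have hFn : ∀ x ∈ BB n, ‖av T h0 g x‖ ≤ ‖x‖ + 1 / 4 := by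
    intro x hx
    have h1 : dist (av T h0 g x) x ≤ 1 / 4 := av_dist hT h0 g hx _ fun q => hT.disp _ x hx
    rw [dist_eq_norm] at h1
    calc ‖av T h0 g x‖ = ‖x + (av T h0 g x - x)‖ := by congr 1; abel
      _ ≤ ‖x‖ + ‖av T h0 g x - x‖ := norm_add_le _ _
      _ ≤ _ := by linarith
  have hFB : ∀ v ∈ BB n, av T h0 g (Af y r v) ∈ BB n := fun v hv => by
    have h1 := hFn _ (hAB v hv)
    have h2 := hA3 v hv
    exact mem_BB.2 (by linarith)
  have hinv : ∀ x : E n, ‖x‖ ≤ 3 → T h0⁻¹ (T h0 x) = x := by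
    intro x hx
    have hxB : x ∈ BB n := mem_BB.2 (by linarith)
    have h1 := norm_T_le hT h0 hxB
    exact hT.inv h0 hxB (mem_BB.2 (by linarith))
  -- the invariant map
  set G : E n → E n := fun v => (4 / r) • (T h0⁻¹ (av T h0 g (Af y r v)) - y) with hG
  have hback : ∀ a : E n, a ∈ BB n → T h0⁻¹ a ∈ BB n → T h0 (T h0⁻¹ a) = a := by
    intro a ha ha'
    have := hT.inv h0⁻¹ ha ha'
    rwa [inv_inv] at this
  refine core hn hp hTK g hgp G ?_ ?_ ?_ ?_ ?_
  · -- continuity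
    have h1 : ContinuousOn (fun v => av T h0 g (Af y r v)) (BB n) :=
      (av_cont hT h0 g).comp Af_cont.continuousOn hAB
    have h2 : ContinuousOn (fun v => T h0⁻¹ (av T h0 g (Af y r v))) (BB n) :=
      (hT.cont_right h0⁻¹).comp h1 hFB
    exact (h2.sub continuousOn_const).const_smul (4 / r : ℝ)
  · -- displacement
    intro v hv
    have hx := hAB v hv
    have h1 : dist (T h0⁻¹ (av T h0 g (Af y r v))) (T h0⁻¹ (T h0 (Af y r v))) ≤ r / 16 := by
      refine hη _ (hFB v hv) _ ?_ (hFd _ hx)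
      have := norm_T_le hT h0 hx
      have h3 := hA3 v hv
      exact mem_BB.2 (by linarith)
    rw [hinv _ (hA3 v hv).le] at h1
    have h2 : G v = (4 / r) • (T h0⁻¹ (av T h0 g (Af y r v)) - y) := rfl
    rw [h2]
    nth_rw 2 [← resc_Af (y := y) hr0 v]
    rw [resc_dist hr0]
    calc 4 / r * dist (T h0⁻¹ (av T h0 g (Af y r v))) (Af y r v) ≤ 4 / r * (r / 16) :=
          mul_le_mul_of_nonneg_left h1 (by positivity)
      _ = 1 / 4 := by field_simp; norm_num
  · -- invariance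
    intro v hv hgv
    have h1 : Af y r ((4 / r) • (T (g : H) (Af y r v) - y)) = T (g : H) (Af y r v) :=
      Af_surj hr0 _
    have h2 : T (g : H) (Af y r v) ∈ BB n := by
      rw [← h1]
      exact hAB _ hgv
    show (4 / r) • (T h0⁻¹ (av T h0 g (Af y r ((4 / r) • (T (g : H) (Af y r v) - y)))) - y) = _
    rw [h1, av_inv hT h0 g (hAB v hv) h2]
  · -- fixed points
    intro v hv hgv
    have h1 : T (g : H) (Af y r v) = Af y r v := by
      rw [← Af_surj (y := y) hr0 (T (g : H) (Af y r v)), hgv]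
    show (4 / r) • (T h0⁻¹ (av T h0 g (Af y r v)) - y) = v
    rw [av_fix hT h0 g (hAB v hv) h1, hinv _ (hA3 v hv).le, resc_Af hr0]
  · -- separated fibres
    intro O hO hne hO1
    have hC : CPW ω (fun v => av T h0 g (Af y r v)) := by
      refine (hcount.preimage (Af_inj (y := y) hr0)).mono ?_
      rintro v ⟨hv, hvn⟩
      have hv4 : ‖v‖ < 4 := by simpa using hv
      refine ⟨?_, fun h => hvn ?_⟩
      · rw [mem_ball, Af_dist_center hr0]
        have : r / 4 * ‖v‖ < r / 4 * 4 := mul_lt_mul_of_pos_left hv4 (by positivity)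
        linarith
      · obtain ⟨N, δ, hδ, hN⟩ := h
        refine ⟨N, 4 / r * δ, by positivity, fun z hz hzv => ?_⟩
        have h1 : dist (Af y r z) (Af y r v) < δ := by
          rw [Af_dist hr0]
          calc r / 4 * dist z v < r / 4 * (4 / r * δ) :=
                mul_lt_mul_of_pos_left hzv (by positivity)
            _ = δ := by field_simp
        have h2 : dist (Af y r z) (Af y r v) ≤ dist z v := by
          rw [Af_dist hr0]
          have := dist_nonneg (x := z) (y := v)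
          nlinarith
        refine av_dist2 hT h0 g (hAB z hz) (hAB v (ball_subset_closedBall hv)) _ fun q => ?_
        refine (hN _ (K.inv_mem (hClK q)) _ (hAB z hz) h1).trans ?_
        refine mul_le_mul_of_nonneg_left (hω.mono _ _ (by positivity) ?_) (Nat.cast_nonneg _)
        exact mul_le_mul_of_nonneg_left h2 (Nat.cast_nonneg _)
    have h1 := nul hω hC
    set O' : Set (E n) := {u | u ∈ ball (0 : E n) 4 ∧ (4 / r) • (T h0⁻¹ u - y) ∈ O} with hO'
    have hO'o : IsOpen O' := by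
      have hc : ContinuousOn (fun u => (4 / r) • (T h0⁻¹ u - y)) (ball (0 : E n) 4) :=
        (((hT.cont_right h0⁻¹).mono ball_subset_closedBall).sub
          continuousOn_const).const_smul (4 / r : ℝ)
      exact hc.isOpen_inter_preimage isOpen_ball hO
    have hO'n : O'.Nonempty := by
      obtain ⟨w0, hw0⟩ := hne
      have hw1 : ‖w0‖ < 1 := by simpa using hO1 hw0
      have hwB : w0 ∈ BB n := mem_BB.2 (by linarith)
      refine ⟨T h0 (Af y r w0), ?_, ?_⟩
      · have h2 := norm_T_le hT h0 (hAB w0 hwB)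
        have h3 := hA3 w0 hwB
        rw [mem_ball_zero_iff]
        linarith
      · rw [hinv _ (hA3 w0 hwB).le, resc_Af hr0]
        exact hw0
    obtain ⟨u, huO, hu⟩ : ∃ u, u ∈ O' ∧ Sep (fun v => av T h0 g (Af y r v)) u := by
      by_contra hcon
      push Not at hcon
      have h3 : volume O' = 0 := by
        refine measure_mono_null ?_ (ae_iff.1 h1)
        intro w hw hs
        exact hcon w hw hs
      exact (hO'o.measure_pos volume hO'n).ne' h3
    refine ⟨_, huO.2, ?_⟩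
    set w : E n := (4 / r) • (T h0⁻¹ u - y) with hw
    have hw1 : ‖w‖ < 1 := by simpa using hO1 huO.2
    have hwB : w ∈ BB n := mem_BB.2 (by linarith)
    have huB : u ∈ BB n := ball_subset_closedBall huO.1
    have hTu : T h0⁻¹ u = Af y r w := (Af_surj hr0 _).symm
    have hTuB : T h0⁻¹ u ∈ BB n := by
      rw [hTu]
      exact hAB w hwB
    -- the fibres agree
    have hfib : ∀ v ∈ closedBall (0 : E n) 3, (G v = w ↔ av T h0 g (Af y r v) = u) := by
      intro v hv
      have hvB : v ∈ BB n := closedBall_subset_closedBall (by norm_num) hv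
      constructor
      · intro h
        have h2 : T h0⁻¹ (av T h0 g (Af y r v)) - y = T h0⁻¹ u - y :=
          smul_right_injective (E n) hrr h
        have h3 : T h0⁻¹ (av T h0 g (Af y r v)) = T h0⁻¹ u := sub_left_injective h2
        have h4 := hback _ (hFB v hvB) (by rw [h3]; exact hTuB)
        rw [← h4, h3, hback u huB hTuB]
      · intro h
        show (4 / r) • (T h0⁻¹ (av T h0 g (Af y r v)) - y) = w
        rw [h]
    intro v hv v' hv' hGv hGv' hne'
    obtain ⟨i, t, h2, h3⟩ := hu v hv v' hv' ((hfib v hv).1 hGv) ((hfib v' hv').1 hGv') hne'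
    exact ⟨i, t, fun z hz hGz => h2 z hz ((hfib z hz).1 hGz), h3⟩

end avg

end Pool.Agent.Q31.HS
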