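import Pool.Agent.Q31.HS.Newman
import Pool.Agent.Q31.HS.Loc2
import Pool.Agent.Y485.HS.Lie
import Pool.Agent.Y485.HS.Final2

/-!
# Hilbert-Smith with a pointwise modulus: the final theorem from the local theorem

(helper31) Adaptation of `Pool/Agent/Y489/PH/Main.lean` (helper489, helper485). The regular part is
replaced by a dense open set `R` of regular points with finitely many components.
-/

set_option autoImplicit false

open MeasureTheory Set Metric Filter Topology
open scoped ENNReal NNReal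

noncomputable section

namespace Pool.Agent.Q31.HS

open Pool.Agent.Y485.HS Pool.Agent.Y489.PH
open Pool.Agent.W660.GY (NSS GY3)

/-- Near every point of `R` an open subgroup acts trivially. -/
theorem locTriv {n : ℕ} (hn : 1 ≤ n) {ω : ℝ → ℝ} (hω : Mod n ω) {X : Type} [MetricSpace X]
    {R : Set X} (hR : IsOpen R)
    {H : Type} [Group H] [TopologicalSpace H] [IsTopologicalGroup H] [CompactSpace H] [T2Space H]
    [TotallyDisconnectedSpace H] [MulAction H X] [ContinuousSMul H X]
    (hlip : ∀ h : H, CX ω R (fun x : X => h • x)) {x0 : X} (hx0R : x0 ∈ R)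
    (hx0 : x0 ∈ Reg n X) :
    ∃ K : Subgroup H, IsOpen (K : Set H) ∧ ∀ᶠ x in 𝓝 x0, ∀ k ∈ K, k • x = x := by
  obtain ⟨U, ψ, L, H0, hU, hUR, hxU, hψ0, hball, hH0, hsmall⟩ := start hR H hx0R hx0
  have hH0c : IsClosed (H0 : Set H) := Subgroup.isClosed_of_isOpen H0 hH0
  have : CompactSpace H0 := isCompact_iff_compactSpace.1 hH0c.isCompact
  obtain ⟨T, hT, hTs, hTψ⟩ := trp (H := H0) hω hU hUR hball
    (fun h x hx hx4 => hsmall h h.2 x hx hx4) (fun h => hlip (h : H))
  obtain ⟨K, hKo, hK⟩ := loc2 hn hω hT hTs 0 (by simp)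
  refine ⟨K.map H0.subtype, ?_, ?_⟩
  · rw [Subgroup.coe_map]
    exact hH0.isOpenEmbedding_subtypeVal.isOpenMap _ hKo
  · have hψc : ContinuousAt ψ x0 := (hU.cont x0 hxU).continuousAt (hU.1.mem_nhds hxU)
    have h1 : ∀ᶠ x in 𝓝 x0, ∀ k ∈ K, T k (ψ x) = ψ x := by
      have : Tendsto ψ (𝓝 x0) (𝓝 0) := by
        have h := hψc.tendsto
        rwa [hψ0] at h
      exact this.eventually hK
    have h2 : ∀ᶠ x in 𝓝 x0, ψ x ∈ closedBall (0 : E n) 4 := by
      refine hψc.eventually_mem ?_
      rw [hψ0]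
      exact closedBall_mem_nhds _ (by norm_num)
    filter_upwards [h1, h2, hU.1.mem_nhds hxU] with x hx hx4 hxU'
    rintro k ⟨k', hk', rfl⟩
    have h3 := hTψ k' x hxU' hx4
    have h4 := (hsmall (k' : H) k'.2 x hxU' hx4).1
    refine hU.inj h4 hxU' ?_
    rw [hx k' hk'] at h3
    exact h3.symm

/-- A profinite group acting by maps of the class has an open subgroup which acts trivially. -/
theorem profinite {n : ℕ} (hn : 1 ≤ n) {ω : ℝ → ℝ} (hω : Mod n ω) {X : Type} [MetricSpace X]
    {R : Set X} (hR : IsOpen R) (hRs : R ⊆ Reg n X) (hdense : Dense R)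
    (hconn : ∃ (m : ℕ) (C : Fin m → Set X), (∀ i, IsPreconnected (C i)) ∧ R = ⋃ i, C i)
    {H : Type} [Group H] [TopologicalSpace H] [IsTopologicalGroup H] [CompactSpace H] [T2Space H]
    [TotallyDisconnectedSpace H] [MulAction H X] [ContinuousSMul H X]
    (hlip : ∀ h : H, CX ω R (fun x : X => h • x)) :
    ∃ K : Subgroup H, IsOpen (K : Set H) ∧ ∀ k ∈ K, ∀ x : X, k • x = x := by
  obtain ⟨m, C, hC, hRC⟩ := hconn
  have hCR : ∀ i, C i ⊆ R := fun i => by rw [hRC]; exact subset_iUnion C i
  -- one subgroup for all components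
  have hK1 : ∀ i : Fin m, ∃ K : Subgroup H, IsOpen (K : Set H) ∧ ((C i).Nonempty →
      ∃ x0 ∈ C i, ∀ᶠ x in 𝓝 x0, ∀ k ∈ K, k • x = x) := by
    intro i
    rcases (C i).eq_empty_or_nonempty with h | ⟨x0, hx0⟩
    · exact ⟨⊤, isOpen_univ, fun hne => absurd h hne.ne_empty⟩
    · obtain ⟨K, hKo, hK⟩ := locTriv hn hω hR hlip (hCR i hx0) (hRs (hCR i hx0))
      exact ⟨K, hKo, fun _ => ⟨x0, hx0, hK⟩⟩
  choose K1 hK1o hK1 using hK1
  set K : Subgroup H := ⨅ i, K1 i with hKdef
  have hKo : IsOpen (K : Set H) := by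
    rw [hKdef, Subgroup.coe_iInf]
    exact isOpen_iInter_of_finite hK1o
  have hKt : ∀ i : Fin m, (C i).Nonempty → ∃ x0 ∈ C i, ∀ᶠ x in 𝓝 x0, ∀ k ∈ K, k • x = x := by
    intro i hi
    obtain ⟨x0, hx0, h⟩ := hK1 i hi
    refine ⟨x0, hx0, ?_⟩
    filter_upwards [h] with x hx k hk
    exact hx k (iInf_le K1 i hk)
  refine ⟨K, hKo, ?_⟩
  have hKc : IsClosed (K : Set H) := Subgroup.isClosed_of_isOpen K hKo
  have : CompactSpace K := isCompact_iff_compactSpace.1 hKc.isCompact
  let D : Subgroup K :=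
    { carrier := {k | ∀ x : X, (k : H) • x = x}
      mul_mem' := by
        intro a b ha hb x
        rw [Subgroup.coe_mul, mul_smul, hb x, ha x]
      one_mem' := by
        intro x
        simp
      inv_mem' := by
        intro a ha x
        rw [Subgroup.coe_inv, inv_smul_eq_iff, ha x] }
  have hDc : IsClosed (D : Set K) := by
    have h1 : (D : Set K) = ⋂ x : X, {k : K | (k : H) • x = x} := by
      ext k
      simp only [mem_iInter]
      rfl
    rw [h1]
    refine isClosed_iInter fun x => ?_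
    have hc : Continuous (fun k : K => (k : H) • x) := by fun_prop
    exact isClosed_eq hc continuous_const
  have hD : D = ⊤ := by
    refine Pool.Agent.Y215.HS.syl K D hDc ?_
    intro p hp P hPc hPp k hk
    have : CompactSpace P := isCompact_iff_compactSpace.1 hPc.isCompact
    -- the interior of the fixed set of `P`
    let Z : Set X := {x | ∀ᶠ y in 𝓝 x, ∀ q : P, q • y = y}
    have hZo : IsOpen Z := by
      rw [isOpen_iff_mem_nhds]
      intro x hx
      exact eventually_eventually_nhds.2 hx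
    have hsub : R ⊆ Z := by
      rw [hRC]
      refine iUnion_subset fun i => ?_
      rcases (C i).eq_empty_or_nonempty with h | hne
      · rw [h]
        exact empty_subset _
      obtain ⟨x0, hx0, hx0t⟩ := hKt i hne
      have hZx : x0 ∈ Z := by
        filter_upwards [hx0t] with y hy q
        exact hy ((q : K) : H) (q : K).2
      refine (hC i).subset_of_closure_inter_subset hZo ⟨x0, hx0, hZx⟩ ?_
      rintro x ⟨hxZ, hxC⟩
      have hxR : x ∈ R := hCR i hxC
      obtain ⟨K', hK'o, hK't⟩ := locTriv hn hω hR hlip hxR (hRs hxR)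
      let K'' : Subgroup P := K'.comap (K.subtype.comp P.subtype)
      have hK''o : IsOpen (K'' : Set P) := by
        refine hK'o.preimage ?_
        exact continuous_subtype_val.comp continuous_subtype_val
      refine newp hn hω hp hPp hR (fun h : P => hlip ((h : K) : H)) hxR (hRs hxR) hK''o ?_ ?_
      · filter_upwards [hK't] with y hy q hq
        exact hy _ hq
      · intro V hV
        obtain ⟨a, haV, haZ⟩ := mem_closure_iff_nhds.1 hxZ V hV
        exact ⟨a, haV, haZ⟩
    intro x
    have hcl : IsClosed {x : X | (k : H) • x = x} :=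
      isClosed_eq (continuous_const_smul (k : H)) continuous_id
    have h2 : R ⊆ {x : X | (k : H) • x = x} := by
      intro y hy
      exact (hsub hy).self_of_nhds ⟨k, hk⟩
    have h3 := hcl.closure_subset_iff.2 h2
    rw [hdense.closure_eq] at h3
    exact h3 (mem_univ x)
  intro k hk x
  have h1 : (⟨k, hk⟩ : K) ∈ D := by rw [hD]; exact Subgroup.mem_top _
  exact h1 x

/-- No small subgroups. -/
theorem nss_main {n : ℕ} (hn : 1 ≤ n) {ω : ℝ → ℝ} (hω : Mod n ω) {X : Type} [MetricSpace X]
    {R : Set X} (hR : IsOpen R) (hRs : R ⊆ Reg n X) (hdense : Dense R)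
    (hconn : ∃ (m : ℕ) (C : Fin m → Set X), (∀ i, IsPreconnected (C i)) ∧ R = ⋃ i, C i)
    {G : Type} [Group G] [TopologicalSpace G] [IsTopologicalGroup G] [LocallyCompactSpace G]
    [MulAction G X] [ContinuousSMul G X] [FaithfulSMul G X]
    (hlip : ∀ᶠ g in 𝓝 (1 : G), CX ω R (fun x : X => g • x)) : T2Space G ∧ NSS G := by
  have hT2 : T2Space G := by
    refine ⟨fun g h hgh => ?_⟩
    obtain ⟨x, hx⟩ : ∃ x : X, g • x ≠ h • x := by
      by_contra hall
      push Not at hall
      exact hgh (eq_of_smul_eq_smul hall)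
    obtain ⟨u, v, hu, hv, hgu, hhv, huv⟩ := t2_separation hx
    have hc : Continuous (fun g : G => g • x) := by fun_prop
    exact ⟨_, _, hu.preimage hc, hv.preimage hc, hgu, hhv, huv.preimage _⟩
  refine ⟨hT2, nss_of_Z _ hlip ?_⟩
  intro S _ _ _ _ _ _ i hi hinj hiV
  let _ : MulAction S X := MulAction.compHom X i
  have _ : ContinuousSMul S X := ⟨by
    have h : Continuous (fun q : S × X => i q.1 • q.2) := by fun_prop
    exact h⟩
  obtain ⟨K, hKo, hKt⟩ := profinite hn hω hR hRs hdense hconn (H := S) (X := X)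
    (fun h => hiV h)
  have hbot : K = ⊥ := by
    rw [eq_bot_iff]
    intro k hk
    rw [Subgroup.mem_bot]
    apply hinj
    refine eq_of_smul_eq_smul (α := X) fun x => ?_
    rw [map_one, one_smul]
    exact hKt k hk x
  rw [hbot] at hKo
  refine discreteTopology_of_isOpen_singleton_one ?_
  convert hKo using 1
  ext x
  simp

/-- The Hilbert-Smith conjecture for homeomorphisms with a pointwise modulus of continuity. -/
theorem lie_main {n : ℕ} (hn : 1 ≤ n) {ω : ℝ → ℝ} (hω : Mod n ω) {X : Type} [MetricSpace X]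
    {R : Set X} (hR : IsOpen R) (hRs : R ⊆ Reg n X) (hdense : Dense R)
    (hconn : ∃ (m : ℕ) (C : Fin m → Set X), (∀ i, IsPreconnected (C i)) ∧ R = ⋃ i, C i)
    {G : Type} [Group G] [TopologicalSpace G] [IsTopologicalGroup G] [LocallyCompactSpace G]
    [MulAction G X] [ContinuousSMul G X] [FaithfulSMul G X]
    (hlip : ∀ᶠ g in 𝓝 (1 : G), CX ω R (fun x : X => g • x)) : IsLie G := by
  obtain ⟨hT, hN⟩ := nss_main hn hω hR hRs hdense hconn hlip
  have := hT
  obtain ⟨E, i1, i2, i3, ⟨C⟩⟩ := Pool.Agent.Y328.HS.lga G hN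
  letI := i1
  letI := i2
  haveI := i3
  exact Pool.Agent.Y286.HS.lgb G E C

end Pool.Agent.Q31.HS
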