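import Pool.Agent.Y489.SP.Stm
import Pool.Agent.Y485.HS.Loc

/-!
# Hilbert-Smith with a pointwise modulus: images of hyperplane sections are null sets

(helper31) The definitions `E`, `BB`, `LocAct` are those of project HS of helper485; the
separation of fibres follows `S_NUL` of project SP (helper489, helper401).
-/

set_option autoImplicit false

open MeasureTheory Set Metric Filter Topology
open scoped ENNReal NNReal

noncomputable section

namespace Pool.Agent.Q31.HS

open Pool.Agent.Y485.HS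

/-- the moduli: nonnegative, nondecreasing, and `ω(r)^n / r^(n-1)` is small for some arbitrarily
small `r` -/
structure Mod (n : ℕ) (ω : ℝ → ℝ) : Prop where
  nonneg : ∀ r, 0 ≤ r → 0 ≤ ω r
  mono : ∀ r s, 0 ≤ r → r ≤ s → ω r ≤ ω s
  small : ∀ ε : ℝ, 0 < ε → ∃ r : ℝ, 0 < r ∧ r < ε ∧ ω r ^ n * r ≤ ε * r ^ n

/-- the modulus of continuity of `u` at the point `x` (in the ball `BB n`) is `O(ω)` -/
def PW (ω : ℝ → ℝ) {n : ℕ} (u : E n → E n) (x : E n) : Prop :=
  ∃ (N : ℕ) (δ : ℝ), 0 < δ ∧ ∀ z ∈ BB n, dist z x < δ →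
    dist (u z) (u x) ≤ N * ω (N * dist z x)

/-- the same uniformly for a family of maps -/
def UPW (ω : ℝ → ℝ) {n : ℕ} {H : Type} (S : H → E n → E n) (K : Set H) (x : E n) : Prop :=
  ∃ (N : ℕ) (δ : ℝ), 0 < δ ∧ ∀ k ∈ K, ∀ z ∈ BB n, dist z x < δ →
    dist (S k z) (S k x) ≤ N * ω (N * dist z x)

/-- the condition holds at all points of the open ball except countably many -/
def CPW (ω : ℝ → ℝ) {n : ℕ} (u : E n → E n) : Prop :=
  {x : E n | x ∈ ball (0 : E n) 4 ∧ ¬ PW ω u x}.Countable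

theorem Mod.scale {n : ℕ} {ω : ℝ → ℝ} (hω : Mod n ω) {a b : ℝ} (h0 : 0 ≤ a) (hab : a ≤ b)
    {d : ℝ} (hd : 0 ≤ d) : a * ω (a * d) ≤ b * ω (b * d) := by
  have h1 : ω (a * d) ≤ ω (b * d) :=
    hω.mono _ _ (by positivity) (mul_le_mul_of_nonneg_right hab hd)
  have h2 : 0 ≤ ω (a * d) := hω.nonneg _ (by positivity)
  exact mul_le_mul hab h1 h2 (h0.trans hab)

/-- the points at which `F` has the modulus with constant and scale given by `m` -/
def AM (ω : ℝ → ℝ) (n : ℕ) (F : E n → E n) (i : Fin n) (t : ℝ) (m : ℕ) : Set (E n) :=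
  {x | x ∈ closedBall (0 : E n) 3 ∧ x i = t ∧
    ∀ z ∈ BB n, dist z x < 1 / ((m : ℝ) + 1) → dist (F z) (F x) ≤ m * ω (m * dist z x)}

/-- the cells -/
def cell {n : ℕ} (i : Fin n) (s : ℝ) (x : E n) : Fin n → ℤ :=
  fun j => if j = i then 0 else ⌊x j / s⌋

theorem coord_le {n : ℕ} (x a : E n) (i : Fin n) : |x i - a i| ≤ dist x a := by
  rw [dist_eq_norm]
  have := PiLp.norm_apply_le (x - a) i
  rwa [PiLp.sub_apply, Real.norm_eq_abs] at this

theorem dist_le_of_coord {n : ℕ} (x y : E n) {s : ℝ} (hs : 0 ≤ s) (h : ∀ i, |x i - y i| ≤ s) :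
    dist x y ≤ n * s := by
  rw [EuclideanSpace.dist_eq]
  apply Real.sqrt_le_iff.2
  refine ⟨by positivity, ?_⟩
  have h1 : ∀ i ∈ (Finset.univ : Finset (Fin n)), dist (x i) (y i) ^ 2 ≤ s ^ 2 := by
    intro i _
    rw [Real.dist_eq]
    exact pow_le_pow_left₀ (abs_nonneg _) (h i) 2
  have h2 := Finset.sum_le_card_nsmul _ _ _ h1
  rw [Finset.card_univ, Fintype.card_fin, nsmul_eq_mul] at h2
  refine h2.trans ?_
  rw [mul_pow]
  rcases Nat.eq_zero_or_pos n with h0 | h0
  · simp [h0]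
  · have h3 : (1 : ℝ) ≤ n := by exact_mod_cast h0
    have h4 : (n : ℝ) ≤ (n : ℝ) ^ 2 := by nlinarith
    exact mul_le_mul_of_nonneg_right h4 (by positivity)

theorem cell_dist {n : ℕ} {i : Fin n} {s : ℝ} (hs : 0 < s) {x y : E n} (hi : x i = y i)
    (h : cell i s x = cell i s y) : dist x y ≤ n * s := by
  refine dist_le_of_coord x y hs.le fun j => ?_
  by_cases hj : j = i
  · subst hj
    rw [hi, sub_self, abs_zero]
    exact hs.le
  · have h1 := congrFun h j
    simp only [cell, hj, if_false] at h1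
    have h2 := Int.abs_sub_lt_one_of_floor_eq_floor h1
    rw [← sub_div, abs_div, abs_of_pos hs, div_lt_one hs] at h2
    exact h2.le

/-- the possible cells -/
def cells {n : ℕ} (i : Fin n) (M : ℕ) : Finset (Fin n → ℤ) :=
  Fintype.piFinset fun j => if j = i then {0} else Finset.Icc (-(M : ℤ)) M

theorem card_cells {n : ℕ} (i : Fin n) (M : ℕ) : (cells i M).card = (2 * M + 1) ^ (n - 1) := by
  unfold cells
  rw [Fintype.card_piFinset]
  have h1 : ∀ j : Fin n, (if j = i then ({0} : Finset ℤ) else Finset.Icc (-(M : ℤ)) M).card =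
      if j = i then 1 else 2 * M + 1 := by
    intro j
    split_ifs
    · simp
    · rw [Int.card_Icc]
      omega
  simp_rw [h1]
  rw [← Finset.mul_prod_erase Finset.univ _ (Finset.mem_univ i)]
  simp only [if_true, one_mul]
  rw [Finset.prod_congr rfl (g := fun _ => 2 * M + 1)
    (fun j hj => by simp [(Finset.mem_erase.1 hj).1])]
  rw [Finset.prod_const, Finset.card_erase_of_mem (Finset.mem_univ i), Finset.card_univ,
    Fintype.card_fin]

theorem cell_mem {n : ℕ} {i : Fin n} {s : ℝ} (hs : 0 < s) {M : ℕ} (hM : 3 / s ≤ M) {x : E n}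
    (hx : x ∈ closedBall (0 : E n) 3) : cell i s x ∈ cells i M := by
  unfold cells cell
  rw [Fintype.mem_piFinset]
  intro j
  by_cases hj : j = i
  · simp [hj]
  · simp only [hj, if_false, Finset.mem_Icc]
    have h1 : |x j| ≤ 3 := by
      have h2 := coord_le x 0 j
      rw [PiLp.zero_apply, sub_zero] at h2
      exact h2.trans (mem_closedBall.1 hx)
    rw [abs_le] at h1
    have h3 : -(M : ℝ) ≤ x j / s := by
      have : -(3 / s) ≤ x j / s := by
        rw [← neg_div]
        exact div_le_div_of_nonneg_right h1.1 hs.le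
      linarith
    have h4 : x j / s ≤ M := (div_le_div_of_nonneg_right h1.2 hs.le).trans hM
    constructor
    · rw [Int.le_floor]
      push_cast
      exact h3
    · have h5 : (⌊x j / s⌋ : ℝ) ≤ M := (Int.floor_le _).trans h4
      exact_mod_cast h5

theorem vol_AM {ω : ℝ → ℝ} {n : ℕ} (hω : Mod n ω) (F : E n → E n) (i : Fin n) (t : ℝ) (m : ℕ) :
    volume (F '' AM ω n F i t m) = 0 := by
  classical
  have hn : 1 ≤ n := by
    have := i.2
    omega
  have hn' : (1 : ℝ) ≤ n := by exact_mod_cast hn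
  set κ := volume (ball (0 : E n) 1) with hκ
  have hκt : κ ≠ ∞ := measure_ball_lt_top.ne
  set C : ℝ := (9 * ((m : ℝ) + 1) * n) ^ (n - 1) * (m : ℝ) ^ n with hC
  have hC0 : 0 ≤ C := by positivity
  have key : ∀ ε : ℝ, 0 < ε → ε ≤ 1 →
      volume (F '' AM ω n F i t m) ≤ ENNReal.ofReal (C * ε) * κ := by
    intro ε hε hε1
    obtain ⟨r, hr0, hrε, hrω⟩ := hω.small ε hε
    have hr1 : r < 1 := lt_of_lt_of_le hrε hε1
    have hm1 : (0 : ℝ) < (m : ℝ) + 1 := by positivity
    set s : ℝ := r / (((m : ℝ) + 1) * n) with hs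
    have hs0 : 0 < s := by positivity
    have hns : n * s = r / ((m : ℝ) + 1) := by
      rw [hs]
      field_simp
    have hs1 : s ≤ 1 := by
      rw [hs, div_le_one (by positivity)]
      have : (1 : ℝ) ≤ ((m : ℝ) + 1) * n := by
        have h1 : (0 : ℝ) ≤ m := Nat.cast_nonneg m
        nlinarith
      linarith
    set M : ℕ := ⌈3 / s⌉₊ with hM
    have hM1 : 3 / s ≤ M := Nat.le_ceil _
    have hM2 : (M : ℝ) < 3 / s + 1 := Nat.ceil_lt_add_one (by positivity)
    have hcard : ((2 * M + 1 : ℕ) : ℝ) ≤ 9 / s := by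
      push_cast
      have h1 : (1 : ℝ) ≤ 1 / s := by
        rw [le_div_iff₀ hs0]
        linarith
      have h2 : 9 / s = 6 / s + 3 * (1 / s) := by ring
      have h3 : 2 * (3 / s) = 6 / s := by ring
      nlinarith
    have hωr : 0 ≤ ω r := hω.nonneg r hr0.le
    have hsub : F '' AM ω n F i t m ⊆
        ⋃ k ∈ cells i M, F '' {x | x ∈ AM ω n F i t m ∧ cell i s x = k} := by
      rintro y ⟨x, hx, rfl⟩
      refine mem_biUnion (x := cell i s x) ?_ ⟨x, ⟨hx, rfl⟩, rfl⟩
      rw [Finset.mem_coe]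
      exact cell_mem hs0 hM1 hx.1
    have hpiece : ∀ k : Fin n → ℤ, volume (F '' {x | x ∈ AM ω n F i t m ∧ cell i s x = k}) ≤
        ENNReal.ofReal ((m * ω r) ^ n) * κ := by
      intro k
      rcases (F '' {x | x ∈ AM ω n F i t m ∧ cell i s x = k}).eq_empty_or_nonempty with h | h
      · rw [h]
        simp
      · obtain ⟨y, x, ⟨hx, hxk⟩, rfl⟩ := h
        have h1 : F '' {x | x ∈ AM ω n F i t m ∧ cell i s x = k} ⊆
            closedBall (F x) (m * ω r) := by
          rintro y' ⟨x', ⟨hx', hxk'⟩, rfl⟩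
          rw [mem_closedBall]
          have hd : dist x' x ≤ r / ((m : ℝ) + 1) := by
            rw [← hns]
            exact cell_dist hs0 (hx'.2.1.trans hx.2.1.symm) (hxk'.trans hxk.symm)
          have hx'B : x' ∈ BB n := closedBall_subset_closedBall (by norm_num) hx'.1
          have hd1 : dist x' x < 1 / ((m : ℝ) + 1) :=
            lt_of_le_of_lt hd ((div_lt_div_iff_of_pos_right hm1).2 hr1)
          refine (hx.2.2 x' hx'B hd1).trans ?_
          have hd2 : m * dist x' x ≤ r := by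
            calc (m : ℝ) * dist x' x ≤ ((m : ℝ) + 1) * dist x' x :=
                  mul_le_mul_of_nonneg_right (by linarith) dist_nonneg
              _ ≤ ((m : ℝ) + 1) * (r / ((m : ℝ) + 1)) := mul_le_mul_of_nonneg_left hd hm1.le
              _ = r := by field_simp
          exact mul_le_mul_of_nonneg_left (hω.mono _ _ (by positivity) hd2) (Nat.cast_nonneg m)
        refine (measure_mono h1).trans ?_
        rw [Measure.addHaar_closedBall volume _ (by positivity), finrank_euclideanSpace_fin]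
    refine (measure_mono hsub).trans ((measure_biUnion_finset_le _ _).trans ?_)
    refine (Finset.sum_le_sum fun k _ => hpiece k).trans ?_
    rw [Finset.sum_const, card_cells, nsmul_eq_mul, ← mul_assoc]
    refine mul_le_mul_left ?_ κ
    have h2 : (((2 * M + 1) ^ (n - 1) : ℕ) : ℝ≥0∞) =
        ENNReal.ofReal (((2 * M + 1 : ℕ) : ℝ) ^ (n - 1)) := by
      rw [ENNReal.ofReal_pow (Nat.cast_nonneg _), ENNReal.ofReal_natCast]
      push_cast
      rfl
    rw [h2, ← ENNReal.ofReal_mul (by positivity)]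
    apply ENNReal.ofReal_le_ofReal
    have h3 : (((2 * M + 1 : ℕ) : ℝ)) ^ (n - 1) ≤ (9 / s) ^ (n - 1) :=
      pow_le_pow_left₀ (Nat.cast_nonneg _) hcard _
    have h4 : 9 / s = 9 * ((m : ℝ) + 1) * n / r := by
      rw [hs]
      field_simp
    have h5 : ω r ^ n ≤ ε * r ^ (n - 1) := by
      have h6 : r ^ n = r ^ (n - 1) * r := by
        rw [← pow_succ]
        congr 1
        omega
      rw [h6, ← mul_assoc] at hrω
      exact le_of_mul_le_mul_right hrω hr0
    calc (((2 * M + 1 : ℕ) : ℝ)) ^ (n - 1) * (m * ω r) ^ n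
        ≤ (9 / s) ^ (n - 1) * (m * ω r) ^ n := mul_le_mul_of_nonneg_right h3 (by positivity)
      _ = (9 * ((m : ℝ) + 1) * n) ^ (n - 1) * (m : ℝ) ^ n * (ω r ^ n / r ^ (n - 1)) := by
          rw [h4, div_pow, mul_pow (m : ℝ)]
          ring
      _ ≤ (9 * ((m : ℝ) + 1) * n) ^ (n - 1) * (m : ℝ) ^ n * ε := by
          refine mul_le_mul_of_nonneg_left ?_ hC0
          rw [div_le_iff₀ (by positivity)]
          exact h5
      _ = C * ε := rfl
  have hlim : Tendsto (fun j : ℕ => ENNReal.ofReal (C * (1 / ((j : ℝ) + 1))) * κ) atTop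
      (𝓝 0) := by
    have h1 : Tendsto (fun j : ℕ => C * (1 / ((j : ℝ) + 1))) atTop (𝓝 (C * 0)) :=
      tendsto_one_div_add_atTop_nhds_zero_nat.const_mul C
    have h2 := ENNReal.tendsto_ofReal h1
    rw [mul_zero, ENNReal.ofReal_zero] at h2
    have h3 := ENNReal.Tendsto.mul_const h2 (b := κ) (Or.inr hκt)
    rwa [zero_mul] at h3
  refine le_antisymm (ge_of_tendsto' hlim fun j => ?_) zero_le
  refine key _ (by positivity) ?_
  rw [div_le_one (by positivity)]
  have : (0 : ℝ) ≤ j := Nat.cast_nonneg j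
  linarith

theorem slice {ω : ℝ → ℝ} {n : ℕ} (hω : Mod n ω) {F : E n → E n} (hF : CPW ω F) (i : Fin n)
    (t : ℝ) : volume (F '' {x | x ∈ closedBall (0 : E n) 3 ∧ x i = t}) = 0 := by
  have hn : 1 ≤ n := by
    have := i.2
    omega
  have : Nonempty (Fin n) := ⟨i⟩
  have hsub : F '' {x | x ∈ closedBall (0 : E n) 3 ∧ x i = t} ⊆
      F '' {x : E n | x ∈ ball (0 : E n) 4 ∧ ¬ PW ω F x} ∪ ⋃ m : ℕ, F '' AM ω n F i t m := by
    rintro y ⟨x, ⟨hx, hxt⟩, rfl⟩
    by_cases hP : PW ω F x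
    · obtain ⟨N, δ, hδ, hN⟩ := hP
      obtain ⟨m2, hm2⟩ := exists_nat_one_div_lt hδ
      refine Or.inr (mem_iUnion.2 ⟨max N m2, x, ⟨hx, hxt, fun z hz hzx => ?_⟩, rfl⟩)
      have h1 : (1 : ℝ) / (((max N m2 : ℕ) : ℝ) + 1) ≤ 1 / ((m2 : ℝ) + 1) := by
        apply one_div_le_one_div_of_le (by positivity)
        have : (m2 : ℝ) ≤ ((max N m2 : ℕ) : ℝ) := by exact_mod_cast le_max_right _ _
        linarith
      refine (hN z hz (by linarith)).trans ?_
      exact hω.scale (Nat.cast_nonneg N) (by exact_mod_cast le_max_left _ _) dist_nonneg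
    · refine Or.inl ⟨x, ⟨?_, hP⟩, rfl⟩
      exact closedBall_subset_ball (by norm_num) hx
  refine measure_mono_null hsub (measure_union_null ?_ (measure_iUnion_null fun m =>
    vol_AM hω F i t m))
  have hfr : 0 < Module.finrank ℝ (E n) := by
    rw [finrank_euclideanSpace_fin]
    omega
  have : Nontrivial (E n) := Module.nontrivial_of_finrank_pos hfr
  exact (hF.image F).measure_zero volume

/-- almost every fibre is totally separated by hyperplanes -/
theorem nul {ω : ℝ → ℝ} {n : ℕ} (hω : Mod n ω) {F : E n → E n} (hF : CPW ω F) :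
    ∀ᵐ y : E n, ∀ x ∈ closedBall (0 : E n) 3, ∀ x' ∈ closedBall (0 : E n) 3, F x = y →
      F x' = y → x ≠ x' → ∃ (i : Fin n) (t : ℝ), (∀ z ∈ closedBall (0 : E n) 3, F z = y →
        z i ≠ t) ∧ ((x i < t ∧ t < x' i) ∨ (x' i < t ∧ t < x i)) := by
  have h2 : ∀ᵐ y : E n, ∀ i : Fin n, ∀ t ∈ range ((↑) : ℚ → ℝ),
      y ∉ F '' {x | x ∈ closedBall (0 : E n) 3 ∧ x i = t} := by
    rw [ae_all_iff]
    intro i
    rw [ae_ball_iff (countable_range _)]
    intro t _
    exact measure_eq_zero_iff_ae_notMem.1 (slice hω hF i t)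
  filter_upwards [h2] with y hy x hx x' hx' hFx hFx' hne
  obtain ⟨i, hi⟩ : ∃ i : Fin n, x i ≠ x' i := by
    by_contra hall
    push Not at hall
    exact hne (PiLp.ext hall)
  rcases lt_or_gt_of_ne hi with h3 | h3
  · obtain ⟨q, ht1, ht2⟩ := exists_rat_btwn h3
    exact ⟨i, q, fun z hz hFz hzt => hy i q ⟨q, rfl⟩ ⟨z, ⟨hz, hzt⟩, hFz⟩, Or.inl ⟨ht1, ht2⟩⟩
  · obtain ⟨q, ht1, ht2⟩ := exists_rat_btwn h3
    exact ⟨i, q, fun z hz hFz hzt => hy i q ⟨q, rfl⟩ ⟨z, ⟨hz, hzt⟩, hFz⟩, Or.inr ⟨ht1, ht2⟩⟩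

end Pool.Agent.Q31.HS
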